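import Mathlib

namespace Pool.Agent.H557Z.Bmoa

open Complex MeasureTheory Filter Topology Set

/-- Cauchy theorem for the upper half plane. -/
lemma integral_zero (G : ℂ → ℂ) (hG : DifferentiableOn ℂ G {w | 0 ≤ w.im})
    (hint : Integrable fun x : ℝ => G x) (R0 C : ℝ)
    (hb : ∀ w : ℂ, 0 ≤ w.im → R0 ≤ ‖w‖ → ‖G w‖ ≤ C / ‖w‖ ^ 2) : ∫ x : ℝ, G x = 0 := by
  have h1 : Tendsto (fun R : ℝ => ∫ x in (-R)..R, G x) atTop (𝓝 (∫ x : ℝ, G x)) :=
    intervalIntegral_tendsto_integral hint tendsto_neg_atTop_atBot tendsto_id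
  have h2 : Tendsto (fun R : ℝ => ∫ x in (-R)..R, G x) atTop (𝓝 0) := by
    have hlim : Tendsto (fun R : ℝ => 4 * |C| / R) atTop (𝓝 0) :=
      tendsto_const_nhds.div_atTop tendsto_id
    refine squeeze_zero_norm' ?_ hlim
    filter_upwards [eventually_ge_atTop R0, eventually_gt_atTop 0] with R hR0 hR
    have key := integral_boundary_rect_eq_zero_of_differentiableOn G (-R : ℝ) (R + R * I)
      (hG.mono (by
        intro w hw
        have := hw.2
        simp only [ofReal_im, add_im, mul_im, ofReal_re, I_im, I_re, mul_one, mul_zero, add_zero,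
          zero_add, mem_preimage] at this
        rw [uIcc_of_le hR.le] at this
        exact this.1))
    simp only [ofReal_re, ofReal_im, add_re, mul_re, I_re, I_im, mul_zero, mul_one, sub_self,
      add_zero, add_im, mul_im, zero_add, ofReal_zero, zero_mul] at key
    have hbd : ∀ w : ℂ, 0 ≤ w.im → R ≤ ‖w‖ → ‖G w‖ ≤ |C| / R ^ 2 := by
      intro w hw hRw
      refine (hb w hw (hR0.trans hRw)).trans ?_
      calc C / ‖w‖ ^ 2 ≤ |C| / ‖w‖ ^ 2 := by gcongr; exact le_abs_self C
        _ ≤ |C| / R ^ 2 := by gcongr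
    have e1 : ‖∫ x : ℝ in (-R)..R, G (x + R * I)‖ ≤ |C| / R ^ 2 * |R - -R| := by
      apply intervalIntegral.norm_integral_le_of_norm_le_const
      intro x _
      apply hbd
      · simp [hR.le]
      · refine le_trans ?_ (abs_im_le_norm _)
        simp [abs_of_pos hR]
    have e2 : ‖∫ y : ℝ in (0 : ℝ)..R, G (R + y * I)‖ ≤ |C| / R ^ 2 * |R - 0| := by
      apply intervalIntegral.norm_integral_le_of_norm_le_const
      intro y hy
      rw [uIoc_of_le hR.le] at hy
      apply hbd
      · simp [hy.1.le]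
      · refine le_trans ?_ (abs_re_le_norm _)
        simp [abs_of_pos hR]
    have e3 : ‖∫ y : ℝ in (0 : ℝ)..R, G ((-R : ℝ) + y * I)‖ ≤ |C| / R ^ 2 * |R - 0| := by
      apply intervalIntegral.norm_integral_le_of_norm_le_const
      intro y hy
      rw [uIoc_of_le hR.le] at hy
      apply hbd
      · simp [hy.1.le]
      · refine le_trans ?_ (abs_re_le_norm _)
        simp [abs_of_pos hR]
    have e4 : (∫ x : ℝ in (-R)..R, G x) = (∫ x : ℝ in (-R)..R, G (x + R * I))
        - I • (∫ y : ℝ in (0 : ℝ)..R, G (R + y * I))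
        + I • (∫ y : ℝ in (0 : ℝ)..R, G ((-R : ℝ) + y * I)) := by
      linear_combination key
    rw [e4]
    have e5 : |R - -R| = 2 * R := by rw [abs_of_pos (by linarith)]; ring
    have e6 : |R - 0| = R := by rw [sub_zero, abs_of_pos hR]
    rw [e5] at e1
    rw [e6] at e2 e3
    refine (norm_add_le _ _).trans ?_
    refine (add_le_add (norm_sub_le _ _) le_rfl).trans ?_
    rw [norm_smul, norm_smul, norm_I, one_mul, one_mul]
    have : 4 * |C| / R = |C| / R ^ 2 * (2 * R) + |C| / R ^ 2 * R + |C| / R ^ 2 * R := by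
      field_simp
      ring
    rw [this]
    gcongr
  exact tendsto_nhds_unique h1 h2

lemma integrable_inv_sq_add {t : ℝ} (ht : 1 ≤ t) : Integrable fun x : ℝ => (x ^ 2 + t ^ 2)⁻¹ := by
  refine integrable_inv_one_add_sq.mono' ?_ (Eventually.of_forall fun x => ?_)
  · refine Continuous.aestronglyMeasurable ?_
    refine Continuous.inv₀ (by fun_prop) fun x => ?_
    positivity
  · rw [Real.norm_eq_abs, abs_of_pos (by positivity)]
    apply inv_anti₀ (by positivity)
    nlinarith

lemma integral_inv_sq_add_pos {t : ℝ} (ht : 1 ≤ t) : 0 < ∫ x : ℝ, (x ^ 2 + t ^ 2)⁻¹ := by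
  rw [integral_pos_iff_support_of_nonneg (fun x => by positivity) (integrable_inv_sq_add ht)]
  have : Function.support (fun x : ℝ => (x ^ 2 + t ^ 2)⁻¹) = univ := by
    ext x
    simp only [Function.mem_support, mem_univ, iff_true]
    positivity
  rw [this]
  simp

lemma cont_line {H : ℂ → ℂ} (hH : DifferentiableOn ℂ H {w | 0 ≤ w.im}) :
    Continuous fun x : ℝ => H x :=
  hH.continuousOn.comp_continuous continuous_ofReal fun x => by simp

/-- Poisson bound at the point `t I`. -/
lemma point_bound (H : ℂ → ℂ) (hH : DifferentiableOn ℂ H {w | 0 ≤ w.im}) (C : ℝ)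
    (hb : ∀ w : ℂ, 0 ≤ w.im → ‖H w‖ ≤ C) {t : ℝ} (ht : 1 ≤ t) :
    ‖H (t * I)‖ * ∫ x : ℝ, (x ^ 2 + t ^ 2)⁻¹ ≤ ∫ x : ℝ, ‖H x‖ * (x ^ 2 + t ^ 2)⁻¹ := by
  have ht0 : 0 < t := by linarith
  have hnhds : {w : ℂ | 0 ≤ w.im} ∈ 𝓝 (t * I : ℂ) := by
    have : IsOpen {w : ℂ | 0 < w.im} := isOpen_lt continuous_const continuous_im
    refine mem_of_superset (this.mem_nhds (by simpa using ht0)) fun w hw => ?_
    exact le_of_lt (show 0 < w.im from hw)
  have hne : ∀ w : ℂ, 0 ≤ w.im → w + t * I ≠ 0 := by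
    intro w hw h
    have := congrArg im h
    simp at this
    linarith
  let G : ℂ → ℂ := fun w => dslope H (t * I) w / (w + t * I)
  have hG : DifferentiableOn ℂ G {w | 0 ≤ w.im} :=
    ((Complex.differentiableOn_dslope hnhds).2 hH).div (by fun_prop) hne
  have hGx : ∀ x : ℝ, G x = H x * ((x ^ 2 + t ^ 2)⁻¹ : ℝ) - H (t * I) * ((x ^ 2 + t ^ 2)⁻¹ : ℝ) := by
    intro x
    have h1 : (x : ℂ) ≠ t * I := by
      intro h
      have := congrArg im h
      simp at this
      linarith
    have h2 : (x : ℂ) - t * I ≠ 0 := sub_ne_zero.2 h1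
    have h3 := hne x (by simp)
    have h4 : ((x : ℂ) ^ 2 + t ^ 2) = (x - t * I) * (x + t * I) := by
      linear_combination (t : ℂ) ^ 2 * I_sq
    simp only [G, dslope_of_ne _ h1, slope_def_field]
    push_cast
    rw [h4]
    field_simp
  have hC : 0 ≤ C := (norm_nonneg _).trans (hb 0 (by simp))
  have hi0 : Integrable fun x : ℝ => (((x ^ 2 + t ^ 2)⁻¹ : ℝ) : ℂ) :=
    (integrable_inv_sq_add ht).ofReal
  have hi1 : Integrable fun x : ℝ => H x * ((x ^ 2 + t ^ 2)⁻¹ : ℝ) :=
    hi0.bdd_mul (cont_line hH).aestronglyMeasurable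
      (Eventually.of_forall fun x => hb x (by simp))
  have hi2 : Integrable fun x : ℝ => H (t * I) * ((x ^ 2 + t ^ 2)⁻¹ : ℝ) := hi0.const_mul _
  have hint : Integrable fun x : ℝ => G x := by
    simp_rw [hGx]
    exact hi1.sub hi2
  have hz := integral_zero G hG hint (2 * t) (4 * C) (by
    intro w hw hRw
    have hw0 : 0 < ‖w‖ := by linarith
    have h5 : ‖w‖ / 2 ≤ ‖w - t * I‖ := by
      have := norm_sub_norm_le w (t * I)
      simp only [norm_mul, norm_real, norm_I, mul_one, Real.norm_eq_abs, abs_of_pos ht0] at this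
      linarith
    have h1 : w ≠ t * I := by
      intro h
      rw [h, sub_self, norm_zero, ← h] at h5
      linarith
    have h6 : ‖w‖ ≤ ‖w + t * I‖ := by
      rw [← abs_norm, ← abs_norm (w + t * I), ← sq_le_sq, Complex.sq_norm, Complex.sq_norm,
        normSq_apply, normSq_apply]
      simp
      nlinarith
    have h7 : ‖H w - H (t * I)‖ ≤ 2 * C := by
      have := hb w hw
      have := hb (t * I) (by simpa using ht0.le)
      have := norm_sub_le (H w) (H (t * I))
      linarith
    simp only [G, dslope_of_ne _ h1, slope_def_field, norm_div]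
    calc ‖H w - H (t * I)‖ / ‖w - t * I‖ / ‖w + t * I‖ ≤ 2 * C / (‖w‖ / 2) / ‖w‖ := by gcongr
      _ = 4 * C / ‖w‖ ^ 2 := by field_simp; ring)
  simp_rw [hGx] at hz
  rw [integral_sub hi1 hi2, sub_eq_zero, integral_const_mul, integral_complex_ofReal] at hz
  have h8 := norm_integral_le_integral_norm (μ := volume) fun x : ℝ => H x * ((x ^ 2 + t ^ 2)⁻¹ : ℝ)
  rw [hz, norm_mul, norm_real, Real.norm_eq_abs, abs_of_pos (integral_inv_sq_add_pos ht)] at h8
  refine h8.trans (le_of_eq ?_)
  refine integral_congr_ae (Eventually.of_forall fun x => ?_)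
  simp only
  rw [norm_mul, norm_real, Real.norm_eq_abs, abs_of_pos (by positivity)]

end Pool.Agent.H557Z.Bmoa
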