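import Mathlib

namespace Pool.Agent.H557Z.Bmoa

open Complex MeasureTheory Filter Topology Set

noncomputable def mob (w : ℂ) : ℂ := (w - 1) / (w + 1)
noncomputable def kk (w : ℂ) : ℂ := exp (I * log (mob w))
noncomputable def FF (w : ℂ) : ℂ := (w - I) / (w + I) * exp (I * w) * kk w
noncomputable def PP (n : ℕ) (w : ℂ) : ℂ := (-(n * (exp (I * w / n) - 1)) ^ 2) ^ n

lemma norm_kk (w : ℂ) : ‖kk w‖ = Real.exp (-arg (mob w)) := by
  simp [kk, Complex.norm_exp, log_im]

lemma add_one_ne {w : ℂ} (hw : 0 < w.im) : w + 1 ≠ 0 := by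
  intro h
  have := congrArg im h
  simp at this
  linarith

lemma add_I_ne {w : ℂ} (hw : 0 ≤ w.im) : w + I ≠ 0 := by
  intro h
  have := congrArg im h
  simp at this
  linarith

lemma mob_im {w : ℂ} (hw : 0 < w.im) : 0 < (mob w).im := by
  have h : 0 < normSq (w + 1) := normSq_pos.2 (add_one_ne hw)
  have : (mob w).im = 2 * w.im / normSq (w + 1) := by
    simp only [mob, div_im, sub_im, one_im, add_re, one_re, sub_re, add_im]
    field_simp
    ring
  rw [this]
  positivity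

lemma mob_re {w : ℂ} (hw : 0 < w.im) (h1 : ‖w‖ < 1) : (mob w).re < 0 := by
  have h : 0 < normSq (w + 1) := normSq_pos.2 (add_one_ne hw)
  have h2 : w.re * w.re + w.im * w.im < 1 := by
    rw [← normSq_apply, ← Complex.sq_norm]
    nlinarith [norm_nonneg w]
  have : (mob w).re = (w.re * w.re + w.im * w.im - 1) / normSq (w + 1) := by
    simp only [mob, div_re, sub_im, one_im, add_re, one_re, sub_re, add_im]
    field_simp
    ring
  rw [this]
  exact div_neg_of_neg_of_pos (by linarith) h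

lemma kk_diff {w : ℂ} (hw : 0 < w.im) : DifferentiableAt ℂ kk w := by
  have h1 : DifferentiableAt ℂ mob w := by
    unfold mob
    exact DifferentiableAt.div (by fun_prop) (by fun_prop) (add_one_ne hw)
  have h2 : DifferentiableAt ℂ (fun w => log (mob w)) w :=
    h1.clog (Or.inr (mob_im hw).ne')
  unfold kk
  fun_prop

lemma FF_diff {w : ℂ} (hw : 0 < w.im) : DifferentiableAt ℂ FF w := by
  have h1 := kk_diff hw
  have h2 : DifferentiableAt ℂ (fun w : ℂ => (w - I) / (w + I)) w :=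
    DifferentiableAt.div (by fun_prop) (by fun_prop) (add_I_ne hw.le)
  unfold FF
  fun_prop

lemma norm_kk_le {w : ℂ} (hw : 0 < w.im) : ‖kk w‖ ≤ 1 := by
  rw [norm_kk, Real.exp_le_one_iff, neg_nonpos]
  exact arg_nonneg_iff.2 (mob_im hw).le

lemma norm_kk_small {w : ℂ} (hw : 0 < w.im) (h1 : ‖w‖ < 1) : ‖kk w‖ ≤ Real.exp (-1) := by
  rw [norm_kk, Real.exp_le_exp, neg_le_neg_iff]
  have h2 : 0 ≤ arg (mob w) := arg_nonneg_iff.2 (mob_im hw).le
  have h3 : ¬ |arg (mob w)| ≤ Real.pi / 2 := by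
    rw [abs_arg_le_pi_div_two_iff]
    exact not_le.2 (mob_re hw h1)
  rw [abs_of_nonneg h2] at h3
  linarith [Real.pi_gt_three]

lemma norm_exp_le {w : ℂ} (hw : 0 ≤ w.im) : ‖exp (I * w)‖ ≤ 1 := by
  rw [Complex.norm_exp, Real.exp_le_one_iff]
  simpa using hw

lemma norm_b_le {w : ℂ} (hw : 0 ≤ w.im) : ‖(w - I) / (w + I)‖ ≤ 1 := by
  rw [norm_div, div_le_one (norm_pos_iff.2 (add_I_ne hw)), ← abs_norm, ← abs_norm (w + I),
    ← sq_le_sq, Complex.sq_norm, Complex.sq_norm, normSq_apply, normSq_apply]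
  simp
  nlinarith

lemma norm_FF_le_kk {w : ℂ} (hw : 0 < w.im) : ‖FF w‖ ≤ ‖kk w‖ := by
  rw [FF, norm_mul, norm_mul]
  have h1 := norm_b_le hw.le
  have h2 := norm_exp_le hw.le
  calc _ ≤ 1 * 1 * ‖kk w‖ := by gcongr
    _ = _ := by ring

lemma norm_FF_le {w : ℂ} (hw : 0 < w.im) : ‖FF w‖ ≤ 1 := (norm_FF_le_kk hw).trans (norm_kk_le hw)

lemma FF_lim {x : ℝ} (hx : 1 < |x|) :
    Tendsto (fun y : ℝ => ‖FF (x + y * I)‖) (𝓝[>] 0) (𝓝 1) := by
  have hx1 : (x : ℝ) + 1 ≠ 0 := by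
    intro h
    have : x = -1 := by linarith
    simp [this] at hx
  have hx2 : (x : ℂ) + 1 ≠ 0 := by exact_mod_cast hx1
  have hpos : 0 < (x - 1) / (x + 1) := by
    rcases lt_abs.1 hx with h | h
    · exact div_pos (by linarith) (by linarith)
    · exact div_pos_of_neg_of_neg (by linarith) (by linarith)
  have hmob : mob x = (((x - 1) / (x + 1) : ℝ) : ℂ) := by simp [mob]
  have h1 : ContinuousAt mob x := by
    unfold mob
    exact ContinuousAt.div (by fun_prop) (by fun_prop) hx2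
  have h2 : ContinuousAt (fun w => log (mob w)) x :=
    h1.clog (by rw [hmob]; exact Or.inl (by simpa only [ofReal_re] using hpos))
  have h3 : ContinuousAt (fun w : ℂ => (w - I) / (w + I)) x :=
    ContinuousAt.div (by fun_prop) (by fun_prop) (add_I_ne (by simp))
  have h4 : ContinuousAt FF x := by
    unfold FF kk
    fun_prop
  have h5 : ‖FF x‖ = 1 := by
    have e1 : ‖((x : ℂ) - I) / (x + I)‖ = 1 := by
      rw [norm_div, div_eq_one_iff_eq (norm_ne_zero_iff.2 (add_I_ne (by simp))),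
        ← sq_eq_sq₀ (norm_nonneg _) (norm_nonneg _), Complex.sq_norm, Complex.sq_norm,
        normSq_apply, normSq_apply]
      simp
    rw [FF, norm_mul, norm_mul, e1, norm_exp_I_mul_ofReal, norm_kk, hmob,
      arg_ofReal_of_nonneg hpos.le]
    simp
  have h6 : Tendsto (fun y : ℝ => (x : ℂ) + y * I) (𝓝[>] 0) (𝓝 (x : ℂ)) := by
    have : Continuous fun y : ℝ => (x : ℂ) + y * I := by fun_prop
    have := this.tendsto 0
    simp only [ofReal_zero, zero_mul, add_zero] at this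
    exact this.mono_left nhdsWithin_le_nhds
  rw [← h5]
  exact (h4.tendsto.comp h6).norm

lemma PP_diff (n : ℕ) : Differentiable ℂ (PP n) := by
  unfold PP
  fun_prop

lemma norm_PP (n : ℕ) (w : ℂ) : ‖PP n w‖ = (n * ‖exp (I * w / n) - 1‖) ^ (2 * n) := by
  simp [PP, pow_mul]

lemma norm_PP_le (n : ℕ) {w : ℂ} (hw : 0 ≤ w.im) : ‖PP n w‖ ≤ (2 * n) ^ (2 * n) := by
  rw [norm_PP]
  have h1 : ‖exp (I * w / n)‖ ≤ 1 := by
    rw [mul_div_assoc]
    apply norm_exp_le
    rw [div_natCast_im]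
    positivity
  have h2 : ‖exp (I * w / n) - 1‖ ≤ 2 := by
    have := norm_sub_le (exp (I * w / n)) 1
    rw [norm_one] at this
    linarith
  apply pow_le_pow_left₀ (by positivity)
  nlinarith [Nat.cast_nonneg (α := ℝ) n]

lemma norm_PP_real {n : ℕ} (hn : 0 < n) (x : ℝ) : ‖PP n x‖ ≤ x ^ (2 * n) := by
  rw [norm_PP]
  have hn' : (0 : ℝ) < n := by exact_mod_cast hn
  have h1 : I * x / n = I * ((x / n : ℝ) : ℂ) := by push_cast; ring
  have h2 := Real.norm_exp_I_mul_ofReal_sub_one_le (x := x / n)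
  rw [h1]
  rw [Real.norm_eq_abs, abs_div, abs_of_pos hn', le_div_iff₀ hn'] at h2
  rw [← (even_two_mul n).pow_abs x]
  gcongr
  linarith

lemma PP_real {n : ℕ} (hn : 0 < n) (x : ℝ) : PP n x = exp (I * x) * ‖PP n x‖ := by
  have hn' : (n : ℂ) ≠ 0 := by exact_mod_cast hn.ne'
  have h1 : I * x / n = I * ((x / n : ℝ) : ℂ) := by push_cast; ring
  set u := exp (I * x / n) with hu
  have h2 : u * (starRingEnd ℂ) u = 1 := by
    rw [mul_conj, normSq_eq_norm_sq, hu, h1, norm_exp_I_mul_ofReal]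
    simp
  have h3 : ((‖u - 1‖ : ℝ) : ℂ) ^ 2 = (u - 1) * ((starRingEnd ℂ) u - 1) := by
    rw [← ofReal_pow, ← normSq_eq_norm_sq, ← mul_conj]
    simp
  have h4 : exp (I * x) = u ^ n := by
    rw [hu, ← exp_nat_mul]
    congr 1
    field_simp
  rw [norm_PP, PP, ← hu, h4, pow_mul]
  push_cast
  rw [← mul_pow]
  congr 1
  rw [mul_pow, mul_pow, h3]
  linear_combination (-(n : ℂ) ^ 2 * (u - 1)) * h2

lemma norm_PP_imag {n : ℕ} (hn : 2 ≤ n) {t : ℝ} (ht : 2 ≤ t) : 1 ≤ ‖PP n (t * I)‖ := by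
  rw [norm_PP]
  apply one_le_pow₀
  have hn' : (2 : ℝ) ≤ n := by exact_mod_cast hn
  have h1 : I * (t * I) / n = ((-(t / n) : ℝ) : ℂ) := by
    push_cast
    linear_combination (t / n : ℂ) * I_sq
  rw [h1, ← ofReal_exp, ← ofReal_one, ← ofReal_sub, norm_real, Real.norm_eq_abs]
  have h2 : t / n + 1 ≤ Real.exp (t / n) := Real.add_one_le_exp _
  have h3 : 0 < t / n := by positivity
  have h4 : Real.exp (-(t / n)) ≤ (t / n + 1)⁻¹ := by
    rw [Real.exp_neg]
    exact inv_anti₀ (by positivity) h2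
  have h5 : (t / n + 1)⁻¹ = n / (t + n) := by field_simp
  have h6 : (n : ℝ) / (t + n) ≤ 1 - 1 / n := by
    rw [div_le_iff₀ (by positivity)]
    field_simp
    nlinarith
  have h7 : 1 / (n : ℝ) ≤ |Real.exp (-(t / n)) - 1| := by
    rw [le_abs]
    right
    linarith
  rw [div_le_iff₀ (by positivity)] at h7
  linarith

end Pool.Agent.H557Z.Bmoa
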