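import Mathlib
import Pool.Agent.H557Z.BmoaCauchy
import Pool.Agent.H557Z.BmoaFun

namespace Pool.Agent.H557Z.Bmoa

open Complex MeasureTheory Filter Topology Set

noncomputable def rho (y x : ℝ) : ℝ := (x ^ 2 + (1 - y) ^ 2)⁻¹

lemma rho_pos {y : ℝ} (hy : y ≤ 1 / 2) (x : ℝ) : 0 < rho y x := by
  unfold rho
  have : 0 < 1 - y := by linarith
  positivity

lemma rho_le {y : ℝ} (hy : y ≤ 1 / 2) (x : ℝ) : rho y x ≤ 4 * (1 + x ^ 2)⁻¹ := by
  unfold rho
  have : 0 < 1 - y := by linarith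
  rw [← div_eq_mul_inv, inv_eq_one_div, div_le_div_iff₀ (by positivity) (by positivity)]
  nlinarith [sq_nonneg x]

lemma rho_cont {y : ℝ} (hy : y ≤ 1 / 2) : Continuous (rho y) := by
  unfold rho
  have : 0 < 1 - y := by linarith
  exact Continuous.inv₀ (by fun_prop) fun x => by positivity

lemma norm_le_add {w : ℂ} (hw : 0 ≤ w.im) {s : ℝ} (hs : 0 ≤ s) : ‖w‖ ≤ ‖w + s * I‖ := by
  rw [← abs_norm, ← abs_norm (w + s * I), ← sq_le_sq, Complex.sq_norm, Complex.sq_norm,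
    normSq_apply, normSq_apply]
  simp
  nlinarith

lemma integrable_of_bound {E : Type} [NormedAddCommGroup E] [SecondCountableTopology E]
    {g : ℝ → E} (hg : Continuous g) (C : ℝ)
    (h : ∀ x, ‖g x‖ ≤ C * (1 + x ^ 2)⁻¹) : Integrable g :=
  (integrable_inv_one_add_sq.const_mul C).mono' hg.aestronglyMeasurable (Eventually.of_forall h)

section main

variable {Q : ℂ → ℂ} (hQ : ∀ w : ℂ, 0 < w.im → DifferentiableAt ℂ Q w)
  (hb : ∀ w : ℂ, 0 < w.im → ‖FF w + starRingEnd ℂ (Q w)‖ ≤ 1)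

include hb in
lemma norm_Q_le {w : ℂ} (hw : 0 < w.im) : ‖Q w‖ ≤ 2 := by
  have h1 := hb w hw
  have h2 := norm_FF_le hw
  have h3 := norm_sub_le (FF w + starRingEnd ℂ (Q w)) (FF w)
  simp only [add_sub_cancel_left, RCLike.norm_conj] at h3
  linarith

include hb in
lemma sq_Q_le {w : ℂ} (hw : 0 < w.im) :
    ‖Q w‖ ^ 2 ≤ 1 - ‖FF w‖ ^ 2 - 2 * (FF w * Q w).re := by
  have h1 := hb w hw
  have h2 : ‖FF w + starRingEnd ℂ (Q w)‖ ^ 2 ≤ 1 := by
    nlinarith [norm_nonneg (FF w + starRingEnd ℂ (Q w))]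
  rw [Complex.sq_norm, normSq_add] at h2
  simp only [normSq_conj, RingHomCompTriple.comp_apply, RingHom.id_apply] at h2
  rw [Complex.sq_norm, Complex.sq_norm]
  linarith

lemma shift_im {w : ℂ} (hw : 0 ≤ w.im) {y : ℝ} (hy : 0 < y) : 0 < (w + y * I).im := by
  simp
  linarith

lemma shift_diff {f : ℂ → ℂ} (hf : ∀ w : ℂ, 0 < w.im → DifferentiableAt ℂ f w) {y : ℝ}
    (hy : 0 < y) : DifferentiableOn ℂ (fun w => f (w + y * I)) {w | 0 ≤ w.im} := by
  intro w hw
  exact ((hf _ (shift_im hw hy)).comp w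
    (f := fun w : ℂ => w + y * I) (by fun_prop)).differentiableWithinAt

include hQ hb in
lemma orth {n : ℕ} (hn : 0 < n) {y : ℝ} (hy : 0 < y) (hy' : y ≤ 1 / 2) :
    (Integrable fun x : ℝ => (FF (x + y * I) * Q (x + y * I)).re * (‖PP n x‖ * rho y x)) ∧
    ∫ x : ℝ, (FF (x + y * I) * Q (x + y * I)).re * (‖PP n x‖ * rho y x) = 0 := by
  let G : ℂ → ℂ := fun w => exp (-y) * kk (w + y * I) * Q (w + y * I) * PP n w /
    ((w + ((1 + y : ℝ) : ℂ) * I) * (w + ((1 - y : ℝ) : ℂ) * I))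
  have hne1 : ∀ w : ℂ, 0 ≤ w.im → w + ((1 + y : ℝ) : ℂ) * I ≠ 0 := by
    intro w hw h
    have := congrArg im h
    simp at this
    linarith
  have hne2 : ∀ w : ℂ, 0 ≤ w.im → w + ((1 - y : ℝ) : ℂ) * I ≠ 0 := by
    intro w hw h
    have := congrArg im h
    simp at this
    linarith
  have hG : DifferentiableOn ℂ G {w | 0 ≤ w.im} := by
    refine DifferentiableOn.div ?_ (by fun_prop) fun w hw => mul_ne_zero (hne1 w hw) (hne2 w hw)
    exact (((differentiableOn_const _).mul (shift_diff (fun w hw => kk_diff hw) hy)).mul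
      (shift_diff hQ hy)).mul (PP_diff n).differentiableOn
  have hGx : ∀ x : ℝ, G x = FF (x + y * I) * Q (x + y * I) * ((‖PP n x‖ * rho y x : ℝ) : ℂ) := by
    intro x
    have h1 := hne1 x (by simp)
    have h2 := hne2 x (by simp)
    have h3 : (x : ℂ) - ((1 - y : ℝ) : ℂ) * I ≠ 0 := by
      intro h
      have := congrArg im h
      simp at this
      linarith
    have h4 : ((rho y x : ℝ) : ℂ) =
        (((x : ℂ) - ((1 - y : ℝ) : ℂ) * I) * ((x : ℂ) + ((1 - y : ℝ) : ℂ) * I))⁻¹ := by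
      unfold rho
      rw [ofReal_inv]
      congr 1
      push_cast
      linear_combination ((1 - y : ℂ)) ^ 2 * I_sq
    have h5 : exp (I * (x + y * I)) = exp (-y) * exp (I * x) := by
      rw [← Complex.exp_add]
      congr 1
      linear_combination (y : ℂ) * I_sq
    have h6 : (x : ℂ) + y * I - I = (x : ℂ) - ((1 - y : ℝ) : ℂ) * I := by push_cast; ring
    have h7 : (x : ℂ) + y * I + I = (x : ℂ) + ((1 + y : ℝ) : ℂ) * I := by push_cast; ring
    simp only [G, FF]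
    rw [ofReal_mul, h4, h5, h6, h7]
    conv_lhs => rw [PP_real hn x]
    generalize (x : ℂ) - ((1 - y : ℝ) : ℂ) * I = A at h3
    generalize (x : ℂ) + ((1 - y : ℝ) : ℂ) * I = B at h2
    generalize (x : ℂ) + ((1 + y : ℝ) : ℂ) * I = D at h1
    field_simp
  have hint : Integrable fun x : ℝ => G x := by
    refine integrable_of_bound (cont_line hG) (2 * (2 * n) ^ (2 * n) * 4) fun x => ?_
    have hw := shift_im (w := x) (by simp) hy
    rw [hGx, norm_mul, norm_mul, norm_real, Real.norm_eq_abs,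
      abs_of_nonneg (mul_nonneg (norm_nonneg _) (rho_pos hy' x).le)]
    have h1 := norm_FF_le hw
    have h2 := norm_Q_le hb hw
    have h3 := norm_PP_le n (w := x) (by simp)
    have h4 := rho_le hy' x
    have h5 := (rho_pos hy' x).le
    calc _ ≤ 1 * 2 * ((2 * n : ℝ) ^ (2 * n) * (4 * (1 + x ^ 2)⁻¹)) := by gcongr
      _ = _ := by ring
  have hz := integral_zero G hG hint 1 (2 * (2 * n) ^ (2 * n)) (by
    intro w hw hRw
    have hw' := shift_im hw hy
    have h1 := norm_kk_le hw'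
    have h2 := norm_Q_le hb hw'
    have h3 := norm_PP_le n hw
    have h4 := norm_le_add hw (s := 1 + y) (by linarith)
    have h5 := norm_le_add hw (s := 1 - y) (by linarith)
    have h6 : ‖exp (-y : ℂ)‖ ≤ 1 := by
      rw [Complex.norm_exp, Real.exp_le_one_iff]
      simpa using hy.le
    simp only [G, norm_div, norm_mul]
    calc _ ≤ 1 * 1 * 2 * (2 * n) ^ (2 * n) / (‖w‖ * ‖w‖) := by gcongr
      _ = _ := by ring)
  have hre : ∀ x : ℝ, (FF (x + y * I) * Q (x + y * I)).re * (‖PP n x‖ * rho y x) = (G x).re := by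
    intro x
    rw [hGx, re_mul_ofReal]
  simp_rw [hre]
  refine ⟨hint.re, ?_⟩
  have := integral_re hint
  simp only [RCLike.re_to_complex] at this
  rw [this, hz, zero_re]

/-- the defect integrand -/
noncomputable def DD (n : ℕ) (y x : ℝ) : ℝ := (1 - ‖FF (x + y * I)‖ ^ 2) * (‖PP n x‖ * rho y x)

lemma DD_nonneg (n : ℕ) {y : ℝ} (hy : 0 < y) (hy' : y ≤ 1 / 2) (x : ℝ) : 0 ≤ DD n y x := by
  have h1 := norm_FF_le (shift_im (w := x) (by simp) hy)
  have h2 := (rho_pos hy' x).le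
  unfold DD
  have : 0 ≤ 1 - ‖FF (x + y * I)‖ ^ 2 := by nlinarith [norm_nonneg (FF (x + y * I))]
  positivity

lemma DD_le (n : ℕ) {y : ℝ} (hy' : y ≤ 1 / 2) (x : ℝ) :
    DD n y x ≤ ‖PP n x‖ * (4 * (1 + x ^ 2)⁻¹) := by
  have h2 := (rho_pos hy' x).le
  have h3 := rho_le hy' x
  unfold DD
  have : 1 - ‖FF (x + y * I)‖ ^ 2 ≤ 1 := by nlinarith [norm_nonneg (FF (x + y * I))]
  calc _ ≤ 1 * (‖PP n x‖ * (4 * (1 + x ^ 2)⁻¹)) := by gcongr
    _ = _ := by ring

lemma DD_cont (n : ℕ) {y : ℝ} (hy : 0 < y) (hy' : y ≤ 1 / 2) : Continuous (DD n y) := by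
  have h1 := cont_line (shift_diff (fun w hw => FF_diff hw) hy)
  have h2 := cont_line (PP_diff n).differentiableOn
  have h3 := rho_cont hy'
  unfold DD
  fun_prop

lemma DD_bound (n : ℕ) {y : ℝ} (hy : 0 < y) (hy' : y ≤ 1 / 2) (x : ℝ) :
    ‖DD n y x‖ ≤ (2 * n) ^ (2 * n) * 4 * (1 + x ^ 2)⁻¹ := by
  rw [Real.norm_eq_abs, abs_of_nonneg (DD_nonneg n hy hy' x)]
  refine (DD_le n hy' x).trans ?_
  have h3 := norm_PP_le n (w := x) (by simp)
  calc _ ≤ (2 * n : ℝ) ^ (2 * n) * (4 * (1 + x ^ 2)⁻¹) := by gcongr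
    _ = _ := by ring

include hQ hb in
lemma key {n : ℕ} (hn : 2 ≤ n) {t : ℝ} (ht : 2 ≤ t) {y : ℝ} (hy : 0 < y) (hy' : y ≤ 1 / 2) :
    ‖Q (t * I + y * I)‖ ^ 2 * ∫ x : ℝ, (x ^ 2 + t ^ 2)⁻¹ ≤ ∫ x : ℝ, DD n y x := by
  let H : ℂ → ℂ := fun w => Q (w + y * I) ^ 2 * PP n w
  have hH : DifferentiableOn ℂ H {w | 0 ≤ w.im} :=
    ((shift_diff hQ hy).pow 2).mul (PP_diff n).differentiableOn
  have hHb : ∀ w : ℂ, 0 ≤ w.im → ‖H w‖ ≤ 2 ^ 2 * (2 * n) ^ (2 * n) := by
    intro w hw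
    have h2 := norm_Q_le hb (shift_im hw hy)
    have h3 := norm_PP_le n hw
    simp only [H, norm_mul, norm_pow]
    gcongr
  have h1 := point_bound H hH _ hHb (t := t) (by linarith)
  have h2 : ‖Q (t * I + y * I)‖ ^ 2 ≤ ‖H (t * I)‖ := by
    simp only [H, norm_mul, norm_pow]
    exact le_mul_of_one_le_right (by positivity) (norm_PP_imag hn ht)
  have h3 := integral_inv_sq_add_pos (t := t) (by linarith)
  obtain ⟨hi, hz⟩ := orth hQ hb (n := n) (by omega) hy hy'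
  have hiD : Integrable (DD n y) := integrable_of_bound (DD_cont n hy hy') _ (DD_bound n hy hy')
  refine le_trans (by gcongr) (h1.trans ?_)
  have h4 : ∫ x : ℝ, DD n y x = ∫ x : ℝ, (DD n y x -
      2 * ((FF (x + y * I) * Q (x + y * I)).re * (‖PP n x‖ * rho y x))) := by
    rw [integral_sub hiD (hi.const_mul 2), integral_const_mul, hz]
    ring
  rw [h4]
  refine integral_mono_of_nonneg (Eventually.of_forall fun x => by positivity)
    (hiD.sub (hi.const_mul 2)) (Eventually.of_forall fun x => ?_)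
  have h5 := sq_Q_le hb (shift_im (w := x) (by simp) hy)
  have h6 : (x ^ 2 + t ^ 2)⁻¹ ≤ rho y x := by
    unfold rho
    have : 0 < 1 - y := by linarith
    apply inv_anti₀ (by positivity)
    nlinarith
  have h7 := (rho_pos hy' x).le
  simp only [H, norm_mul, norm_pow, DD]
  calc ‖Q (x + y * I)‖ ^ 2 * ‖PP n x‖ * (x ^ 2 + t ^ 2)⁻¹
      ≤ ‖Q (x + y * I)‖ ^ 2 * ‖PP n x‖ * rho y x := by gcongr
    _ = ‖Q (x + y * I)‖ ^ 2 * (‖PP n x‖ * rho y x) := by ring
    _ ≤ (1 - ‖FF (x + y * I)‖ ^ 2 - 2 * (FF (x + y * I) * Q (x + y * I)).re) *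
        (‖PP n x‖ * rho y x) := by gcongr
    _ = _ := by ring

lemma small_int (n : ℕ) :
    ∫ x : ℝ, (Icc (-1 : ℝ) 1).indicator (fun x => 4 * x ^ (2 * n)) x = 8 / (2 * n + 1) := by
  rw [integral_indicator measurableSet_Icc, integral_Icc_eq_integral_Ioc,
    ← intervalIntegral.integral_of_le (by norm_num), intervalIntegral.integral_const_mul,
    integral_pow, pow_succ (-1 : ℝ), (even_two_mul n).neg_one_pow]
  push_cast
  ring

lemma defect_lim (n : ℕ) :
    Tendsto (fun y : ℝ => ∫ x : ℝ, (Icc (-1 : ℝ) 1)ᶜ.indicator (DD n y) x) (𝓝[>] 0) (𝓝 0) := by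
  have hev : ∀ᶠ y : ℝ in 𝓝[>] 0, 0 < y ∧ y ≤ 1 / 2 :=
    Ioc_mem_nhdsGT (show (0 : ℝ) < 1 / 2 by norm_num)
  have := tendsto_integral_filter_of_dominated_convergence (μ := volume) (l := 𝓝[>] (0 : ℝ))
    (F := fun y x => (Icc (-1 : ℝ) 1)ᶜ.indicator (DD n y) x) (f := fun _ => 0)
    (fun x => (2 * n) ^ (2 * n) * 4 * (1 + x ^ 2)⁻¹)
    (hev.mono fun y hy => (DD_cont n hy.1 hy.2).aestronglyMeasurable.indicator
      measurableSet_Icc.compl)
    (hev.mono fun y hy => Eventually.of_forall fun x =>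
      (norm_indicator_le_norm_self _ _).trans (DD_bound n hy.1 hy.2 x))
    (integrable_inv_one_add_sq.const_mul _)
    (Eventually.of_forall fun x => by
      by_cases hx : x ∈ (Icc (-1 : ℝ) 1)ᶜ
      · simp only [indicator_of_mem hx]
        have h1 : 1 < |x| := by
          by_contra h
          exact hx (abs_le.1 (not_lt.1 h))
        have h2 := FF_lim h1
        have h3 : Tendsto (fun y : ℝ => (1 - ‖FF (x + y * I)‖ ^ 2) * (‖PP n x‖ *
            (4 * (1 + x ^ 2)⁻¹))) (𝓝[>] 0) (𝓝 0) := by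
          have := ((h2.pow 2).const_sub 1).mul_const (‖PP n x‖ * (4 * (1 + x ^ 2)⁻¹))
          simpa using this
        refine squeeze_zero' (hev.mono fun y hy => DD_nonneg n hy.1 hy.2 x)
          (hev.mono fun y hy => ?_) h3
        have h4 := norm_FF_le (shift_im (w := x) (by simp) hy.1)
        have h5 : 0 ≤ 1 - ‖FF (x + y * I)‖ ^ 2 := by nlinarith [norm_nonneg (FF (x + y * I))]
        have h6 := rho_le hy.2 x
        unfold DD
        gcongr
      · simp only [indicator_of_notMem hx]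
        exact tendsto_const_nhds)
  simpa using this

lemma defect_split {n : ℕ} (hn : 0 < n) {y : ℝ} (hy : 0 < y) (hy' : y ≤ 1 / 2) :
    ∫ x : ℝ, DD n y x ≤ (∫ x : ℝ, (Icc (-1 : ℝ) 1)ᶜ.indicator (DD n y) x) + 8 / (2 * n + 1) := by
  have hiD : Integrable (DD n y) := integrable_of_bound (DD_cont n hy hy') _ (DD_bound n hy hy')
  have hi1 := hiD.indicator (measurableSet_Icc (a := (-1 : ℝ)) (b := 1)).compl
  have hi2 : Integrable ((Icc (-1 : ℝ) 1).indicator fun x : ℝ => 4 * x ^ (2 * n)) :=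
    (integrable_indicator_iff measurableSet_Icc).2
      (Continuous.integrableOn_Icc (by fun_prop))
  rw [← small_int n, ← integral_add hi1 hi2]
  refine integral_mono hiD (hi1.add hi2) fun x => ?_
  by_cases hx : x ∈ Icc (-1 : ℝ) 1
  · simp only [indicator_of_mem hx, indicator_of_notMem (notMem_compl_iff.2 hx), zero_add]
    refine (DD_le n hy' x).trans ?_
    have h1 := norm_PP_real hn x
    have h2 : (1 + x ^ 2)⁻¹ ≤ 1 := inv_le_one_of_one_le₀ (by nlinarith)
    have h3 : 0 ≤ x ^ (2 * n) := (even_two_mul n).pow_nonneg x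
    calc _ ≤ x ^ (2 * n) * (4 * 1) := by gcongr
      _ = _ := by ring
  · simp only [indicator_of_notMem hx, indicator_of_mem (mem_compl hx), add_zero, le_refl]

include hQ hb in
theorem Q_zero {t : ℝ} (ht : 2 ≤ t) : Q (t * I) = 0 := by
  have hI := integral_inv_sq_add_pos (t := t) (by linarith)
  set J := ∫ x : ℝ, (x ^ 2 + t ^ 2)⁻¹
  have hev : ∀ᶠ y : ℝ in 𝓝[>] 0, 0 < y ∧ y ≤ 1 / 2 :=
    Ioc_mem_nhdsGT (show (0 : ℝ) < 1 / 2 by norm_num)
  have h1 : ∀ n : ℕ, 2 ≤ n → ‖Q (t * I)‖ ^ 2 * J ≤ 8 / (2 * n + 1) := by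
    intro n hn
    have h6 : Tendsto (fun y : ℝ => (t : ℂ) * I + y * I) (𝓝[>] 0) (𝓝 (t * I : ℂ)) := by
      have : Continuous fun y : ℝ => (t : ℂ) * I + y * I := by fun_prop
      have := this.tendsto 0
      simp only [ofReal_zero, zero_mul, add_zero] at this
      exact this.mono_left nhdsWithin_le_nhds
    have h7 := (hQ (t * I) (by simp; linarith)).continuousAt.tendsto.comp h6
    have h8 := (h7.norm.pow 2).mul_const J
    have h9 := (defect_lim n).add_const (8 / (2 * n + 1) : ℝ)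
    rw [zero_add] at h9
    exact le_of_tendsto_of_tendsto h8 h9 (hev.mono fun y hy =>
      (key hQ hb hn ht hy.1 hy.2).trans (defect_split (by omega) hy.1 hy.2))
  have h2 : Tendsto (fun n : ℕ => (8 : ℝ) / (2 * n + 1)) atTop (𝓝 0) := by
    apply tendsto_const_nhds.div_atTop
    exact tendsto_atTop_add_const_right _ _
      (tendsto_natCast_atTop_atTop.const_mul_atTop (by norm_num))
  have h3 : ‖Q (t * I)‖ ^ 2 * J ≤ 0 := ge_of_tendsto h2 (eventually_atTop.2 ⟨2, h1⟩)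
  have h4 : ‖Q (t * I)‖ ^ 2 ≤ 0 := by
    by_contra h
    have := mul_pos (not_le.1 h) hI
    linarith
  have h5 : ‖Q (t * I)‖ = 0 := by nlinarith [norm_nonneg (Q (t * I))]
  exact norm_eq_zero.1 h5

end main

end Pool.Agent.H557Z.Bmoa
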