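import Mathlib
import Pool.Agent.H557Z.BmoaMain

namespace Pool.Agent.H557Z.Bmoa

open Complex MeasureTheory Filter Topology Set

noncomputable def cay (z : ℂ) : ℂ := I * (1 + z) / (1 - z)
noncomputable def icay (w : ℂ) : ℂ := (w - I) / (w + I)
noncomputable def ff (z : ℂ) : ℂ := FF (cay z)

lemma one_sub_ne {z : ℂ} (hz : ‖z‖ < 1) : 1 - z ≠ 0 := by
  intro h
  have : z = 1 := (sub_eq_zero.1 h).symm
  simp [this] at hz

lemma cay_im {z : ℂ} (hz : ‖z‖ < 1) : 0 < (cay z).im := by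
  have h : 0 < normSq (1 - z) := normSq_pos.2 (one_sub_ne hz)
  have h2 : z.re * z.re + z.im * z.im < 1 := by
    rw [← normSq_apply, ← Complex.sq_norm]
    nlinarith [norm_nonneg z]
  have : (cay z).im = (1 - (z.re * z.re + z.im * z.im)) / normSq (1 - z) := by
    simp only [cay, div_im, mul_im, mul_re, I_re, I_im, add_re, add_im, one_re, one_im, sub_re,
      sub_im]
    field_simp
    ring
  rw [this]
  exact div_pos (by linarith) h

lemma cay_norm {z : ℂ} (hz : ‖z‖ < 1) (hre : z.re < 0) : ‖cay z‖ < 1 := by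
  rw [cay, norm_div, div_lt_one (norm_pos_iff.2 (one_sub_ne hz)), norm_mul, norm_I, one_mul,
    ← abs_norm, ← abs_norm (1 - z), ← sq_lt_sq, Complex.sq_norm, Complex.sq_norm, normSq_apply,
    normSq_apply]
  simp
  nlinarith

lemma icay_norm {w : ℂ} (hw : 0 < w.im) : ‖icay w‖ < 1 := by
  rw [icay, norm_div, div_lt_one (norm_pos_iff.2 (add_I_ne hw.le)), ← abs_norm, ← abs_norm (w + I),
    ← sq_lt_sq, Complex.sq_norm, Complex.sq_norm, normSq_apply, normSq_apply]
  simp
  nlinarith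

lemma cay_icay {w : ℂ} (hw : 0 < w.im) : cay (icay w) = w := by
  have h := add_I_ne hw.le
  have h1 : 1 + icay w = 2 * w / (w + I) := by unfold icay; field_simp; ring
  have h2 : 1 - icay w = 2 * I / (w + I) := by unfold icay; field_simp; ring
  rw [cay, h1, h2]
  field_simp

lemma ff_diff : DifferentiableOn ℂ ff (Metric.ball 0 1) := by
  intro z hz
  rw [mem_ball_zero_iff] at hz
  have h1 : DifferentiableAt ℂ cay z := by
    unfold cay
    exact DifferentiableAt.div (by fun_prop) (by fun_prop) (one_sub_ne hz)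
  exact ((FF_diff (cay_im hz)).comp z h1).differentiableWithinAt

lemma ff_le {z : ℂ} (hz : z ∈ Metric.ball (0 : ℂ) 1) : ‖ff z‖ ≤ 1 :=
  norm_FF_le (cay_im (mem_ball_zero_iff.1 hz))

theorem q_zero {q : ℂ → ℂ} (hq : DifferentiableOn ℂ q (Metric.ball 0 1))
    (hb : ∀ z ∈ Metric.ball (0 : ℂ) 1, ‖ff z + starRingEnd ℂ (q z)‖ ≤ 1) :
    EqOn q 0 (Metric.ball 0 1) := by
  have hQ : ∀ w : ℂ, 0 < w.im → DifferentiableAt ℂ (fun w => q (icay w)) w := by
    intro w hw
    have h1 : DifferentiableAt ℂ icay w := by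
      unfold icay
      exact DifferentiableAt.div (by fun_prop) (by fun_prop) (add_I_ne hw.le)
    exact (hq.differentiableAt (Metric.isOpen_ball.mem_nhds
      (mem_ball_zero_iff.2 (icay_norm hw)))).comp w h1
  have hQb : ∀ w : ℂ, 0 < w.im → ‖FF w + starRingEnd ℂ (q (icay w))‖ ≤ 1 := by
    intro w hw
    have := hb _ (mem_ball_zero_iff.2 (icay_norm hw))
    rwa [ff, cay_icay hw] at this
  have hz : ∀ s : ℝ, 1 / 3 ≤ s → s < 1 → q s = 0 := by
    intro s h1 h2
    have h3 : 0 < 1 - s := by linarith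
    have h4 := Q_zero hQ hQb (t := (1 + s) / (1 - s)) (by rw [le_div_iff₀ h3]; linarith)
    have h5 : icay (((1 + s) / (1 - s) : ℝ) * I) = s := by
      have h6 : (1 : ℂ) - s ≠ 0 := by exact_mod_cast h3.ne'
      have h7 : (((1 + s) / (1 - s) : ℝ) : ℂ) * I - I = 2 * s * I / (1 - s) := by
        push_cast; field_simp; ring
      have h8 : (((1 + s) / (1 - s) : ℝ) : ℂ) * I + I = 2 * I / (1 - s) := by
        push_cast; field_simp; ring
      rw [icay, h7, h8]
      field_simp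
    simpa only [h5] using h4
  have han := hq.analyticOnNhd Metric.isOpen_ball
  refine han.eqOn_zero_of_preconnected_of_frequently_eq_zero (convex_ball _ _).isPreconnected
    (z₀ := ((1 / 2 : ℝ) : ℂ)) (by rw [mem_ball_zero_iff, norm_real]; norm_num) ?_
  have ht : Tendsto (fun s : ℝ => (s : ℂ)) (𝓝[≠] (1 / 2)) (𝓝[≠] ((1 / 2 : ℝ) : ℂ)) := by
    refine tendsto_nhdsWithin_of_tendsto_nhds_of_eventually_within _
      (continuous_ofReal.continuousAt.tendsto.mono_left nhdsWithin_le_nhds) ?_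
    filter_upwards [self_mem_nhdsWithin] with s hs
    exact fun h => hs (ofReal_injective h)
  refine ht.frequently (Eventually.frequently ?_)
  have : Ioo (1 / 3 : ℝ) 1 ∈ 𝓝[≠] (1 / 2 : ℝ) :=
    mem_nhdsWithin_of_mem_nhds (Ioo_mem_nhds (by norm_num) (by norm_num))
  filter_upwards [this] with s hs
  exact hz s hs.1.le hs.2

theorem one_le_of_bound {M : ℝ} (h : ∀ z ∈ Metric.ball (0 : ℂ) 1, ‖ff z‖ ≤ M) : 1 ≤ M := by
  refine le_of_tendsto (FF_lim (x := 2) (by norm_num)) ?_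
  filter_upwards [self_mem_nhdsWithin] with y hy
  have hw : 0 < (((2 : ℝ) : ℂ) + y * I).im := by simpa using hy
  have := h _ (mem_ball_zero_iff.2 (icay_norm hw))
  rwa [ff, cay_icay hw] at this

theorem small_on_arc {θ r : ℝ} (h1 : Real.cos θ < 0) (hr : 0 < r) (hr' : r < 1) :
    (r : ℂ) * exp (θ * I) ∈ Metric.ball (0 : ℂ) 1 ∧
      ‖ff ((r : ℂ) * exp (θ * I))‖ ≤ Real.exp (-1) := by
  have hn : ‖(r : ℂ) * exp (θ * I)‖ < 1 := by
    rw [norm_mul, norm_exp_ofReal_mul_I, norm_real, Real.norm_eq_abs, abs_of_pos hr]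
    linarith
  refine ⟨mem_ball_zero_iff.2 hn, (norm_FF_le_kk (cay_im hn)).trans
    (norm_kk_small (cay_im hn) (cay_norm hn ?_))⟩
  rw [re_ofReal_mul, exp_ofReal_mul_I_re]
  exact mul_neg_of_pos_of_neg hr h1

end Pool.Agent.H557Z.Bmoa
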