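import Mathlib

/-!
Strong distributivity and strategic closure of posets with a largest element.
Sequences of length `α` are given as functions on all ordinals, of which only the values below
`α` matter.
-/

universe u

namespace Pool.Agent.H557Z.Game

open Cardinal Set

/-- `D` is open dense: downward closed, and every condition has an extension in `D`. -/
def OpenDense {P : Type u} [PartialOrder P] (D : Set P) : Prop :=
  IsLowerSet D ∧ ∀ p : P, ∃ q ∈ D, q ≤ p

/-- `P` is strongly `<κ`-distributive: for every sequence `(D α)_{α<κ}` of open dense sets and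
every `p` there is a descending sequence `(s α)_{α<κ}` with `s 0 ≤ p` and `s α ∈ D α`. -/
def StronglyDistributive (P : Type u) [PartialOrder P] (κ : Cardinal.{u}) : Prop :=
  ∀ D : Ordinal.{u} → Set P, (∀ α < κ.ord, OpenDense (D α)) → ∀ p : P,
    ∃ s : Ordinal.{u} → P, (∀ β < κ.ord, ∀ α < β, s β ≤ s α) ∧ s 0 ≤ p ∧
      ∀ α < κ.ord, s α ∈ D α

/-- COM moves at even ordinals and at limit ordinals. -/
def ComTurn (α : Ordinal.{u}) : Prop := (∃ β : Ordinal.{u}, α = 2 * β) ∨ Order.IsSuccLimit α

/-- A strategy for COM: a move for each stage `α` and each sequence of earlier moves. -/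
def Strategy (P : Type u) : Type (u + 1) := (α : Ordinal.{u}) → (Iio α → P) → P

/-- The moves `(s β)_{β<α}` are legal (each is a lower bound of the earlier ones) and COM's moves
among them are those given by `σ`. -/
def Follows {P : Type u} [PartialOrder P] (σ : Strategy P) (α : Ordinal.{u})
    (s : Ordinal.{u} → P) : Prop :=
  (∀ β < α, ∀ γ < β, s β ≤ s γ) ∧ ∀ β < α, ComTurn β → s β = σ β (fun γ => s γ)

/-- `σ` is a winning strategy for COM in the completeness game `G(P, δ)`: it opens with the
largest element, and at every turn `α < δ` of COM reached by legal play following `σ`, the move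
given by `σ` is legal. -/
def ComWins {P : Type u} [PartialOrder P] [OrderTop P] (δ : Ordinal.{u}) (σ : Strategy P) : Prop :=
  (∀ h, σ 0 h = ⊤) ∧ ∀ α < δ, ComTurn α → ∀ s : Ordinal.{u} → P, Follows σ α s →
    ∀ β < α, σ α (fun γ => s γ) ≤ s β

/-- `P` is `κ`-strategically closed: COM has a winning strategy in `G(P, κ)`. -/
def StrategicallyClosed (P : Type u) [PartialOrder P] [OrderTop P] (κ : Cardinal.{u}) : Prop :=
  ∃ σ : Strategy P, ComWins κ.ord σ

end Pool.Agent.H557Z.Game
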