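import Mathlib

/-!
A stationary set of points of countable cofinality that does not reflect at stationarily many
points of large cofinality.
-/

universe u

namespace Pool.Agent.H557Z.Game

open Cardinal Set

theorem bdd_toType {c : Cardinal.{u}} (hc : c.IsRegular) (s : Set c.ord.ToType) (hs : #s < c) :
    ∃ b, ∀ y ∈ s, y < b := by
  by_contra h
  push Not at h
  have : IsCofinal s := fun b => by
    obtain ⟨y, hy, hb⟩ := h b
    exact ⟨y, hy, hb⟩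
  have h2 := Order.cof_le this
  rw [Ordinal.cof_toType, hc.cof_ord] at h2
  exact h2.not_gt hs

/-- The standing assumptions on the well order `L`. -/
structure Long (L : Type u) [LinearOrder L] (μ : Cardinal.{u}) : Prop where
  inf : ℵ₀ ≤ μ
  bdd : ∀ s : Set L, #s ≤ μ → ∃ b, ∀ y ∈ s, y < b
  small : ∀ a : L, #(Iio a) ≤ μ

variable {L : Type u} [LinearOrder L] {μ : Cardinal.{u}}

theorem Long.bddf (H : Long L μ) {ι : Type u} (hι : #ι ≤ μ) (f : ι → L) : ∃ b, ∀ i, f i < b := by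
  obtain ⟨b, hb⟩ := H.bdd (range f) (mk_range_le.trans hι)
  exact ⟨b, fun i => hb _ ⟨i, rfl⟩⟩

theorem Long.smallc (H : Long L μ) (a : L) : #(Iic a) ≤ μ := by
  obtain ⟨b, hb⟩ := H.bdd {a} (by simpa using one_le_aleph0.trans H.inf)
  exact (mk_le_mk_of_subset fun y hy => lt_of_le_of_lt hy (hb a rfl)).trans (H.small b)

theorem Long.lt_mk (H : Long L μ) : μ < #L := by
  by_contra h
  obtain ⟨b, hb⟩ := H.bddf (not_lt.1 h) id
  exact lt_irrefl _ (hb b)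

theorem Long.jump (H : Long L μ) (F : L → L) :
    ∃ G : L → L, ∀ y, y < G y ∧ ∀ z ≤ y, F z < G y := by
  have : ∀ y : L, ∃ b, y < b ∧ ∀ z ≤ y, F z < b := by
    intro y
    obtain ⟨b, hb⟩ := H.bddf (H.smallc y) (fun z : Iic y => max y (F z))
    exact ⟨b, (le_max_left _ _).trans_lt (hb ⟨y, le_refl y⟩),
      fun z hz => (le_max_right _ _).trans_lt (hb ⟨z, hz⟩)⟩
  choose G hG using this
  exact ⟨G, hG⟩

/-- `δ` is closed under `F` -/
def Closed (F : L → L) (δ : L) : Prop := ∀ y < δ, F y < δ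

/-- stationary -/
def Stat (B : Set L) : Prop := ∀ F : L → L, ∃ δ ∈ B, Closed F δ

/-- limit of an `ω`-sequence -/
def CofOmega (δ : L) : Prop := ∃ d : ℕ → L, (∀ n, d n < δ) ∧ ∀ y < δ, ∃ n, y < d n

theorem exists_sup [WellFoundedLT L] {ι : Type*} (f : ι → L) (h : ∃ b, ∀ i, f i < b) :
    ∃ δ, (∀ i, f i < δ) ∧ ∀ y < δ, ∃ i, y ≤ f i := by
  obtain ⟨δ, h1, h2⟩ := WellFounded.has_min (wellFounded_lt (α := L)) {b | ∀ i, f i < b} h
  refine ⟨δ, h1, fun y hy => ?_⟩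
  by_contra hc
  push Not at hc
  exact h2 y hc hy

theorem Long.stat_cofOmega [WellFoundedLT L] (H : Long L μ) : Stat {δ : L | CofOmega δ} := by
  intro F
  obtain ⟨G, hG⟩ := H.jump F
  obtain ⟨a, -⟩ := H.bdd ∅ (by simp)
  obtain ⟨b, hb⟩ := H.bdd (range fun n : ℕ => G^[n] a)
    ((countable_range _).le_aleph0.trans H.inf)
  obtain ⟨δ, h1, h2⟩ := exists_sup (fun n : ℕ => G^[n] a) ⟨b, fun n => hb _ ⟨n, rfl⟩⟩
  refine ⟨δ, ⟨_, h1, fun y hy => ?_⟩, fun y hy => ?_⟩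
  · obtain ⟨n, hn⟩ := h2 y hy
    exact ⟨n + 1, by rw [Function.iterate_succ_apply']; exact hn.trans_lt (hG _).1⟩
  · obtain ⟨n, hn⟩ := h2 y hy
    refine lt_trans ((hG _).2 y hn) ?_
    have := h1 (n + 1)
    rwa [Function.iterate_succ_apply'] at this

theorem Long.stat_union (H : Long L μ) {X : Type u} (hX : #X ≤ μ) (B : X → Set L)
    (h : Stat (⋃ ξ, B ξ)) : ∃ ξ, Stat (B ξ) := by
  by_contra hc
  simp only [Stat, not_exists, not_forall, not_and] at hc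
  choose F hF using hc
  choose G hG using fun y => H.bddf hX (fun ξ => F ξ y)
  obtain ⟨δ, hδ, hcl⟩ := h G
  obtain ⟨ξ, hξ⟩ := mem_iUnion.1 hδ
  exact hF ξ δ hξ fun y hy => (hG y ξ).trans (hcl y hy)

/-- many pairwise disjoint stationary sets of points of countable cofinality -/
theorem Long.ulam [WellFoundedLT L] (H : Long L μ) {θ : Cardinal.{u}} (hθ : θ < μ) :
    ∃ (I : Type u) (A : I → Set L), θ < #I ∧ #I ≤ μ ∧ (∀ i, Stat (A i)) ∧
      (∀ i, ∀ δ ∈ A i, CofOmega δ) ∧ ∀ i j δ, δ ∈ A i → δ ∈ A j → i = j := by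
  have he : ∀ δ : L, Nonempty (Iio δ ↪ μ.out) := fun δ => by
    rw [← Cardinal.le_def, mk_out]; exact H.small δ
  let h : ∀ δ : L, Iio δ ↪ μ.out := fun δ => (he δ).some
  let A : μ.out → L → Set L := fun ξ α => {δ | CofOmega δ ∧ ∃ hα : α < δ, h δ ⟨α, hα⟩ = ξ}
  have h1 : ∀ α, ∃ ξ, Stat (A ξ α) := by
    intro α
    apply H.stat_union (mk_out μ).le (fun ξ => A ξ α)
    intro F
    obtain ⟨δ, hδ, hcl⟩ := H.stat_cofOmega (fun y => max α (F y))
    obtain ⟨d, hd, -⟩ := id hδ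
    have hα : α < δ := (le_max_left _ _).trans_lt (hcl _ (hd 0))
    exact ⟨δ, mem_iUnion.2 ⟨_, hδ, hα, rfl⟩, fun y hy => (le_max_right _ _).trans_lt (hcl y hy)⟩
  choose ξ hξ using h1
  obtain ⟨x, hx⟩ := infinite_pigeonhole_card_lt ξ (by rw [mk_out]; exact H.lt_mk)
    (H.inf.trans H.lt_mk.le)
  rw [mk_out] at hx
  obtain ⟨I, hI, hc⟩ := le_mk_iff_exists_subset.1 hx.le
  refine ⟨I, fun i => A x i, hc ▸ hθ, hc.le, fun i => ?_, fun i δ hδ => hδ.1, ?_⟩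
  · have : ξ i = x := hI i.2
    rw [← this]; exact hξ i
  · rintro i j δ ⟨-, hi, hi'⟩ ⟨-, hj, hj'⟩
    have := (h δ).injective (hi'.trans hj'.symm)
    exact Subtype.ext (Subtype.mk.inj this)

/-- closed points of cofinality `θ` -/
theorem Long.long_point [WellFoundedLT L] (H : Long L μ) {θ : Cardinal.{u}} (hr : θ.IsRegular)
    (hθ : θ ≤ μ) (F : L → L) :
    ∃ (δ : L) (C : Set L), Closed F δ ∧
      (∀ s : Set L, #s < θ → (∀ y ∈ s, y < δ) → ∃ γ < δ, ∀ y ∈ s, y ≤ γ) ∧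
      #C ≤ θ ∧ ∀ y < δ, ∃ c ∈ C, y < c ∧ c < δ := by
  obtain ⟨G, hG⟩ := H.jump F
  have hb : ∀ (i : θ.ord.ToType) (t : ∀ j, j < i → L), ∃ b, ∀ j (hj : j < i), G (t j hj) < b := by
    intro i t
    obtain ⟨b, hb⟩ := H.bddf ((mk_Iio_toType_ord_lt i).le.trans hθ)
      (fun j : Iio i => G (t j j.2))
    exact ⟨b, fun j hj => hb ⟨j, hj⟩⟩
  choose B hB using hb
  let c : θ.ord.ToType → L := WellFoundedLT.fix B
  have hc : ∀ i j, j < i → G (c j) < c i := by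
    intro i j hj
    have : c i = B i (fun j _ => c j) := WellFoundedLT.fix_eq B i
    rw [this]
    exact hB i (fun j _ => c j) j hj
  have hmono : ∀ i j, j ≤ i → c j ≤ c i := by
    intro i j hj
    rcases hj.eq_or_lt with rfl | hj
    · exact le_rfl
    · exact ((hG _).1.trans (hc i j hj)).le
  have hnext : ∀ i : θ.ord.ToType, ∃ k, i < k := by
    intro i
    obtain ⟨k, hk⟩ := bdd_toType hr {i} (by simpa using one_lt_aleph0.trans_le hr.aleph0_le)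
    exact ⟨k, hk i rfl⟩
  obtain ⟨δ, h1, h2⟩ := exists_sup c (H.bddf ((mk_ord_toType θ).le.trans hθ) c)
  refine ⟨δ, range c, fun y hy => ?_, fun s hs hsδ => ?_,
    mk_range_le.trans (mk_ord_toType θ).le, fun y hy => ?_⟩
  · obtain ⟨i, hi⟩ := h2 y hy
    obtain ⟨k, hk⟩ := hnext i
    exact (((hG _).2 y hi).trans (hc k i hk)).trans (h1 k)
  · choose f hf using fun y : s => h2 y (hsδ y y.2)
    obtain ⟨k, hk⟩ := bdd_toType hr (range f) (mk_range_le.trans_lt hs)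
    exact ⟨c k, h1 k, fun y hy => (hf ⟨y, hy⟩).trans (hmono _ _ (hk _ ⟨_, rfl⟩).le)⟩
  · obtain ⟨i, hi⟩ := h2 y hy
    obtain ⟨k, hk⟩ := hnext i
    exact ⟨c k, ⟨k, rfl⟩, (hi.trans_lt (hG _).1).trans (hc k i hk), h1 k⟩

/-- `A` fails to reflect at stationarily many points of cofinality at least `θ` -/
def NonRefl (θ : Cardinal.{u}) (A : Set L) : Prop :=
  ∀ F : L → L, ∃ (δ : L) (C : Set L), Closed F δ ∧
    (∀ s : Set L, #s < θ → (∀ y ∈ s, y < δ) → ∃ γ < δ, ∀ y ∈ s, y ≤ γ) ∧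
    (∀ y < δ, ∃ c ∈ C, y < c ∧ c < δ) ∧
    ∀ η ∈ A, η < δ → ∃ γ < η, ∀ c ∈ C, c < η → c ≤ γ

theorem Long.exists_set [WellFoundedLT L] (H : Long L μ) {θ : Cardinal.{u}} (hr : θ.IsRegular)
    (hθ : θ < μ) : ∃ A : Set L, Stat A ∧ (∀ δ ∈ A, CofOmega δ) ∧ NonRefl θ A := by
  obtain ⟨I, A, h1, h2, h3, h4, h5⟩ := H.ulam hθ
  by_contra hc
  have hc' : ∀ i, ¬ NonRefl θ (A i) := fun i hi => hc ⟨A i, h3 i, h4 i, hi⟩
  simp only [NonRefl, not_forall, not_exists, not_and] at hc'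
  choose F hF using hc'
  choose G hG using fun y => H.bddf h2 (fun i => F i y)
  obtain ⟨δ, C, hcl, hcof, hC, hunb⟩ := H.long_point hr hθ.le G
  have h6 : ∀ i, ∃ η ∈ A i, η < δ ∧ ∀ γ < η, ∃ c ∈ C, c < η ∧ γ < c := by
    intro i
    obtain ⟨η, hη, hδ, hh⟩ := hF i δ C (fun y hy => (hG y i).trans (hcl y hy)) hcof hunb
    refine ⟨η, hη, hδ, fun γ hγ => ?_⟩
    obtain ⟨c, hc1, hc2, hc3⟩ := hh γ hγ
    exact ⟨c, hc1, hc2, not_le.1 hc3⟩
  choose η hη1 hη2 hη3 using h6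
  have h7 : ∀ i, ∃ m : C, η i ≤ m ∧ ∀ c ∈ C, η i ≤ c → (m : L) ≤ c := by
    intro i
    obtain ⟨c, hc1, hc2, -⟩ := hunb _ (hη2 i)
    obtain ⟨m, hm1, hm2⟩ := WellFounded.has_min (wellFounded_lt (α := L))
      {c | c ∈ C ∧ η i ≤ c} ⟨c, hc1, hc2.le⟩
    exact ⟨⟨m, hm1.1⟩, hm1.2, fun c h1 h2 => not_lt.1 (hm2 c ⟨h1, h2⟩)⟩
  choose m hm1 hm2 using h7
  have key : ∀ i j, η i < η j → (m i : L) < m j := by
    intro i j hij
    obtain ⟨c, hc1, hc2, hc3⟩ := hη3 j _ hij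
    exact ((hm2 i c hc1 hc3.le).trans_lt hc2).trans_le (hm1 j)
  have hinj : Function.Injective m := by
    intro i j hij
    rcases lt_trichotomy (η i) (η j) with h | h | h
    · exact absurd (key i j h) (by rw [hij]; exact lt_irrefl _)
    · exact h5 i j _ (hη1 i) (h ▸ hη1 j)
    · exact absurd (key j i h) (by rw [hij]; exact lt_irrefl _)
  exact ((mk_le_of_injective hinj).trans hC).not_gt h1

end Pool.Agent.H557Z.Game
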