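import Pool.Agent.H557Z.GameDefs
import Pool.Agent.H557Z.GameStat

universe u

namespace Pool.Agent.H557Z.Game

open Cardinal Set

variable {L : Type u} [LinearOrder L] {μ κ : Cardinal.{u}}

/-- conditions: sets of size at most `κ` with no limit point in `A` -/
@[ext] structure Cond (κ : Cardinal.{u}) (A : Set L) where
  s : Set L
  card : #s ≤ κ
  nolim : ∀ η ∈ A, ∃ γ < η, ∀ y ∈ s, y < η → y ≤ γ

variable {A : Set L}

/-- end-extension -/
instance : PartialOrder (Cond κ A) where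
  le p q := q.s ⊆ p.s ∧ ∀ x ∈ p.s, ∀ y ∈ q.s, x ≤ y → x ∈ q.s
  le_refl p := ⟨subset_rfl, fun _ hx _ _ _ => hx⟩
  le_trans p q r h1 h2 := ⟨h2.1.trans h1.1, fun x hx y hy hxy =>
    h2.2 x (h1.2 x hx y (h2.1 hy) hxy) y hy hxy⟩
  le_antisymm p q h1 h2 := Cond.ext (h2.1.antisymm h1.1)

theorem Cond.le_def {p q : Cond κ A} :
    p ≤ q ↔ q.s ⊆ p.s ∧ ∀ x ∈ p.s, ∀ y ∈ q.s, x ≤ y → x ∈ q.s := Iff.rfl

/-- the empty condition -/
@[reducible] def condTop (κ : Cardinal.{u}) (hA : ∀ δ ∈ A, CofOmega δ) : OrderTop (Cond κ A) where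
  top := ⟨∅, by simp, fun η hη => by
    obtain ⟨d, hd, -⟩ := hA η hη
    exact ⟨d 0, hd 0, by simp⟩⟩
  le_top p := ⟨empty_subset _, fun _ _ _ hy => hy.elim⟩

/-- add one point -/
def Cond.ins (hκ : ℵ₀ ≤ κ) (p : Cond κ A) (ξ : L) : Cond κ A where
  s := insert ξ p.s
  card := mk_insert_le.trans (add_le_of_le hκ p.card (one_le_aleph0.trans hκ))
  nolim η hη := by
    obtain ⟨γ, h1, h2⟩ := p.nolim η hη
    by_cases h : ξ < η
    · refine ⟨max γ ξ, max_lt h1 h, ?_⟩
      rintro y (rfl | hy) hyη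
      · exact le_max_right _ _
      · exact (h2 y hy hyη).trans (le_max_left _ _)
    · refine ⟨γ, h1, ?_⟩
      rintro y (rfl | hy) hyη
      · exact absurd hyη h
      · exact h2 y hy hyη

theorem Cond.ins_le (hκ : ℵ₀ ≤ κ) (p : Cond κ A) (ξ : L) (h : ∀ y ∈ p.s, y < ξ) :
    p.ins hκ ξ ≤ p := by
  refine ⟨subset_insert _ _, ?_⟩
  rintro x (rfl | hx) y hy hxy
  · exact absurd (h y hy) (not_lt.2 hxy)
  · exact hx

theorem exists_rec {K : Type u} [LinearOrder K] [WellFoundedLT K] {P : Type u} [PartialOrder P]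
    (Q : K → P → Prop) (p : P)
    (h : ∀ (i : K) (t : Iio i → P), (∀ j : Iio i, Q j (t j)) → (∀ j k, j < k → t k ≤ t j) →
      ∃ w, Q i w ∧ ∀ j, w ≤ t j) :
    ∃ s : K → P, (∀ i, Q i (s i)) ∧ ∀ i j, j < i → s i ≤ s j := by
  classical
  let B : ∀ i : K, (∀ j, j < i → P) → P := fun i t =>
    if hh : (∀ j : Iio i, Q j (t j j.2)) ∧ (∀ j k : Iio i, j < k → t k k.2 ≤ t j j.2) then
      (h i (fun j => t j j.2) hh.1 hh.2).choose else p
  let s : K → P := WellFoundedLT.fix B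
  have key : ∀ i, Q i (s i) ∧ ∀ j, j < i → s i ≤ s j := by
    intro i
    induction i using WellFoundedLT.induction with
    | ind i ih =>
      have hh : (∀ j : Iio i, Q j (s j)) ∧ (∀ j k : Iio i, j < k → s k ≤ s j) :=
        ⟨fun j => (ih j j.2).1, fun j k hjk => (ih k k.2).2 j hjk⟩
      have e : s i = B i (fun j _ => s j) := WellFoundedLT.fix_eq B i
      have e2 : s i = (h i (fun j => s j) hh.1 hh.2).choose := by
        rw [e]; exact dif_pos hh
      have := (h i (fun j => s j) hh.1 hh.2).choose_spec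
      rw [← e2] at this
      exact ⟨this.1, fun j hj => this.2 ⟨j, hj⟩⟩
  exact ⟨s, fun i => (key i).1, fun i j hj => (key i).2 j hj⟩

theorem distrib_aux (H : Long L μ) (hκ : ℵ₀ ≤ κ) (hκμ : κ ≤ μ) (hpow : μ ^ κ ≤ μ)
    (hN : NonRefl (Order.succ κ) A) {K : Type u} [LinearOrder K] [WellFoundedLT K] (hK : #K ≤ κ)
    (D : K → Set (Cond κ A)) (hD : ∀ i, OpenDense (D i)) (p : Cond κ A) :
    ∃ s : K → Cond κ A, (∀ i, s i ≤ p ∧ s i ∈ D i) ∧ ∀ i j, j < i → s i ≤ s j := by
  choose e he1 he2 using fun i => (hD i).2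
  choose b hb using fun q : Cond κ A => H.bdd q.s (q.card.trans hκμ)
  have hF : ∀ β : L, ∃ x, ∀ q : Cond κ A, (∀ y ∈ q.s, y ≤ β) → ∀ i, b (e i q) < x := by
    intro β
    have hc : #{q : Cond κ A // ∀ y ∈ q.s, y ≤ β} ≤ μ := by
      have h1 : #{q : Cond κ A // ∀ y ∈ q.s, y ≤ β} ≤ #{t : Set L // t ⊆ Iic β ∧ #t ≤ κ} := by
        refine mk_le_of_injective (f := fun q => ⟨q.1.s, q.2, q.1.card⟩) ?_
        intro q q' hq
        exact Subtype.ext (Cond.ext (Subtype.mk.inj hq))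
      refine (h1.trans (mk_bounded_subset_le _ _)).trans (le_trans ?_ hpow)
      exact power_le_power_right (max_le (H.smallc β) H.inf)
    obtain ⟨x, hx⟩ := H.bddf (ι := {q : Cond κ A // ∀ y ∈ q.s, y ≤ β} × K) (by
      rw [mk_prod, lift_id, lift_id]
      exact mul_le_of_le H.inf hc (hK.trans hκμ)) (fun z => b (e z.2 z.1))
    exact ⟨x, fun q hq i => hx (⟨q, hq⟩, i)⟩
  choose F hF using hF
  obtain ⟨δ, C, hcl, hcof, hunb, hC⟩ := hN (fun y => max (b p) (F y))
  have hcof' : ∀ s : Set L, #s ≤ κ → (∀ y ∈ s, y < δ) → ∃ γ < δ, ∀ y ∈ s, y ≤ γ :=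
    fun s hs => hcof s (Order.lt_succ_iff.2 hs)
  obtain ⟨γ0, hγ0, -⟩ := hcof' ∅ (by simp) (by simp)
  have hpδ : ∀ y ∈ p.s, y < δ := fun y hy =>
    (hb p y hy).trans ((le_max_left _ _).trans_lt (hcl γ0 hγ0))
  -- capping a condition by a point of `C`
  have cap : ∀ (u : Cond κ A) (x : L), x < δ → (∀ y ∈ u.s, y ≤ x) →
      ∃ w ≤ u, (∀ y ∈ w.s, y < δ) ∧ ∀ y ∈ w.s, ∃ c ∈ C, c ∈ w.s ∧ y ≤ c := by
    intro u x hx hu
    obtain ⟨c, hc1, hc2, hc3⟩ := hunb x hx
    refine ⟨u.ins hκ c, u.ins_le hκ c fun y hy => (hu y hy).trans_lt hc2, ?_, ?_⟩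
    · rintro y (rfl | hy)
      · exact hc3
      · exact (hu y hy).trans_lt hx
    · rintro y (rfl | hy)
      · exact ⟨y, hc1, mem_insert _ _, le_rfl⟩
      · exact ⟨c, hc1, mem_insert _ _, (hu y hy).trans hc2.le⟩
  have chain : ∀ (ι : Type u) (t : ι → Cond κ A), #ι ≤ κ → (∀ j k, t j ≤ t k ∨ t k ≤ t j) →
      (∀ j, ∀ y ∈ (t j).s, y < δ) → (∀ j, ∀ y ∈ (t j).s, ∃ c ∈ C, c ∈ (t j).s ∧ y ≤ c) →
      ∃ u : Cond κ A, (∀ j, u ≤ t j) ∧ ∀ y ∈ u.s, y < δ := by
    intro ι t hι hcomp hδ hCp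
    have hcard : #(⋃ j, (t j).s) ≤ κ :=
      (mk_iUnion_le _).trans (mul_le_of_le hκ hι (ciSup_le' fun j => (t j).card))
    have hlt : ∀ y ∈ ⋃ j, (t j).s, y < δ := fun y hy => by
      obtain ⟨j, hj⟩ := mem_iUnion.1 hy
      exact hδ j y hj
    have hend : ∀ j, ∀ x ∈ ⋃ j, (t j).s, ∀ y ∈ (t j).s, x ≤ y → x ∈ (t j).s := by
      intro j x hx y hy hxy
      obtain ⟨k, hk⟩ := mem_iUnion.1 hx
      rcases hcomp j k with h | h
      · exact h.1 hk
      · exact h.2 x hk y hy hxy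
    refine ⟨⟨⋃ j, (t j).s, hcard, fun η hη => ?_⟩,
      fun j => ⟨subset_iUnion (fun j => (t j).s) j, hend j⟩, hlt⟩
    by_cases h1 : ∃ y ∈ ⋃ j, (t j).s, η ≤ y
    · obtain ⟨y, hy, hηy⟩ := h1
      obtain ⟨j, hj⟩ := mem_iUnion.1 hy
      obtain ⟨γ, hγ1, hγ2⟩ := (t j).nolim η hη
      exact ⟨γ, hγ1, fun x hx hxη => hγ2 x (hend j x hx y hj (hxη.le.trans hηy)) hxη⟩
    · push Not at h1
      rcases lt_or_ge η δ with h2 | h2
      · obtain ⟨γ, hγ1, hγ2⟩ := hC η hη h2
        refine ⟨γ, hγ1, fun x hx _ => ?_⟩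
        obtain ⟨j, hj⟩ := mem_iUnion.1 hx
        obtain ⟨c, hc1, hc2, hc3⟩ := hCp j x hj
        exact hc3.trans (hγ2 c hc1 (h1 c (mem_iUnion.2 ⟨j, hc2⟩)))
      · obtain ⟨γ, hγ1, hγ2⟩ := hcof' _ hcard hlt
        exact ⟨γ, hγ1.trans_le h2, fun x hx _ => hγ2 x hx⟩
  obtain ⟨γ1, hγ1, hγ1'⟩ := hcof' p.s p.card hpδ
  obtain ⟨p', hp1, hp2, hp3⟩ := cap p γ1 hγ1 hγ1'
  obtain ⟨s, hs1, hs2⟩ := exists_rec (K := K)
    (fun i w => (w ≤ p' ∧ w ∈ D i) ∧ (∀ y ∈ w.s, y < δ) ∧ ∀ y ∈ w.s, ∃ c ∈ C, c ∈ w.s ∧ y ≤ c) p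
    (by
      intro i t ht hanti
      obtain ⟨u, hu1, hu2⟩ := chain (Option (Iio i)) (fun o => o.elim p' t)
        (by
          rw [mk_option]
          exact add_le_of_le hκ ((mk_set_le _).trans hK) (one_le_aleph0.trans hκ))
        (by
          rintro (_ | j) (_ | k)
          · exact Or.inl le_rfl
          · exact Or.inr (ht k).1.1
          · exact Or.inl (ht j).1.1
          · rcases lt_trichotomy j k with h | rfl | h
            · exact Or.inr (hanti j k h)
            · exact Or.inl le_rfl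
            · exact Or.inl (hanti k j h))
        (by
          rintro (_ | j)
          · exact hp2
          · exact (ht j).2.1)
        (by
          rintro (_ | j)
          · exact hp3
          · exact (ht j).2.2)
      obtain ⟨γ, hγ, hγ'⟩ := hcof' u.s u.card hu2
      obtain ⟨w, hw1, hw2, hw3⟩ := cap (e i u) (F γ) ((le_max_right _ _).trans_lt (hcl γ hγ))
        (fun y hy => ((hb _ y hy).trans (hF γ u hγ' i)).le)
      have hwu : w ≤ u := hw1.trans (he2 i u)
      exact ⟨w, ⟨⟨hwu.trans (hu1 none), (hD i).1 hw1 (he1 i u)⟩, hw2, hw3⟩,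
        fun j => hwu.trans (hu1 (some j))⟩)
  exact ⟨s, fun i => ⟨(hs1 i).1.1.trans hp1, (hs1 i).1.2⟩, hs2⟩

theorem distrib (H : Long L μ) (hκ : ℵ₀ ≤ κ) (hκμ : κ ≤ μ) (hpow : μ ^ κ ≤ μ)
    (hN : NonRefl (Order.succ κ) A) : StronglyDistributive (Cond κ A) κ := by
  classical
  intro D hD p
  obtain ⟨s, hs1, hs2⟩ := distrib_aux H hκ hκμ hpow hN (K := κ.ord.ToType) (mk_ord_toType κ).le
    (fun i => D (Ordinal.ToType.mk.symm i).1) (fun i => hD _ (Ordinal.ToType.mk.symm i).2) p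
  refine ⟨fun α => if h : α < κ.ord then s (Ordinal.ToType.mk ⟨α, h⟩) else p, ?_, ?_, ?_⟩
  · intro β hβ α hα
    beta_reduce
    rw [dif_pos hβ, dif_pos (hα.trans hβ)]
    exact hs2 _ _ (Ordinal.ToType.mk.strictMono (show (⟨α, _⟩ : Iio κ.ord) < ⟨β, hβ⟩ from hα))
  · dsimp only
    split_ifs with h
    · exact (hs1 _).1
    · exact le_rfl
  · intro α hα
    beta_reduce
    rw [dif_pos hα]
    have := (hs1 (Ordinal.ToType.mk ⟨α, hα⟩)).2
    simpa using this

theorem comTurn_nat {n : ℕ} : ComTurn (n : Ordinal.{u}) ↔ Even n := by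
  constructor
  · rintro (⟨β, hβ⟩ | h)
    · have h1 : β ≤ (n : Ordinal.{u}) := by
        rw [hβ]; exact Ordinal.le_mul_right β (by norm_num)
      obtain ⟨m, rfl⟩ := Ordinal.lt_omega0.1 (h1.trans_lt (Ordinal.natCast_lt_omega0 n))
      have : n = 2 * m := by exact_mod_cast hβ
      exact ⟨m, by omega⟩
    · exact absurd (Ordinal.omega0_le_of_isSuccLimit h) (not_le.2 (Ordinal.natCast_lt_omega0 n))
  · rintro ⟨m, rfl⟩
    exact Or.inl ⟨m, by rw [← two_mul]; push_cast; rfl⟩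

section
open Classical

/-- the move of INC -/
noncomputable def mv (hκ : ℵ₀ ≤ κ) (p : Cond κ A) (ξ : L) : Cond κ A :=
  if ∀ y ∈ p.s, y < ξ then p.ins hκ ξ else p

theorem mv_le (hκ : ℵ₀ ≤ κ) (p : Cond κ A) (ξ : L) : mv hκ p ξ ≤ p := by
  unfold mv
  split_ifs with h
  · exact p.ins_le hκ ξ h
  · exact le_rfl

/-- finite plays, coded by the list of points added by INC (latest first) -/
noncomputable def play (hκ : ℵ₀ ≤ κ) (σ : Strategy (Cond κ A)) (t : Cond κ A) :
    List L → ℕ → Cond κ A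
  | [] => fun _ => t
  | ξ :: l =>
    Function.update
      (Function.update (play hκ σ t l) (2 * l.length + 1) (mv hκ (play hκ σ t l (2 * l.length)) ξ))
      (2 * l.length + 2)
      (σ ((2 * l.length + 2 : ℕ) : Ordinal.{u}) fun γ =>
        Function.update (play hκ σ t l) (2 * l.length + 1)
          (mv hκ (play hκ σ t l (2 * l.length)) ξ) (toNat γ.1.card))

end

theorem not_closed (H : Long L μ) (hκ : ℵ₀ < κ) (hκμ : κ ≤ μ) (hS : Stat A)
    (hA : ∀ δ ∈ A, CofOmega δ) :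
    ¬ @StrategicallyClosed (Cond κ A) _ (condTop κ hA) κ := by
  letI := condTop κ hA
  rintro ⟨σ, h0, hw⟩
  choose b hb using fun q : Cond κ A => H.bdd q.s (q.card.trans hκμ)
  set pl := play hκ.le σ ⊤ with hpl
  have hF : ∀ β : L, ∃ x, ∀ l : List L, (∀ y ∈ l, y ≤ β) → b (pl l (2 * l.length)) < x := by
    intro β
    obtain ⟨x, hx⟩ := H.bddf (ι := List (Iic β))
      ((mk_list_le_max _).trans (max_le H.inf (H.smallc β)))
      (fun l => b (pl (l.map Subtype.val) (2 * (l.map Subtype.val).length)))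
    refine ⟨x, fun l hl => ?_⟩
    lift l to List (Iic β) using hl
    exact hx l
  choose F hF using hF
  obtain ⟨δ, hδ, hcl⟩ := hS F
  obtain ⟨d, hd1, hd2⟩ := hA δ hδ
  let m : ℕ → L := fun n => Nat.rec (d 0) (fun n x => max (max (d n) x) (F x)) n
  let l : ℕ → List L := fun n => Nat.rec [] (fun n x => m (n + 1) :: x) n
  have hm : ∀ n, m (n + 1) = max (max (d n) (m n)) (F (m n)) := fun _ => rfl
  have hl : ∀ n, l (n + 1) = m (n + 1) :: l n := fun _ => rfl
  have hlen : ∀ n, (l n).length = n := by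
    intro n; induction n with
    | zero => rfl
    | succ n ih => rw [hl, List.length_cons, ih]
  have hmδ : ∀ n, m n < δ := by
    intro n; induction n with
    | zero => exact hd1 0
    | succ n ih => rw [hm]; exact max_lt (max_lt (hd1 n) ih) (hcl _ ih)
  have hlm : ∀ n, ∀ y ∈ l n, y ≤ m n := by
    intro n; induction n with
    | zero => intro y hy; cases hy
    | succ n ih =>
      intro y hy
      rw [hl] at hy
      rcases List.mem_cons.1 hy with rfl | hy
      · exact le_rfl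
      · rw [hm]; exact ((ih y hy).trans (le_max_right _ _)).trans (le_max_left _ _)
  have hstep : ∀ n, pl (l (n + 1)) = Function.update
      (Function.update (pl (l n)) (2 * n + 1) (mv hκ.le (pl (l n) (2 * n)) (m (n + 1))))
      (2 * n + 2)
      (σ ((2 * n + 2 : ℕ) : Ordinal.{u}) fun γ =>
        Function.update (pl (l n)) (2 * n + 1)
          (mv hκ.le (pl (l n) (2 * n)) (m (n + 1))) (toNat γ.1.card)) := by
    intro n
    rw [hl, hpl, play, hlen]
  have hstab : ∀ n k j, j ≤ 2 * n → pl (l (n + k)) j = pl (l n) j := by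
    intro n k j hj
    induction k with
    | zero => rfl
    | succ k ih =>
      rw [← add_assoc, hstep, Function.update_of_ne (by omega), Function.update_of_ne (by omega), ih]
  let s : ℕ → Cond κ A := fun j => pl (l j) j
  have hs : ∀ n j, j ≤ 2 * n → pl (l n) j = s j := by
    intro n j hj
    have h1 := hstab n j j hj
    have h2 := hstab j n j (by omega)
    rw [add_comm] at h2
    exact h1.symm.trans h2
  have hodd : ∀ n, s (2 * n + 1) = mv hκ.le (s (2 * n)) (m (n + 1)) := by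
    intro n
    rw [← hs (n + 1) (2 * n + 1) (by omega), hstep, Function.update_of_ne (by omega),
      Function.update_self, hs n _ le_rfl]
  have heven : ∀ n, s (2 * n) = σ ((2 * n : ℕ) : Ordinal.{u}) fun γ => s (toNat γ.1.card) := by
    intro n
    cases n with
    | zero =>
      have : ∀ (α : Ordinal.{u}) (h : Iio α → Cond κ A), α = 0 → σ α h = ⊤ := by
        rintro α h rfl; exact h0 h
      rw [this _ _ (by simp)]; rfl
    | succ n =>
      rw [show 2 * (n + 1) = 2 * n + 2 from rfl, ← hs (n + 1) (2 * n + 2) le_rfl, hstep]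
      rw [Function.update_self]
      congr 1
      funext γ
      obtain ⟨γ, hγ⟩ := γ
      obtain ⟨j, rfl⟩ := Ordinal.lt_omega0.1 (lt_trans hγ (Ordinal.natCast_lt_omega0 _))
      have hj : j < 2 * n + 2 := by exact_mod_cast (show (j : Ordinal.{u}) < _ from hγ)
      simp only [Ordinal.card_nat, toNat_natCast]
      by_cases h : j = 2 * n + 1
      · rw [h, Function.update_self, hodd, hs n _ le_rfl]
      · rw [Function.update_of_ne h, hs n _ (by omega)]
  have hω : Ordinal.omega0 < κ.ord := by rw [← ord_aleph0]; exact ord_lt_ord.2 hκ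
  have hfol : ∀ α ≤ Ordinal.omega0.{u},
      (∀ i : ℕ, (i : Ordinal.{u}) < α → ∀ j < i, s i ≤ s j) →
      Follows σ α (fun γ => s (toNat γ.card)) := by
    intro α hα h
    constructor
    · intro β hβ γ hγ
      obtain ⟨i, rfl⟩ := Ordinal.lt_omega0.1 (hβ.trans_le hα)
      obtain ⟨j, rfl⟩ := Ordinal.lt_omega0.1 (hγ.trans (Ordinal.natCast_lt_omega0 _))
      simp only [Ordinal.card_nat, toNat_natCast]
      exact h i hβ j (by exact_mod_cast hγ)
    · intro β hβ hc
      obtain ⟨i, rfl⟩ := Ordinal.lt_omega0.1 (hβ.trans_le hα)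
      obtain ⟨n, hn⟩ := comTurn_nat.1 hc
      obtain rfl : i = 2 * n := by omega
      simp only [Ordinal.card_nat, toNat_natCast]
      exact heven n
  have hdesc : ∀ i : ℕ, ∀ j < i, s i ≤ s j := by
    intro i
    induction i using Nat.strong_induction_on with
    | _ i ih =>
      intro j hj
      rcases Nat.even_or_odd' i with ⟨n, rfl | rfl⟩
      · have := hw ((2 * n : ℕ) : Ordinal.{u}) ((Ordinal.natCast_lt_omega0 _).trans hω)
          (comTurn_nat.2 (by simp)) _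
          (hfol _ (Ordinal.natCast_lt_omega0 _).le fun k hk => ih k (by exact_mod_cast hk))
          (j : Ordinal.{u}) (by exact_mod_cast hj)
        simp only [Ordinal.card_nat, toNat_natCast] at this
        rw [heven n]; exact this
      · have h1 : s (2 * n + 1) ≤ s (2 * n) := by rw [hodd]; exact mv_le _ _ _
        rcases (Nat.lt_succ_iff.1 hj).eq_or_lt with rfl | hj'
        · exact h1
        · exact h1.trans (ih _ (by omega) j hj')
  have hfin := hw Ordinal.omega0 hω (Or.inr Ordinal.isSuccLimit_omega0) _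
    (hfol _ le_rfl fun k _ => hdesc k)
  set p := σ Ordinal.omega0 (fun γ => s (toNat γ.1.card)) with hp
  obtain ⟨γ, hγ1, hγ2⟩ := p.nolim δ hδ
  obtain ⟨n, hn⟩ := hd2 γ hγ1
  have h1 := hfin ((2 * n + 1 : ℕ) : Ordinal.{u}) (Ordinal.natCast_lt_omega0 _)
  simp only [Ordinal.card_nat, toNat_natCast] at h1
  have h2 : m (n + 1) ∈ (s (2 * n + 1)).s := by
    rw [hodd, mv, if_pos]
    · exact mem_insert _ _
    · intro y hy
      have h3 := hF (m n) (l n) (hlm n)
      rw [hlen, hs n _ le_rfl] at h3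
      rw [hm]
      exact ((hb _ y hy).trans h3).trans_le (le_max_right _ _)
  have h3 := hγ2 _ (h1.1 h2) (hmδ (n + 1))
  rw [hm] at h3
  exact absurd (((le_max_left _ _).trans (le_max_left _ _)).trans h3) (not_le.2 hn)

theorem main (κ : Cardinal.{u}) (hκ : ℵ₀ < κ) :
    ∃ (P : Type u) (_ : PartialOrder P) (_ : OrderTop P),
      StronglyDistributive P κ ∧ ¬ StrategicallyClosed P κ := by
  have h1 : κ < Order.succ κ := Order.lt_succ κ
  have h2 : Order.succ κ < 2 ^ Order.succ κ := cantor _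
  have hinf : ℵ₀ ≤ Order.succ κ := hκ.le.trans h1.le
  have H : Long (Order.succ ((2 : Cardinal.{u}) ^ Order.succ κ)).ord.ToType (2 ^ Order.succ κ) :=
    ⟨hinf.trans h2.le, fun s hs => bdd_toType (isRegular_succ (hinf.trans h2.le)) s
      (Order.lt_succ_iff.2 hs), fun a => Order.lt_succ_iff.1 (mk_Iio_toType_ord_lt a)⟩
  obtain ⟨A, hA1, hA2, hA3⟩ := H.exists_set (isRegular_succ hκ.le) h2
  refine ⟨Cond κ A, inferInstance, condTop κ hA2,
    distrib H hκ.le (h1.trans h2).le ?_ hA3, not_closed H hκ (h1.trans h2).le hA1 hA2⟩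
  rw [← power_mul, mul_eq_left hinf h1.le (by intro h; rw [h] at hκ; simp at hκ)]

end Pool.Agent.H557Z.Game
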