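import Mathlib

/-!
Definitions for joints of lines in simple matroids.
-/

namespace Pool.Agent.H557Z.Joints

variable {α : Type*}

/-- A matroid is simple if it has no loops and no parallel pairs: every set of one or two
elements of the ground set is independent. -/
def IsSimple (M : Matroid α) : Prop := ∀ x ∈ M.E, ∀ y ∈ M.E, M.Indep {x, y}

/-- A line of `M` is a flat of rank two. -/
def IsLine (M : Matroid α) (l : Set α) : Prop := M.IsFlat l ∧ M.eRk l = 2

/-- `x` is an `n`-dimensional joint of the set of lines `𝔏`: it lies on `n` lines of `𝔏` whose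
union has rank at least `n + 1`. -/
def IsJoint (M : Matroid α) (𝔏 : Finset (Set α)) (n : ℕ) (x : α) : Prop :=
  x ∈ M.E ∧ ∃ l : Fin n → Set α, (∀ i, l i ∈ 𝔏 ∧ x ∈ l i) ∧
    ((n + 1 : ℕ) : ℕ∞) ≤ M.eRk (⋃ i, l i)

end Pool.Agent.H557Z.Joints
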