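import Pool.Agent.H557Z.JointDefs

/-!
Upper bound `3 L^(5/3)` for the number of `n`-dimensional joints, `n ≥ 4`.
-/

namespace Pool.Agent.H557Z.Joints

open Set Finset

variable {α : Type*} {M : Matroid α}

theorem line_subset_closure (hs : IsSimple M) {l X : Set α} (hl : IsLine M l) {x y : α}
    (hxy : x ≠ y) (hx : x ∈ l) (hy : y ∈ l) (hxX : x ∈ M.closure X) (hyX : y ∈ M.closure X) :
    l ⊆ M.closure X := by
  have hE := hl.1.subset_ground
  have hi : M.Indep {x, y} := hs x (hE hx) y (hE hy)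
  have h2 : M.eRk {x, y} = 2 := by rw [hi.eRk_eq_encard, encard_pair hxy]
  have hsub : ({x, y} : Set α) ⊆ l := by
    intro z hz; rcases hz with rfl | rfl <;> assumption
  have hfin : M.IsRkFinite {x, y} := by
    rw [← Matroid.eRk_ne_top_iff, h2]; decide
  have hcl := hfin.closure_eq_closure_of_subset_of_eRk_ge_eRk hsub (by rw [h2, hl.2])
  rw [hl.1.closure] at hcl
  rw [← hcl]
  apply Matroid.closure_subset_closure_of_subset_closure
  intro z hz; rcases hz with rfl | rfl <;> assumption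

theorem exit_line {𝔏 : Finset (Set α)} {n : ℕ} {x : α} (hx : IsJoint M 𝔏 n x) {X : Set α}
    (hX : M.eRk X ≤ n) : ∃ l ∈ 𝔏, x ∈ l ∧ ¬ l ⊆ M.closure X := by
  obtain ⟨-, l, hl, hr⟩ := hx
  by_contra h
  push Not at h
  have h1 : (⋃ i, l i) ⊆ M.closure X := iUnion_subset fun i => h _ (hl i).1 (hl i).2
  have h2 := (hr.trans (M.eRk_mono h1)).trans_eq (M.eRk_closure_eq X)
  have h3 := h2.trans hX
  norm_cast at h3
  omega

open Classical in
theorem card_joint_closure (hs : IsSimple M) {𝔏 : Finset (Set α)} (h𝔏 : ∀ l ∈ 𝔏, IsLine M l)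
    {n : ℕ} {J : Finset α} (hJ : ∀ x ∈ J, IsJoint M 𝔏 n x) {X : Set α} (hX : M.eRk X ≤ n) :
    (J.filter (fun z => z ∈ M.closure X)).card ≤ 𝔏.card := by
  have : ∀ x ∈ J.filter (fun z => z ∈ M.closure X), ∃ l ∈ 𝔏, x ∈ l ∧ ¬ l ⊆ M.closure X :=
    fun x hx => exit_line (hJ x (mem_filter.1 hx).1) hX
  choose! f hf using this
  apply card_le_card_of_injOn f (fun x hx => (hf x hx).1)
  intro x hx y hy hxy
  by_contra hne
  have hx' := hf x hx
  have hy' := hf y hy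
  exact hx'.2.2 (line_subset_closure hs (h𝔏 _ hx'.1) hne hx'.2.1 (hxy ▸ hy'.2.1)
    (mem_filter.1 hx).2 (mem_filter.1 hy).2)

open Classical in
theorem pairs_lower (hs : IsSimple M) {𝔏 : Finset (Set α)} (h𝔏 : ∀ l ∈ 𝔏, IsLine M l)
    {n : ℕ} (hn : 2 ≤ n) {J : Finset α} (hJ : ∀ x ∈ J, IsJoint M 𝔏 n x) {u : Set α}
    (hu : u ∈ 𝔏) :
    (J.filter (fun z => z ∈ u)).card * (J.filter (fun z => z ∈ u)).card
      - (J.filter (fun z => z ∈ u)).card ≤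
    ((𝔏 ×ˢ 𝔏).filter (fun p => u ⊆ M.closure (p.1 ∪ p.2))).card := by
  have hul := h𝔏 u hu
  have : ∀ x ∈ J.filter (fun z => z ∈ u), ∃ l ∈ 𝔏, x ∈ l ∧ ¬ l ⊆ M.closure u :=
    fun x hx => exit_line (hJ x (mem_filter.1 hx).1) (by rw [hul.2]; exact_mod_cast hn)
  choose! f hf using this
  have hinj : ∀ x ∈ J.filter (fun z => z ∈ u), ∀ y ∈ J.filter (fun z => z ∈ u),
      f x = f y → x = y := by
    intro x hx y hy hxy
    by_contra hne
    have hx' := hf x hx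
    have hy' := hf y hy
    refine hx'.2.2 (line_subset_closure hs (h𝔏 _ hx'.1) hne hx'.2.1 (hxy ▸ hy'.2.1) ?_ ?_)
    · rw [hul.1.closure]; exact (mem_filter.1 hx).2
    · rw [hul.1.closure]; exact (mem_filter.1 hy).2
  rw [← offDiag_card]
  apply card_le_card_of_injOn (fun p => (f p.1, f p.2))
  · intro p hp
    obtain ⟨h1, h2, h3⟩ := mem_offDiag.1 hp
    have hx' := hf _ h1
    have hy' := hf _ h2
    refine mem_filter.2 ⟨mem_product.2 ⟨hx'.1, hy'.1⟩, ?_⟩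
    refine line_subset_closure hs hul h3 (mem_filter.1 h1).2 (mem_filter.1 h2).2 ?_ ?_
    · exact M.mem_closure_of_mem' (Or.inl hx'.2.1) ((h𝔏 _ hx'.1).1.subset_ground hx'.2.1)
    · exact M.mem_closure_of_mem' (Or.inr hy'.2.1) ((h𝔏 _ hy'.1).1.subset_ground hy'.2.1)
  · intro p hp q hq hpq
    obtain ⟨h1, h2, -⟩ := mem_offDiag.1 hp
    obtain ⟨h3, h4, -⟩ := mem_offDiag.1 hq
    simp only [Prod.mk.injEq] at hpq
    exact Prod.ext (hinj _ h1 _ h3 hpq.1) (hinj _ h2 _ h4 hpq.2)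

open Classical in
theorem card_le_nat (hs : IsSimple M) {𝔏 : Finset (Set α)} (h𝔏 : ∀ l ∈ 𝔏, IsLine M l)
    {n : ℕ} (hn : 4 ≤ n) {J : Finset α} (hJ : ∀ x ∈ J, IsJoint M 𝔏 n x) (D : ℕ) :
    ∃ s b : ℕ, J.card ≤ s + b ∧ s ≤ 𝔏.card * D ∧ b * D ^ 2 ≤ 𝔏.card ^ 3 := by
  set d : Set α → ℕ := fun u => (J.filter (fun z => z ∈ u)).card with hd
  set B := J.filter (fun z => ∃ u ∈ 𝔏, z ∈ u ∧ D < d u) with hB
  set S := (𝔏.filter (fun u => d u ≤ D)).biUnion (fun u => J.filter (fun z => z ∈ u)) with hS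
  refine ⟨S.card, B.card, ?_, ?_, ?_⟩
  · refine le_trans (card_le_card ?_) (card_union_le S B)
    intro z hz
    by_cases h : ∃ u ∈ 𝔏, z ∈ u ∧ D < d u
    · exact mem_union_right _ (mem_filter.2 ⟨hz, h⟩)
    · push Not at h
      obtain ⟨-, l, hl, -⟩ := hJ z hz
      have := hl ⟨0, by omega⟩
      exact mem_union_left _ (mem_biUnion.2 ⟨_, mem_filter.2 ⟨this.1, h _ this.1 this.2⟩,
        mem_filter.2 ⟨hz, this.2⟩⟩)
  · refine le_trans (card_biUnion_le_card_mul _ _ D (fun u hu => (mem_filter.1 hu).2)) ?_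
    exact Nat.mul_le_mul_right _ (card_filter_le _ _)
  · have h1 : ∀ z ∈ B, D ^ 2 ≤
        ((𝔏 ×ˢ 𝔏).filter (fun p => z ∈ M.closure (p.1 ∪ p.2))).card := by
      intro z hz
      obtain ⟨-, u, hu, hzu, hD⟩ := mem_filter.1 hz
      have h2 := pairs_lower hs h𝔏 (by omega : 2 ≤ n) hJ hu
      refine le_trans ?_ (h2.trans (card_le_card ?_))
      · change D ^ 2 ≤ d u * d u - d u
        have : D ^ 2 + d u ≤ d u * d u := by nlinarith
        omega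
      · intro p hp
        exact mem_filter.2 ⟨(mem_filter.1 hp).1, (mem_filter.1 hp).2 hzu⟩
    have h2 : ∀ p ∈ 𝔏 ×ˢ 𝔏, (B.filter (fun z => z ∈ M.closure (p.1 ∪ p.2))).card ≤ 𝔏.card := by
      intro p hp
      apply card_joint_closure hs h𝔏 (n := n) (fun x hx => hJ x (mem_filter.1 hx).1)
      refine (M.eRk_union_le_eRk_add_eRk _ _).trans ?_
      rw [(h𝔏 _ (mem_product.1 hp).1).2, (h𝔏 _ (mem_product.1 hp).2).2]
      exact_mod_cast hn
    have h3 := card_mul_le_card_mul (s := B) (t := 𝔏 ×ˢ 𝔏)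
      (fun z p => z ∈ M.closure (p.1 ∪ p.2)) (m := D ^ 2) (n := 𝔏.card)
      (fun z hz => by simpa [bipartiteAbove] using h1 z hz)
      (fun p hp => by simpa [bipartiteBelow] using h2 p hp)
    rw [card_product] at h3
    calc B.card * D ^ 2 ≤ _ := h3
      _ = _ := by ring

theorem card_le_real (hs : IsSimple M) {𝔏 : Finset (Set α)} (h𝔏 : ∀ l ∈ 𝔏, IsLine M l)
    {n : ℕ} (hn : 4 ≤ n) {J : Finset α} (hJ : ∀ x ∈ J, IsJoint M 𝔏 n x) :
    (J.card : ℝ) ≤ 3 * (𝔏.card : ℝ) ^ ((5 : ℝ) / 3) := by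
  set L : ℝ := (𝔏.card : ℝ) with hL
  rcases Nat.eq_zero_or_pos 𝔏.card with h0 | hpos
  · obtain ⟨s, b, h1, h2, h3⟩ := card_le_nat hs h𝔏 hn hJ 1
    rw [h0] at h2 h3
    have : J.card = 0 := by omega
    rw [this]
    have : (0 : ℝ) ≤ L := by rw [hL]; exact Nat.cast_nonneg _
    simp only [Nat.cast_zero]
    positivity
  have hL1 : (1 : ℝ) ≤ L := by rw [hL]; exact_mod_cast hpos
  have hL0 : (0 : ℝ) < L := by linarith
  set t : ℝ := L ^ ((1 : ℝ) / 3) with ht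
  have ht1 : 1 ≤ t := Real.one_le_rpow hL1 (by norm_num)
  have ht3 : t ^ 3 = L := by
    rw [ht, ← Real.rpow_natCast, ← Real.rpow_mul hL0.le]; norm_num
  have ht5 : L ^ ((5 : ℝ) / 3) = t ^ 5 := by
    rw [ht, ← Real.rpow_natCast, ← Real.rpow_mul hL0.le]; norm_num
  obtain ⟨s, b, h1, h2, h3⟩ := card_le_nat hs h𝔏 hn hJ ⌈t ^ 2⌉₊
  set D : ℕ := ⌈t ^ 2⌉₊ with hD
  have hD1 : t ^ 2 ≤ D := Nat.le_ceil _
  have hD2 : (D : ℝ) ≤ 2 * t ^ 2 := by
    have := Nat.ceil_lt_add_one (show 0 ≤ t ^ 2 by positivity)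
    have : 1 ≤ t ^ 2 := one_le_pow₀ ht1
    linarith
  have e1 : (J.card : ℝ) ≤ s + b := by exact_mod_cast h1
  have e2 : (s : ℝ) ≤ L * D := by rw [hL]; exact_mod_cast h2
  have e3 : (b : ℝ) * (D : ℝ) ^ 2 ≤ L ^ 3 := by rw [hL]; exact_mod_cast h3
  have ht0 : 0 < t := by linarith
  have e4 : (s : ℝ) ≤ 2 * t ^ 5 := by
    calc (s : ℝ) ≤ L * D := e2
      _ ≤ L * (2 * t ^ 2) := by gcongr
      _ = 2 * t ^ 5 := by rw [← ht3]; ring
  have e5 : (b : ℝ) ≤ t ^ 5 := by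
    have : (b : ℝ) * (t ^ 2) ^ 2 ≤ t ^ 5 * (t ^ 2) ^ 2 := by
      calc (b : ℝ) * (t ^ 2) ^ 2 ≤ (b : ℝ) * (D : ℝ) ^ 2 := by gcongr
        _ ≤ L ^ 3 := e3
        _ = _ := by rw [← ht3]; ring
    exact le_of_mul_le_mul_right this (by positivity)
  rw [ht5]; linarith

end Pool.Agent.H557Z.Joints
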