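import Mathlib

namespace Pool.Agent.H557Z.Mb

open Set Filter Topology

variable {G : Type} [Group G]

/-- The Cayley graph of `G` with respect to `S`: `x` and `y` are adjacent when they are distinct
and `x⁻¹ y` or `y⁻¹ x` lies in `S`. -/
def cay (S : Set G) : SimpleGraph G := SimpleGraph.fromRel fun x y => x⁻¹ * y ∈ S

/-- The word metric. -/
noncomputable def wd (S : Set G) (x y : G) : ℕ := (cay S).dist x y

/-- `q`, restricted to `0, …, L`, is an `(l, e)`-quasi-geodesic. -/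
def IsQG (S : Set G) (l e : ℝ) (L : ℕ) (q : ℕ → G) : Prop :=
  ∀ i ≤ L, ∀ j ≤ L, |(i : ℝ) - j| / l - e ≤ wd S (q i) (q j) ∧
    (wd S (q i) (q j) : ℝ) ≤ l * |(i : ℝ) - j| + e

/-- `Z` (the image of a geodesic) is `N`-Morse: every `(l, e)`-quasi-geodesic with endpoints on
`Z` stays in the `N l e`-neighbourhood of `Z`. -/
def IsMorse (S : Set G) (N : ℝ → ℝ → ℝ) (Z : Set G) : Prop :=
  ∀ l e : ℝ, 1 ≤ l → 0 ≤ e → ∀ (L : ℕ) (q : ℕ → G), IsQG S l e L q → q 0 ∈ Z → q L ∈ Z →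
    ∀ i ≤ L, ∃ z ∈ Z, (wd S (q i) z : ℝ) ≤ N l e

/-- A geodesic ray from the identity. -/
def IsRay (S : Set G) (γ : ℕ → G) : Prop :=
  γ 0 = 1 ∧ ∀ m n : ℕ, (wd S (γ m) (γ n) : ℤ) = |(m : ℤ) - n|

/-- A geodesic segment of length `L` from the identity. -/
def IsSeg (S : Set G) (L : ℕ) (σ : ℕ → G) : Prop :=
  σ 0 = 1 ∧ ∀ m ≤ L, ∀ n ≤ L, (wd S (σ m) (σ n) : ℤ) = |(m : ℤ) - n|

/-- Finite Hausdorff distance between the images of two rays. -/
def Asy (S : Set G) (γ δ : ℕ → G) : Prop :=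
  ∃ B : ℕ, (∀ n, ∃ m, wd S (γ n) (δ m) ≤ B) ∧ ∀ m, ∃ n, wd S (γ n) (δ m) ≤ B

/-- The `N`-Morse geodesic rays from the identity. -/
def MRay (S : Set G) (N : ℝ → ℝ → ℝ) : Type :=
  {γ : ℕ → G // IsRay S γ ∧ IsMorse S N (range γ)}

/-- Uniform convergence on compact sets: pointwise convergence, `G` being discrete. -/
instance (S : Set G) (N : ℝ → ℝ → ℝ) : TopologicalSpace (MRay S N) :=
  TopologicalSpace.induced Subtype.val (@Pi.topologicalSpace ℕ (fun _ => G) fun _ => ⊥)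

/-- The stratum `∂^N`: classes of `N`-Morse rays up to finite Hausdorff distance. -/
def Stratum (S : Set G) (N : ℝ → ℝ → ℝ) : Type :=
  Quot fun γ δ : MRay S N => Asy S γ.1 δ.1

/-- The quotient topology. -/
instance (S : Set G) (N : ℝ → ℝ → ℝ) : TopologicalSpace (Stratum S N) :=
  TopologicalSpace.coinduced (Quot.mk fun γ δ : MRay S N => Asy S γ.1 δ.1) inferInstance

/-- All Morse geodesic rays from the identity. -/
def AllRay (S : Set G) : Type :=
  {γ : ℕ → G // IsRay S γ ∧ ∃ N, IsMorse S N (range γ)}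

/-- The Morse boundary, as a set: classes of Morse rays up to finite Hausdorff distance. -/
def Bdry (S : Set G) : Type := Quot fun γ δ : AllRay S => Asy S γ.1 δ.1

/-- The natural map from a stratum to the Morse boundary. -/
def toBdry (S : Set G) (N : ℝ → ℝ → ℝ) : Stratum S N → Bdry S :=
  Quot.map (fun γ : MRay S N => (⟨γ.1, γ.2.1, N, γ.2.2⟩ : AllRay S)) fun _ _ h => h

/-- The direct limit topology: the finest one making all maps from the strata continuous. -/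
instance (S : Set G) : TopologicalSpace (Bdry S) :=
  ⨆ N, TopologicalSpace.coinduced (toBdry S N) inferInstance

/-- The limit set of `H` in the Morse boundary of `G`. -/
def limitSet (S : Set G) (H : Subgroup G) : Set (Bdry S) :=
  {ξ | ∃ (N : ℝ → ℝ → ℝ) (γ : MRay S N) (σ : ℕ → ℕ → G) (len : ℕ → ℕ),
    ξ = toBdry S N (Quot.mk _ γ) ∧
    (∀ n, IsSeg S (len n) (σ n) ∧ σ n (len n) ∈ H ∧ IsMorse S N (σ n '' Iic (len n))) ∧
    ∀ t, ∀ᶠ n in atTop, t ≤ len n ∧ σ n t = γ.1 t}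

/-- The inclusion `H → G` induces a homeomorphism from the Morse boundary of `H` (word metric of
`T`) onto the limit set of `H`: the class of a Morse ray of `H` is sent to the class of a Morse ray
of `G` at finite Hausdorff distance from it. -/
def LimitSetIsBoundary (S : Set G) (H : Subgroup G) (T : Set H) : Prop :=
  ∃ φ : Bdry T ≃ₜ limitSet S H, ∀ γ : AllRay T, ∃ δ : AllRay S,
    (φ (Quot.mk _ γ) : Bdry S) = Quot.mk _ δ ∧ Asy S (fun n => (γ.1 n : G)) δ.1

/-- `H ∩ g H g⁻¹` is finite for every `g` outside `H`. -/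
def AlmostMalnormal (H : Subgroup G) : Prop :=
  ∀ g, g ∉ H → {h | h ∈ H ∧ g⁻¹ * h * g ∈ H}.Finite

/-- The Cayley graph of `X ⊔ H` with the edges labelled by `H` of the complete subgraph on `H`
removed. -/
def relGraph (X : Set G) (H : Subgroup G) : SimpleGraph G :=
  SimpleGraph.fromRel fun g k => g⁻¹ * k ∈ X ∨ (g⁻¹ * k ∈ H ∧ g ∉ H)

/-- Hyperbolically embedded subgroup (Dahmani, Guirardel, Osin). -/
def HypEmbedded (H : Subgroup G) : Prop :=
  ∃ X : Set G, Subgroup.closure (X ∪ H) = ⊤ ∧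
    (∃ δ : ℕ, ∀ x y z w : G, wd (X ∪ H) x y + wd (X ∪ H) z w ≤
      max (wd (X ∪ H) x z + wd (X ∪ H) y w) (wd (X ∪ H) x w + wd (X ∪ H) y z) + 2 * δ) ∧
    ∀ h ∈ H, ∀ n : ℕ, {k | k ∈ H ∧ (relGraph X H).edist h k ≤ n}.Finite

end Pool.Agent.H557Z.Mb
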