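import Mathlib
import Pool.Agent.H557Z.MbDefs

namespace Pool.Agent.H557Z.Mb

open Set Filter Topology

variable {G : Type} [Group G] {S : Set G}

def Step (S : Set G) (x y : G) : Prop := x⁻¹ * y ∈ S ∨ y⁻¹ * x ∈ S

lemma Step.symm {x y : G} (h : Step S x y) : Step S y x := Or.symm h

lemma Step.mul_left {x y : G} (h : Step S x y) (g : G) : Step S (g * x) (g * y) := by
  unfold Step at *
  simpa [mul_assoc] using h

lemma adj_iff {x y : G} : (cay S).Adj x y ↔ x ≠ y ∧ Step S x y := by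
  simp [cay, Step]

lemma reach_of_step {x y : G} (h : Step S x y) : (cay S).Reachable x y := by
  by_cases hxy : x = y
  · rw [hxy]
  · exact (adj_iff.2 ⟨hxy, h⟩).reachable

lemma conn (hS : Subgroup.closure S = ⊤) : (cay S).Connected := by
  have h : ∀ g : G, (cay S).Reachable 1 g := by
    intro g
    have hg : g ∈ Subgroup.closure S := by rw [hS]; trivial
    induction hg using Subgroup.closure_induction_right with
    | one => rfl
    | mul_right x _ y hy ih => exact ih.trans (reach_of_step (Or.inl (by simpa using hy)))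
    | mul_inv_cancel x _ y hy ih => exact ih.trans (reach_of_step (Or.inr (by simpa using hy)))
  exact ⟨fun x y => (h x).symm.trans (h y)⟩

lemma wd_self (x : G) : wd S x x = 0 := SimpleGraph.dist_self
lemma wd_comm (x y : G) : wd S x y = wd S y x := SimpleGraph.dist_comm

lemma wd_le_one {x y : G} (h : Step S x y) : wd S x y ≤ 1 := by
  by_cases hxy : x = y
  · rw [hxy, wd_self]; omega
  · exact (SimpleGraph.dist_eq_one_iff_adj.2 (adj_iff.2 ⟨hxy, h⟩)).le

lemma step_of_wd {x y : G} (h : wd S x y = 1) : Step S x y :=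
  (adj_iff.1 (SimpleGraph.dist_eq_one_iff_adj.1 h)).2

section
variable (hS : Subgroup.closure S = ⊤)
include hS

lemma wd_tri (x y z : G) : wd S x z ≤ wd S x y + wd S y z := (conn hS).dist_triangle

lemma wd_eq_zero {x y : G} (h : wd S x y = 0) : x = y := (conn hS).dist_eq_zero_iff.1 h

lemma first_step {x y : G} {n : ℕ} (h : wd S x y = n + 1) : ∃ w, Step S x w ∧ wd S w y = n := by
  obtain ⟨p, hp⟩ := (conn hS).exists_walk_length_eq_dist x y
  cases p with
  | nil => simp [wd] at h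
  | cons hadj q =>
    rename_i w
    refine ⟨w, (adj_iff.1 hadj).2, ?_⟩
    have h1 : wd S w y ≤ q.length := SimpleGraph.dist_le q
    have h2 := wd_tri hS x w y
    have h3 := wd_le_one (adj_iff.1 hadj).2
    simp only [SimpleGraph.Walk.length_cons] at hp
    unfold wd at *
    omega

lemma lip_int (f : G → ℤ) (hf : ∀ x y, Step S x y → |f x - f y| ≤ 1) (x y : G) :
    |f x - f y| ≤ wd S x y := by
  obtain ⟨n, hn⟩ : ∃ n, wd S x y = n := ⟨_, rfl⟩
  induction n generalizing x with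
  | zero => rw [wd_eq_zero hS hn]; simp
  | succ n ih =>
    obtain ⟨w, hw, hwy⟩ := first_step hS hn
    have h1 := ih w hwy
    have h2 := hf x w hw
    rw [hn]
    rw [hwy] at h1
    rw [abs_le] at *
    push_cast
    constructor <;> omega

lemma lip_map {G' : Type} [Group G'] {S' : Set G'} (hS' : Subgroup.closure S' = ⊤) (f : G → G')
    (hf : ∀ x y, Step S x y → wd S' (f x) (f y) ≤ 1) (x y : G) :
    wd S' (f x) (f y) ≤ wd S x y := by
  obtain ⟨n, hn⟩ : ∃ n, wd S x y = n := ⟨_, rfl⟩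
  induction n generalizing x with
  | zero => rw [wd_eq_zero hS hn, wd_self]; omega
  | succ n ih =>
    obtain ⟨w, hw, hwy⟩ := first_step hS hn
    have h1 := ih w hwy
    have h2 := hf x w hw
    have h3 := wd_tri hS' (f x) (f w) (f y)
    omega

lemma wd_mul_left (g x y : G) : wd S (g * x) (g * y) = wd S x y := by
  have h : ∀ g x y : G, wd S (g * x) (g * y) ≤ wd S x y := fun g =>
    lip_map hS hS (fun x => g * x) fun x y h => wd_le_one (h.mul_left g)
  refine le_antisymm (h g x y) ?_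
  simpa using h g⁻¹ (g * x) (g * y)

lemma wd_eq (x y : G) : wd S x y = wd S 1 (x⁻¹ * y) := by
  rw [← wd_mul_left hS x⁻¹ x y, inv_mul_cancel]

lemma wd_mul_le (x y : G) : wd S 1 (x * y) ≤ wd S 1 x + wd S 1 y := by
  have := wd_tri hS 1 x (x * y)
  rw [wd_eq hS x (x * y), inv_mul_cancel_left] at this
  exact this

lemma wd_zpow {s : G} (hs : wd S 1 s ≤ 1) (n : ℤ) : (wd S 1 (s ^ n) : ℤ) ≤ |n| := by
  have hp : ∀ k : ℕ, wd S 1 (s ^ k) ≤ k := by
    intro k
    induction k with
    | zero => simp [wd_self]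
    | succ k ih =>
      rw [pow_succ]
      have := wd_mul_le hS (s ^ k) s
      omega
  obtain ⟨k, rfl | rfl⟩ := Int.eq_nat_or_neg n
  · simpa using hp k
  · have : wd S 1 (s ^ (-(k : ℤ))) = wd S 1 (s ^ k) := by
      rw [wd_comm, wd_eq hS]
      simp
    rw [this]
    simpa using hp k

lemma Asy.refl (γ : ℕ → G) : Asy S γ γ :=
  ⟨0, fun n => ⟨n, (wd_self _).le⟩, fun n => ⟨n, (wd_self _).le⟩⟩

lemma asy_equiv : Equivalence (Asy S) := by
  refine ⟨Asy.refl hS, ?_, ?_⟩
  · rintro γ δ ⟨B, h1, h2⟩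
    refine ⟨B, fun n => ?_, fun n => ?_⟩
    · obtain ⟨m, hm⟩ := h2 n
      exact ⟨m, by rwa [wd_comm]⟩
    · obtain ⟨m, hm⟩ := h1 n
      exact ⟨m, by rwa [wd_comm]⟩
  · rintro γ δ ε ⟨B, h1, h2⟩ ⟨B', h3, h4⟩
    refine ⟨B + B', fun n => ?_, fun n => ?_⟩
    · obtain ⟨m, hm⟩ := h1 n
      obtain ⟨k, hk⟩ := h3 m
      exact ⟨k, (wd_tri hS _ _ _).trans (add_le_add hm hk)⟩
    · obtain ⟨m, hm⟩ := h4 n
      obtain ⟨k, hk⟩ := h2 m
      exact ⟨k, (wd_tri hS _ _ _).trans (add_le_add hk hm)⟩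

lemma bdry_eq {γ δ : AllRay S} :
    (Quot.mk _ γ : Bdry S) = Quot.mk _ δ ↔ Asy S γ.1 δ.1 := by
  have he : Equivalence fun γ δ : AllRay S => Asy S γ.1 δ.1 :=
    ⟨fun γ => (asy_equiv hS).refl _, fun h => (asy_equiv hS).symm h,
      fun h h' => (asy_equiv hS).trans h h'⟩
  exact Quot.eq.trans he.eqvGen_iff

end

end Pool.Agent.H557Z.Mb
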