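import Mathlib
import Pool.Agent.H557Z.MbWord

namespace Pool.Agent.H557Z.Mb

open Set Monoid

abbrev K := ℤ × ℤ
abbrev R := AddMonoidAlgebra ℤ K

noncomputable def Xp (p : K) : R := AddMonoidAlgebra.single p 1

lemma Xp_add (p q : K) : Xp (p + q) = Xp p * Xp q := by
  simp [Xp, AddMonoidAlgebra.single_mul_single]

lemma Xp_zero : Xp 0 = 1 := rfl

lemma Xp_inj {p q : K} (h : Xp p = Xp q) : p = q :=
  (AddMonoidAlgebra.single_left_inj one_ne_zero).1 h

lemma Xp_neg_mul (p : K) : Xp (-p) * Xp p = 1 := by rw [← Xp_add, neg_add_cancel, Xp_zero]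

lemma Xp_ne_zero (p : K) : Xp p ≠ 0 := by
  intro h
  have := Xp_neg_mul p
  rw [h, mul_zero] at this
  exact zero_ne_one this

lemma one_add_Xp_ne (p : K) : 1 + Xp p ≠ 0 := by
  intro h
  have h1 : Xp p = -1 := by linear_combination h
  have h2 : Xp (p + p) = Xp 0 := by rw [Xp_add, h1, Xp_zero]; ring
  have h3 : p = 0 := by
    have := Xp_inj h2
    ext
    · have := congrArg Prod.fst this
      simp only [Prod.fst_add, Prod.fst_zero] at this ⊢
      omega
    · have := congrArg Prod.snd this
      simp only [Prod.snd_add, Prod.snd_zero] at this ⊢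
      omega
  rw [h3, Xp_zero] at h
  rw [AddMonoidAlgebra.one_def, ← AddMonoidAlgebra.single_add] at h
  have h4 := AddMonoidAlgebra.single_eq_zero.1 h
  norm_num at h4

/-- The wreath product of `ℤ` by `ℤ²`. -/
@[ext] structure B where
  l : R
  p : K

noncomputable instance : Mul B := ⟨fun x y => ⟨x.l + Xp x.p * y.l, x.p + y.p⟩⟩
noncomputable instance : One B := ⟨⟨0, 0⟩⟩
noncomputable instance : Inv B := ⟨fun x => ⟨-(Xp (-x.p) * x.l), -x.p⟩⟩

@[simp] lemma mul_l (x y : B) : (x * y).l = x.l + Xp x.p * y.l := rfl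
@[simp] lemma mul_p (x y : B) : (x * y).p = x.p + y.p := rfl
@[simp] lemma one_l : (1 : B).l = 0 := rfl
@[simp] lemma one_p : (1 : B).p = 0 := rfl
@[simp] lemma inv_l (x : B) : (x⁻¹).l = -(Xp (-x.p) * x.l) := rfl
@[simp] lemma inv_p (x : B) : (x⁻¹).p = -x.p := rfl

noncomputable instance : Group B := Group.ofLeftAxioms
  (fun x y z => by
    refine B.ext ?_ ?_
    · simp only [mul_l, mul_p, Xp_add]; ring
    · simp [add_assoc])
  (fun x => by
    refine B.ext ?_ ?_
    · simp [Xp_zero]
    · simp)
  (fun x => by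
    refine B.ext ?_ ?_
    · simp
    · simp)

abbrev GG := Coprod B (Multiplicative ℤ)

noncomputable def tauB : Multiplicative K →* B where
  toFun p := ⟨0, p.toAdd⟩
  map_one' := rfl
  map_mul' x y := by
    refine B.ext ?_ ?_ <;> simp

noncomputable def lamB : Multiplicative R →* B where
  toFun f := ⟨f.toAdd, 0⟩
  map_one' := rfl
  map_mul' x y := by
    refine B.ext ?_ ?_ <;> simp [Xp_zero]

noncomputable def tau (p : K) : GG := Coprod.inl ⟨0, p⟩
noncomputable def lam (f : R) : GG := Coprod.inl ⟨f, 0⟩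

lemma tau_add (p q : K) : tau (p + q) = tau p * tau q := by
  rw [tau, tau, tau, ← map_mul]
  congr 1
  refine B.ext ?_ ?_ <;> simp

lemma tau_zero : tau 0 = 1 := map_one Coprod.inl

lemma tau_neg (p : K) : tau (-p) = (tau p)⁻¹ := by
  rw [eq_inv_iff_mul_eq_one, ← tau_add, neg_add_cancel, tau_zero]

lemma tau_zsmul (n : ℤ) (p : K) : tau (n • p) = tau p ^ n := by
  have := map_zpow (Coprod.inl.comp tauB : Multiplicative K →* GG) (Multiplicative.ofAdd p) n
  exact this

lemma lam_add (f g : R) : lam (f + g) = lam f * lam g := by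
  rw [lam, lam, lam, ← map_mul]
  congr 1
  refine B.ext ?_ ?_ <;> simp [Xp_zero]

lemma lam_zsmul (n : ℤ) (f : R) : lam (n • f) = lam f ^ n := by
  have := map_zpow (Coprod.inl.comp lamB : Multiplicative R →* GG) (Multiplicative.ofAdd f) n
  exact this

lemma tau_mul_lam (p : K) (f : R) : tau p * lam f = lam (Xp p * f) * tau p := by
  rw [tau, lam, lam, ← map_mul, ← map_mul]
  congr 1
  refine B.ext ?_ ?_ <;> simp

noncomputable def t1 : GG := tau (1, 0)
noncomputable def t2 : GG := tau (0, 1)
noncomputable def aa : GG := lam 1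
noncomputable def zz : GG := Coprod.inr (Multiplicative.ofAdd 1)

def SS : Set GG := {t1, t2, aa, zz}
def S0 : Set GG := {t1, t2, zz}
noncomputable def HH : Subgroup GG := Subgroup.closure S0
def TT : Set HH := {h | (h : GG) ∈ S0}

lemma tau_eq (p : K) : tau p = t1 ^ p.1 * t2 ^ p.2 := by
  rw [t1, t2, ← tau_zsmul, ← tau_zsmul, ← tau_add]
  congr 1
  ext <;> simp

lemma S0_sub : S0 ⊆ SS := by
  rintro x (rfl | rfl | rfl) <;> simp [SS]

lemma tau_mem (p : K) : tau p ∈ HH := by
  rw [tau_eq]
  exact HH.mul_mem (HH.zpow_mem (Subgroup.subset_closure (by simp [S0])) _)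
    (HH.zpow_mem (Subgroup.subset_closure (by simp [S0])) _)

lemma zz_mem : zz ∈ HH := Subgroup.subset_closure (by simp [S0])

lemma SS_gen : Subgroup.closure SS = ⊤ := by
  rw [eq_top_iff]
  intro g _
  have hH : HH ≤ Subgroup.closure SS := Subgroup.closure_mono S0_sub
  have hl : ∀ f : R, lam f ∈ Subgroup.closure SS := by
    intro f
    induction f using AddMonoidAlgebra.induction_on with
    | of p =>
      have h1 : lam (Xp p) = tau p * aa * (tau p)⁻¹ := by
        rw [aa, tau_mul_lam]; simp
      have h2 : lam (Xp p) ∈ Subgroup.closure SS := by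
        rw [h1]
        exact mul_mem (mul_mem (hH (tau_mem p)) (Subgroup.subset_closure (by simp [SS])))
          (inv_mem (hH (tau_mem p)))
      exact h2
    | add f g hf hg => rw [lam_add]; exact mul_mem hf hg
    | smul n f hf => rw [lam_zsmul]; exact zpow_mem hf n
  induction g using Coprod.induction_on with
  | inl b =>
    have : (Coprod.inl b : GG) = lam b.l * tau b.p := by
      rw [tau, lam, ← map_mul]
      congr 1
      refine B.ext ?_ ?_ <;> simp
    rw [this]
    exact mul_mem (hl _) (hH (tau_mem _))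
  | inr n =>
    have : (Coprod.inr n : GG) = zz ^ n.toAdd := by
      rw [zz, ← map_zpow]
      congr 1
      rw [← ofAdd_zsmul]
      simp
    rw [this]
    exact zpow_mem (hH zz_mem) _
  | mul x y hx hy => exact mul_mem (hx trivial) (hy trivial)

lemma TT_gen : Subgroup.closure TT = ⊤ := Subgroup.closure_closure_coe_preimage

lemma SS_finite : SS.Finite := by unfold SS; exact Set.toFinite _

lemma TT_finite : TT.Finite := by
  have : S0.Finite := by unfold S0; exact Set.toFinite _
  exact this.preimage Subtype.val_injective.injOn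

/-- projection to the wreath product -/
noncomputable def piB : GG →* B := Coprod.fst

@[simp] lemma piB_tau (p : K) : piB (tau p) = ⟨0, p⟩ := rfl
@[simp] lemma piB_lam (f : R) : piB (lam f) = ⟨f, 0⟩ := rfl
@[simp] lemma piB_zz : piB zz = 1 := rfl
lemma piB_inl (b : B) : piB (Coprod.inl b) = b := rfl

lemma lamp_zero {h : GG} (hh : h ∈ HH) : (piB h).l = 0 := by
  induction hh using Subgroup.closure_induction with
  | mem x hx => rcases hx with rfl | rfl | rfl <;> simp [t1, t2]
  | one => simp
  | mul x y _ _ hx hy => simp [hx, hy]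
  | inv x _ hx => simp [hx]

noncomputable def rB : B →* B where
  toFun x := ⟨0, x.p⟩
  map_one' := rfl
  map_mul' x y := by
    refine B.ext ?_ ?_ <;> simp

/-- the retraction onto `H` -/
noncomputable def rr : GG →* GG := Coprod.map rB (MonoidHom.id _)

lemma rr_tau (p : K) : rr (tau p) = tau p := rfl
lemma rr_aa : rr aa = 1 := map_one Coprod.inl
lemma rr_zz : rr zz = zz := rfl

lemma rr_fix {h : GG} (hh : h ∈ HH) : rr h = h := by
  induction hh using Subgroup.closure_induction with
  | mem x hx => rcases hx with rfl | rfl | rfl <;> rfl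
  | one => simp
  | mul x y _ _ hx hy => simp [hx, hy]
  | inv x _ hx => simp [hx]

lemma rr_gen {s : GG} (hs : s ∈ SS) : rr s ∈ S0 ∨ rr s = 1 := by
  rcases hs with rfl | rfl | rfl | rfl
  · left; rw [t1, rr_tau]; exact Or.inl rfl
  · left; rw [t2, rr_tau]; exact Or.inr (Or.inl rfl)
  · right; exact rr_aa
  · left; rw [rr_zz]; exact Or.inr (Or.inr rfl)

lemma rr_mem (g : GG) : rr g ∈ HH := by
  have hg : g ∈ Subgroup.closure SS := by rw [SS_gen]; trivial
  induction hg using Subgroup.closure_induction with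
  | mem x hx =>
    rcases rr_gen hx with h | h
    · exact Subgroup.subset_closure h
    · rw [h]; exact one_mem _
  | one => simp
  | mul x y _ _ hx hy => rw [map_mul]; exact mul_mem hx hy
  | inv x _ hx => rw [map_inv]; exact inv_mem hx

/-- the exponent of `z` -/
noncomputable def zc (g : GG) : ℤ := (Coprod.snd g : Multiplicative ℤ).toAdd

lemma zc_mul (x y : GG) : zc (x * y) = zc x + zc y := by simp [zc]
lemma zc_inv (x : GG) : zc x⁻¹ = -zc x := by simp [zc]
lemma zc_zz : zc zz = 1 := rfl
lemma zc_tau (p : K) : zc (tau p) = 0 := rfl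
lemma zc_lam (f : R) : zc (lam f) = 0 := rfl
lemma zc_zpow (n : ℕ) : zc (zz ^ n) = n := by
  induction n with
  | zero => simp [zc]
  | succ n ih => rw [pow_succ, zc_mul, ih, zc_zz]; push_cast; ring

open Classical in
noncomputable def Zp : Equiv.Perm (GG × ℤ) where
  toFun x := (x.1 * zz⁻¹, x.2 - if x.1 * zz⁻¹ = 1 then 1 else 0)
  invFun x := (x.1 * zz, x.2 + if x.1 = 1 then 1 else 0)
  left_inv x := by simp
  right_inv x := by simp

noncomputable def rhoB : B →* Equiv.Perm (GG × ℤ) where
  toFun b := (Equiv.mulRight (Coprod.inl b : GG)⁻¹).prodCongr (Equiv.refl ℤ)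
  map_one' := by ext x <;> simp
  map_mul' x y := by ext w <;> simp [mul_assoc]

noncomputable def rho : GG →* Equiv.Perm (GG × ℤ) := Coprod.lift rhoB (zpowersHom _ Zp)

lemma rho_inl (b : B) (x : GG × ℤ) : rho (Coprod.inl b) x = (x.1 * (Coprod.inl b)⁻¹, x.2) := rfl

lemma rho_zz : rho zz = Zp := by simp [rho, zz]

lemma rho_fst (g : GG) : ∀ x : GG × ℤ, (rho g x).1 = x.1 * g⁻¹ := by
  have hg : g ∈ Subgroup.closure SS := by rw [SS_gen]; trivial
  induction hg using Subgroup.closure_induction with
  | mem s hs =>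
    rcases hs with rfl | rfl | rfl | rfl
    · intro x; rfl
    · intro x; rfl
    · intro x; rfl
    · intro x; rw [rho_zz]; rfl
  | one => simp
  | mul x y _ _ hx hy => intro w; simp [hx, hy, mul_assoc]
  | inv x _ hx =>
    intro w
    have := hx (rho x⁻¹ w)
    rw [← Equiv.Perm.mul_apply, ← map_mul, mul_inv_cancel, map_one, Equiv.Perm.one_apply] at this
    rw [this]
    simp

/-- signed number of crossings of the edge from `1` to `z` -/
noncomputable def chi (g : GG) : ℤ := (rho g⁻¹ (1, 0)).2

lemma rho_inv_eq (g : GG) : rho g⁻¹ (1, 0) = (g, chi g) := by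
  ext
  · rw [rho_fst]; simp
  · rfl

lemma chi_inl (g : GG) (b : B) : chi (g * Coprod.inl b) = chi g := by
  rw [chi, mul_inv_rev, map_mul, Equiv.Perm.mul_apply, rho_inv_eq, ← map_inv, rho_inl]

open Classical in
lemma chi_zz (g : GG) : chi (g * zz) = chi g + if g = 1 then 1 else 0 := by
  rw [chi, mul_inv_rev, map_mul, Equiv.Perm.mul_apply, rho_inv_eq, map_inv, rho_zz]
  rfl

end Pool.Agent.H557Z.Mb
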