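import Mathlib
import Pool.Agent.H557Z.MbGroup

namespace Pool.Agent.H557Z.Mb

open Set Monoid

lemma step_cases {x y : GG} (h : Step SS x y) : ∃ s ∈ SS, y = x * s ∨ x = y * s := by
  rcases h with h | h
  · exact ⟨_, h, Or.inl (by simp)⟩
  · exact ⟨_, h, Or.inr (by simp)⟩

lemma step_mul {s : GG} (hs : s ∈ SS) (x : GG) : Step SS x (x * s) := Or.inl (by simpa using hs)

lemma tri (x y z : GG) : wd SS x z ≤ wd SS x y + wd SS y z := wd_tri SS_gen x y z

noncomputable def rH (x : GG) : HH := ⟨rr x, rr_mem x⟩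

lemma rH_lip (x y : GG) : wd TT (rH x) (rH y) ≤ wd SS x y := by
  refine lip_map SS_gen TT_gen rH ?_ x y
  have key : ∀ x s, s ∈ SS → wd TT (rH x) (rH (x * s)) ≤ 1 := by
    intro x s hs
    rcases rr_gen hs with h | h
    · apply wd_le_one
      left
      change ((rH x)⁻¹ * rH (x * s) : HH).1 ∈ S0
      simpa [rH] using h
    · have : rH (x * s) = rH x := by simp [rH, h]
      rw [this, wd_self]
      omega
  intro x y h
  obtain ⟨s, hs, rfl | rfl⟩ := step_cases h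
  · exact key _ _ hs
  · rw [wd_comm]; exact key _ _ hs

lemma val_lip (h k : HH) : wd SS (h : GG) k ≤ wd TT h k := by
  refine lip_map TT_gen SS_gen Subtype.val ?_ h k
  intro x y hxy
  apply wd_le_one
  rcases hxy with h | h
  · exact Or.inl (S0_sub h)
  · exact Or.inr (S0_sub h)

lemma wd_T (h k : HH) : wd TT h k = wd SS (h : GG) k := by
  refine le_antisymm ?_ (val_lip h k)
  have := rH_lip h k
  have e : ∀ h : HH, rH h = h := fun h => Subtype.ext (rr_fix h.2)
  rwa [e, e] at this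

lemma rr_lip (x y : GG) : wd SS (rr x) (rr y) ≤ wd SS x y := (val_lip (rH x) (rH y)).trans (rH_lip x y)

lemma gen_cases {s : GG} (hs : s ∈ SS) : s ∈ HH ∨ s = aa := by
  rcases hs with rfl | rfl | rfl | rfl
  · exact Or.inl (tau_mem _)
  · exact Or.inl (tau_mem _)
  · exact Or.inr rfl
  · exact Or.inl zz_mem

lemma step_H {x y : GG} (h : Step SS x y) (hx : x ∈ HH) : y ∈ HH ∨ rr y = rr x := by
  obtain ⟨s, hs, rfl | rfl⟩ := step_cases h
  · rcases gen_cases hs with h | rfl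
    · exact Or.inl (mul_mem hx h)
    · right; simp [rr_aa]
  · rcases gen_cases hs with h | rfl
    · exact Or.inl ((HH.mul_mem_cancel_right h).1 hx)
    · right; simp [rr_aa]

lemma conv {x y w : GG} (hx : x ∈ HH) (hy : y ∈ HH) (h : wd SS x w + wd SS w y = wd SS x y) :
    w ∈ HH := by
  obtain ⟨n, hn⟩ : ∃ n, wd SS x w = n := ⟨_, rfl⟩
  induction n generalizing x with
  | zero => rwa [← wd_eq_zero SS_gen hn]
  | succ n ih =>
    obtain ⟨x1, hx1, hw⟩ := first_step SS_gen hn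
    have h1 := tri x1 w y
    have h2 := tri x x1 y
    have h3 := wd_le_one hx1
    rcases step_H hx1 hx with h4 | h4
    · exact ih h4 (by omega) hw
    · have h5 := rr_lip x1 y
      rw [h4, rr_fix hx, rr_fix hy] at h5
      omega

noncomputable def ce (e x : GG) : ℤ := chi (e⁻¹ * x)

def ZE (e x y : GG) : Prop := (x = e ∧ y = e * zz) ∨ (y = e ∧ x = e * zz)

lemma ZE.symm {e x y : GG} (h : ZE e x y) : ZE e y x := Or.symm h

lemma ce_edge (e : GG) : ce e (e * zz) = ce e e + 1 := by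
  rw [ce, ce, ← mul_assoc, chi_zz]
  simp

lemma ZE.ne {e x y : GG} (h : ZE e x y) : ce e x ≠ ce e y := by
  rcases h with ⟨rfl, rfl⟩ | ⟨rfl, rfl⟩ <;> rw [ce_edge] <;> omega

lemma ce_step {x y : GG} (h : Step SS x y) (e : GG) : ce e x = ce e y ∨ ZE e x y := by
  have key : ∀ x s, s ∈ SS → ce e x = ce e (x * s) ∨ ZE e x (x * s) := by
    intro x s hs
    rcases hs with rfl | rfl | rfl | rfl
    · left; rw [ce, ce, ← mul_assoc, t1, tau, chi_inl]
    · left; rw [ce, ce, ← mul_assoc, t2, tau, chi_inl]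
    · left; rw [ce, ce, ← mul_assoc, aa, lam, chi_inl]
    · by_cases hx : x = e
      · right; left; exact ⟨hx, by rw [hx]⟩
      · left
        rw [ce, ce, ← mul_assoc, chi_zz, if_neg]
        · simp
        · intro h
          exact hx (inv_mul_eq_one.1 h).symm
  obtain ⟨s, hs, rfl | rfl⟩ := step_cases h
  · exact key _ _ hs
  · rcases key y s hs with h | h
    · exact Or.inl h.symm
    · exact Or.inr h.symm

lemma near {e x y : GG} (h : ce e x ≠ ce e y) : wd SS x e + wd SS e y ≤ wd SS x y := by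
  obtain ⟨n, hn⟩ : ∃ n, wd SS x y = n := ⟨_, rfl⟩
  induction n generalizing x with
  | zero => exact absurd (by rw [wd_eq_zero SS_gen hn]) h
  | succ n ih =>
    obtain ⟨w, hw, hwy⟩ := first_step SS_gen hn
    have h3 := wd_le_one hw
    rcases ce_step hw e with h1 | ⟨rfl, -⟩ | ⟨rfl, -⟩
    · have h2 := ih (by rwa [← h1]) hwy
      have h4 := tri x w e
      omega
    · rw [wd_self]; omega
    · omega

def Geo (γ : ℕ → GG) : Prop := ∀ m n : ℕ, (wd SS (γ m) (γ n) : ℤ) = |(m : ℤ) - n|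

lemma Geo.inj {γ : ℕ → GG} (h : Geo γ) {m n : ℕ} (e : γ m = γ n) : m = n := by
  have := h m n
  rw [e, wd_self] at this
  have := abs_eq_zero.1 this.symm
  omega

lemma Geo.step {γ : ℕ → GG} (h : Geo γ) (n : ℕ) : Step SS (γ n) (γ (n + 1)) := by
  apply step_of_wd
  have := h n (n + 1)
  push_cast at this
  rw [show (n : ℤ) - (n + 1) = -1 by ring, abs_neg, abs_one] at this
  exact_mod_cast this

lemma Geo.le {γ : ℕ → GG} (h : Geo γ) {m n : ℕ} (hmn : m ≤ n) : wd SS (γ m) (γ n) = n - m := by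
  have := h m n
  rw [abs_of_nonpos (by omega)] at this
  omega

lemma Geo.cross {γ : ℕ → GG} (h : Geo γ) {e : GG} {t : ℕ} (ht : ZE e (γ t) (γ (t + 1)))
    {s s' : ℕ} (hs : s ≤ t) (hs' : t < s') : ce e (γ s) ≠ ce e (γ s') := by
  have key : ∀ j, j ≠ t → ce e (γ j) = ce e (γ (j + 1)) := by
    intro j hj
    rcases ce_step (h.step j) e with h1 | h1
    · exact h1
    · exfalso
      rcases h1 with ⟨h1, h2⟩ | ⟨h1, h2⟩ <;> rcases ht with ⟨h3, h4⟩ | ⟨h3, h4⟩
      · exact hj (h.inj (h1.trans h3.symm))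
      · have := h.inj (h1.trans h3.symm)
        have := h.inj (h2.trans h4.symm)
        omega
      · have := h.inj (h1.trans h3.symm)
        have := h.inj (h2.trans h4.symm)
        omega
      · exact hj (h.inj (h2.trans h4.symm))
  have h1 : ∀ k, k ≤ t → ce e (γ (t - k)) = ce e (γ t) := by
    intro k
    induction k with
    | zero => simp
    | succ k ih =>
      intro hk
      rw [← ih (by omega), key _ (by omega)]
      congr 2
      omega
  have h2 : ∀ k, ce e (γ (t + 1 + k)) = ce e (γ (t + 1)) := by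
    intro k
    induction k with
    | zero => simp
    | succ k ih => rw [← ih, key (t + 1 + k) (by omega)]; rfl
  have h3 := h1 (t - s) (by omega)
  have h4 := h2 (s' - (t + 1))
  rw [show t - (t - s) = s by omega] at h3
  rw [show t + 1 + (s' - (t + 1)) = s' by omega] at h4
  rw [h3, h4]
  exact ht.ne

lemma ZE.dist {e x y : GG} (h : ZE e x y) : wd SS e x ≤ 1 := by
  rcases h with ⟨rfl, -⟩ | ⟨-, rfl⟩
  · rw [wd_self]; omega
  · exact wd_le_one (step_mul (by simp [SS]) _)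

def IsZ (γ : ℕ → GG) (t : ℕ) : Prop := ∃ e, ZE e (γ t) (γ (t + 1))

def Gaps (D : ℕ) (γ : ℕ → GG) : Prop := ∀ s, ∃ t, s ≤ t ∧ t < s + D ∧ IsZ γ t

lemma ivt (f : ℕ → ℤ) {i k : ℕ} (hik : i ≤ k) (h : f i ≠ f k) :
    ∃ j, i ≤ j ∧ j < k ∧ f j ≠ f (j + 1) := by
  induction k, hik using Nat.le_induction with
  | base => exact absurd rfl h
  | succ k hk ih =>
    by_cases h1 : f i = f k
    · exact ⟨k, hk, by omega, by rwa [← h1]⟩
    · obtain ⟨j, h2, h3, h4⟩ := ih h1
      exact ⟨j, h2, by omega, h4⟩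

noncomputable def NN (D : ℕ) (l e : ℝ) : ℝ :=
  l * (l * (2 * (l + e + 1) + D + 1 + e)) + e + (l + e + 1)

lemma morse_le {γ : ℕ → GG} (hγ : Geo γ) {D : ℕ} (hD : Gaps D γ) {l e : ℝ} (hl : 1 ≤ l)
    (he : 0 ≤ e) {L : ℕ} {q : ℕ → GG} (hq : IsQG SS l e L q) {a b : ℕ} (hab : a ≤ b)
    (ha : q 0 = γ a) (hb : q L = γ b) {i : ℕ} (hi : i ≤ L) :
    ∃ t, t ≤ b ∧ (wd SS (q i) (γ t) : ℝ) ≤ NN D l e := by
  classical
  let P : ℕ → Prop := fun t => a ≤ t ∧ ∃ j ≤ i, (wd SS (q j) (γ t) : ℝ) ≤ l + e + 1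
  have hPa : P a := ⟨le_rfl, 0, by omega, by rw [ha, wd_self]; push_cast; linarith⟩
  have h1 : P (Nat.findGreatest P b) := Nat.findGreatest_spec hab hPa
  have h2 : Nat.findGreatest P b ≤ b := Nat.findGreatest_le b
  have h3 : ∀ t, Nat.findGreatest P b < t → t ≤ b → ¬ P t := fun t h h' =>
    Nat.findGreatest_is_greatest h h'
  generalize Nat.findGreatest P b = t1 at h1 h2 h3
  obtain ⟨hat, j, hji, hj⟩ := h1
  have hjump : ∀ e' t k, ZE e' (γ t) (γ (t + 1)) → k < L → ce e' (q k) ≠ ce e' (q (k + 1)) →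
      (wd SS (q k) (γ t) : ℝ) ≤ l + e + 1 := by
    intro e' t k hz hk hne
    have h4 := near hne
    have h5 := (hq k (by omega) (k + 1) (by omega)).2
    have h6 := hz.dist
    have h7 := tri (q k) e' (γ t)
    have h8 : wd SS (q k) (γ t) ≤ wd SS (q k) (q (k + 1)) + 1 := by omega
    have h9 : (wd SS (q k) (γ t) : ℝ) ≤ wd SS (q k) (q (k + 1)) + 1 := by exact_mod_cast h8
    push_cast at h5
    rw [show (k : ℝ) - (k + 1) = -1 by ring] at h5
    simp only [abs_neg, abs_one, mul_one] at h5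
    linarith
  obtain ⟨j', hij, hjL, t, ht1, htD, htb, hj'⟩ : ∃ j', i ≤ j' ∧ j' ≤ L ∧ ∃ t, t1 ≤ t ∧
      t ≤ t1 + D + 1 ∧ t ≤ b ∧ (wd SS (q j') (γ t) : ℝ) ≤ l + e + 1 := by
    by_cases hb' : b ≤ t1 + D + 1
    · exact ⟨L, hi, le_rfl, b, h2, hb', le_rfl, by rw [hb, wd_self]; push_cast; linarith⟩
    · obtain ⟨t, ht1, ht2, e', hz⟩ := hD (t1 + 1)
      have hne := hγ.cross hz (s := a) (s' := b) (by omega) (by omega)
      rw [← ha, ← hb] at hne
      by_cases h4 : ce e' (q 0) = ce e' (q i)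
      · rw [h4] at hne
        obtain ⟨k, hk1, hk2, hk3⟩ := ivt (fun k => ce e' (q k)) hi hne
        exact ⟨k, hk1, by omega, t, by omega, by omega, by omega, hjump e' t k hz hk2 hk3⟩
      · obtain ⟨k, hk1, hk2, hk3⟩ := ivt (fun k => ce e' (q k)) (Nat.zero_le i) h4
        exact absurd ⟨by omega, k, by omega, hjump e' t k hz (by omega) hk3⟩
          (h3 t (by omega) (by omega))
  refine ⟨t, htb, ?_⟩
  have h4 : wd SS (γ t1) (γ t) ≤ D + 1 := by rw [hγ.le ht1]; omega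
  have h5 := tri (q j) (γ t1) (q j')
  have h6 := tri (γ t1) (γ t) (q j')
  have h7 := wd_comm (S := SS) (γ t) (q j')
  have h8 : (wd SS (q j) (q j') : ℝ) ≤ 2 * (l + e + 1) + D + 1 := by
    have : wd SS (q j) (q j') ≤ wd SS (q j) (γ t1) + (D + 1) + wd SS (q j') (γ t) := by omega
    have : (wd SS (q j) (q j') : ℝ) ≤ wd SS (q j) (γ t1) + (D + 1) + wd SS (q j') (γ t) := by
      exact_mod_cast this
    linarith
  have h9 := (hq j (by omega) j' hjL).1
  have h10 := (hq i hi j' hjL).2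
  have h11 : |(j : ℝ) - j'| ≤ l * (2 * (l + e + 1) + D + 1 + e) := by
    rw [sub_le_iff_le_add, div_le_iff₀ (by linarith)] at h9
    nlinarith
  have h12 : |(i : ℝ) - j'| ≤ |(j : ℝ) - j'| := by
    have a1 : (j : ℝ) ≤ i := by exact_mod_cast hji
    have a2 : (i : ℝ) ≤ j' := by exact_mod_cast hij
    rw [abs_of_nonpos (by linarith), abs_of_nonpos (by linarith)]
    linarith
  have h13 := tri (q i) (q j') (γ t)
  have h14 : (wd SS (q i) (γ t) : ℝ) ≤ wd SS (q i) (q j') + wd SS (q j') (γ t) := by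
    exact_mod_cast h13
  have h15 : l * |(i : ℝ) - j'| ≤ l * (l * (2 * (l + e + 1) + D + 1 + e)) :=
    mul_le_mul_of_nonneg_left (h12.trans h11) (by linarith)
  unfold NN
  linarith

lemma morse_main {γ : ℕ → GG} (hγ : Geo γ) {D : ℕ} (hD : Gaps D γ) {l e : ℝ} (hl : 1 ≤ l)
    (he : 0 ≤ e) {L : ℕ} {q : ℕ → GG} (hq : IsQG SS l e L q) {a b : ℕ}
    (ha : q 0 = γ a) (hb : q L = γ b) {i : ℕ} (hi : i ≤ L) :
    ∃ t, t ≤ max a b ∧ (wd SS (q i) (γ t) : ℝ) ≤ NN D l e := by
  rcases le_total a b with hab | hab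
  · obtain ⟨t, h1, h2⟩ := morse_le hγ hD hl he hq hab ha hb hi
    exact ⟨t, le_max_of_le_right h1, h2⟩
  · have hq' : IsQG SS l e L fun k => q (L - k) := by
      intro x hx y hy
      have := hq (L - x) (by omega) (L - y) (by omega)
      rw [Nat.cast_sub hx, Nat.cast_sub hy, show (L : ℝ) - x - (L - y) = -(x - y) by ring,
        abs_neg] at this
      exact this
    obtain ⟨t, h1, h2⟩ := morse_le hγ hD hl he hq' hab (by simpa using hb) (by simpa using ha)
      (i := L - i) (by omega)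
    rw [show L - (L - i) = i by omega] at h2
    exact ⟨t, le_max_of_le_left h1, h2⟩

lemma morse_ray {γ : ℕ → GG} (hγ : Geo γ) {D : ℕ} (hD : Gaps D γ) :
    IsMorse SS (NN D) (range γ) := by
  rintro l e hl he L q hq ⟨a, ha⟩ ⟨b, hb⟩ i hi
  obtain ⟨t, -, ht⟩ := morse_main hγ hD hl he hq ha.symm hb.symm hi
  exact ⟨γ t, ⟨t, rfl⟩, ht⟩

lemma morse_seg {γ : ℕ → GG} (hγ : Geo γ) {D : ℕ} (hD : Gaps D γ) (n : ℕ) :
    IsMorse SS (NN D) (γ '' Iic n) := by
  rintro l e hl he L q hq ⟨a, han, ha⟩ ⟨b, hbn, hb⟩ i hi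
  obtain ⟨t, htn, ht⟩ := morse_main hγ hD hl he hq ha.symm hb.symm hi
  exact ⟨γ t, ⟨t, htn.trans (max_le han hbn), rfl⟩, ht⟩

end Pool.Agent.H557Z.Mb
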