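import Mathlib
import Pool.Agent.H557Z.MbGeom

namespace Pool.Agent.H557Z.Mb

open Set Monoid

lemma wd_tau (p : K) : (wd SS 1 (tau p) : ℤ) ≤ |p.1| + |p.2| := by
  rw [tau_eq]
  have h1 := wd_mul_le SS_gen (t1 ^ p.1) (t2 ^ p.2)
  have h2 := wd_zpow SS_gen (s := t1)
    (by simpa using wd_le_one (step_mul (s := t1) (by simp [SS]) 1)) p.1
  have h3 := wd_zpow SS_gen (s := t2)
    (by simpa using wd_le_one (step_mul (s := t2) (by simp [SS]) 1)) p.2
  omega

lemma aa_notMem : aa ∉ HH := fun h => by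
  have := lamp_zero h
  simp [aa] at this

lemma step_K {x y : GG} (h : Step SS x y) (hx : x ∈ HH) (hy : y ∈ HH) :
    (∃ e, ZE e x y) ∨ ∃ p, y = x * tau p := by
  obtain ⟨s, hs, rfl | rfl⟩ := step_cases h
  · rcases hs with rfl | rfl | rfl | rfl
    · exact Or.inr ⟨_, rfl⟩
    · exact Or.inr ⟨_, rfl⟩
    · exact absurd ((HH.mul_mem_cancel_left hx).1 hy) aa_notMem
    · exact Or.inl ⟨x, Or.inl ⟨rfl, rfl⟩⟩
  · rcases hs with rfl | rfl | rfl | rfl
    · exact Or.inr ⟨-(1, 0), by rw [tau_neg, t1]; simp⟩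
    · exact Or.inr ⟨-(0, 1), by rw [tau_neg, t2]; simp⟩
    · exact absurd ((HH.mul_mem_cancel_left hy).1 hx) aa_notMem
    · exact Or.inl ⟨y, Or.inr ⟨rfl, rfl⟩⟩

noncomputable def ell (a b : ℤ) (x : GG) : ℤ := a * (piB x).p.1 + b * (piB x).p.2

lemma ell_tau (a b : ℤ) (x : GG) (p : K) : ell a b (x * tau p) = ell a b x + (a * p.1 + b * p.2) := by
  simp [ell]
  ring

lemma ell_lip {a b : ℤ} (ha : |a| ≤ 1) (hb : |b| ≤ 1) (x y : GG) :
    |ell a b x - ell a b y| ≤ wd SS x y := by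
  refine lip_int SS_gen _ ?_ x y
  have key : ∀ x s, s ∈ SS → |ell a b x - ell a b (x * s)| ≤ 1 := by
    intro x s hs
    rcases hs with rfl | rfl | rfl | rfl
    · rw [t1, ell_tau]; simpa using ha
    · rw [t2, ell_tau]; simpa using hb
    · simp [ell, aa]
    · simp [ell]
  intro x y h
  obtain ⟨s, hs, rfl | rfl⟩ := step_cases h
  · exact key _ _ hs
  · rw [abs_sub_comm]; exact key _ _ hs

lemma exists_sign (u : ℤ) : ∃ a : ℤ, a * a = 1 ∧ |a| ≤ 1 ∧ a * u = |u| := by
  rcases le_total 0 u with h | h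
  · exact ⟨1, by simp, by simp, by simp [abs_of_nonneg h]⟩
  · exact ⟨-1, by simp, by simp, by simp [abs_of_nonpos h]⟩

/-- the gap bound attached to a Morse gauge -/
noncomputable def gapOf (N : ℝ → ℝ → ℝ) : ℕ := 8 * (⌈N 3 0⌉₊ + 1)

lemma gaps_of_morse {γ : ℕ → HH} (hγ : Geo fun n => (γ n : GG)) {N : ℝ → ℝ → ℝ}
    (hM : IsMorse TT N (range γ)) : Gaps (gapOf N) fun n => (γ n : GG) := by
  intro s
  by_contra hcon
  push Not at hcon
  set m := ⌈N 3 0⌉₊ + 1 with hm
  have hD : gapOf N = 8 * m := rfl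
  rw [hD] at hcon
  have hk : ∀ i, i ≤ 8 * m → ∃ p, (γ (s + i) : GG) = γ s * tau p := by
    intro i
    induction i with
    | zero => intro _; exact ⟨0, by simp [tau_zero]⟩
    | succ i ih =>
      intro hi
      obtain ⟨p, hp⟩ := ih (by omega)
      rcases step_K (hγ.step (s + i)) (γ _).2 (γ _).2 with h | ⟨p', hp'⟩
      · exact absurd h (hcon (s + i) (by omega) (by omega))
      · refine ⟨p + p', ?_⟩
        rw [tau_add, ← mul_assoc, ← hp]
        exact hp'
  choose! k hk using hk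
  obtain ⟨a, haa, ha, hau⟩ := exists_sign (k (8 * m)).1
  obtain ⟨b, hbb, hb, hbu⟩ := exists_sign (k (8 * m)).2
  have hb' : |-b| ≤ 1 := by rwa [abs_neg]
  have hl : ∀ i, i ≤ 8 * m → ell a b (γ (s + i)) = ell a b (γ s) + i := by
    intro i hi
    have h1 := ell_lip ha hb (γ s) (γ (s + i))
    have h2 := ell_lip ha hb (γ (s + i)) (γ (s + 8 * m))
    have h3 := hγ.le (m := s) (n := s + i) (by omega)
    have h4 := hγ.le (m := s + i) (n := s + 8 * m) (by omega)
    have h5 := hγ.le (m := s) (n := s + 8 * m) (by omega)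
    have h6 := wd_tau (k (8 * m))
    have h7 : ell a b (γ (s + 8 * m)) = ell a b (γ s) + (|(k (8 * m)).1| + |(k (8 * m)).2|) := by
      rw [hk _ le_rfl, ell_tau, hau, hbu]
    rw [hk _ le_rfl, wd_eq SS_gen, inv_mul_cancel_left] at h5
    rw [h3] at h1
    rw [h4] at h2
    rw [h5] at h6
    rw [abs_le] at h1 h2
    omega
  let f : ℕ → ℕ := fun i => min (min i (8 * m - i)) m
  let q : ℕ → HH := fun i => γ (s + i) * ⟨tau ((f i : ℤ) • (a, -b)), tau_mem _⟩
  have hqv : ∀ i, (q i : GG) = γ (s + i) * tau ((f i : ℤ) • (a, -b)) := fun i => rfl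
  have hw : ∀ n : ℤ, (wd SS 1 (tau (n • (a, -b))) : ℤ) ≤ 2 * |n| := by
    intro n
    have h1 := wd_tau (n • (a, -b))
    simp only [Prod.smul_mk, smul_eq_mul, abs_mul] at h1 ⊢
    have h2 := abs_nonneg n
    nlinarith
  have hql : ∀ i, i ≤ 8 * m → ell a b (q i) = ell a b (γ s) + i := by
    intro i hi
    rw [hqv, ell_tau, hl i hi]
    simp only [Prod.smul_mk, smul_eq_mul]
    linear_combination (f i : ℤ) * haa - (f i : ℤ) * hbb
  have hq : IsQG TT 3 0 (8 * m) q := by
    intro i hi j hj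
    rw [wd_T]
    constructor
    · have h1 := ell_lip ha hb (q i) (q j)
      rw [hql i hi, hql j hj, show ell a b (γ s) + i - (ell a b (γ s) + j) = i - j by ring] at h1
      have h2 : |(i : ℝ) - j| ≤ wd SS (q i : GG) (q j) := by exact_mod_cast h1
      have := abs_nonneg ((i : ℝ) - j)
      linarith
    · have h1 : ((q i : GG))⁻¹ * q j =
          ((γ (s + i) : GG))⁻¹ * γ (s + j) * tau (((f j : ℤ) - f i) • (a, -b)) := by
        rw [hqv, hqv, hk i hi, hk j hj]
        simp only [mul_inv_rev, mul_assoc, inv_mul_cancel_left, ← tau_neg, ← tau_add]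
        congr 1
        module
      have h2 := wd_mul_le SS_gen (((γ (s + i) : GG))⁻¹ * γ (s + j))
        (tau (((f j : ℤ) - f i) • (a, -b)))
      have h3 := hw ((f j : ℤ) - f i)
      have h4 := hγ (s + i) (s + j)
      simp only at h4
      rw [wd_eq SS_gen] at h4
      rw [← h1, ← wd_eq SS_gen] at h2
      have h5 : |(f j : ℤ) - f i| ≤ |(i : ℤ) - j| := by
        simp only [f]
        rcases abs_cases ((i : ℤ) - j) with h | h <;> rw [abs_le] <;> omega
      have h6 : (wd SS (q i : GG) (q j) : ℤ) ≤ 3 * |(i : ℤ) - j| := by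
        push_cast at h4
        rw [show (s : ℤ) + i - (s + j) = i - j by ring] at h4
        omega
      have h7 : (wd SS (q i : GG) (q j) : ℝ) ≤ 3 * |(i : ℝ) - j| := by exact_mod_cast h6
      linarith
  have hq0 : q 0 = γ s := by
    apply Subtype.ext
    rw [hqv]
    simp [f, tau_zero]
  have hqL : q (8 * m) = γ (s + 8 * m) := by
    apply Subtype.ext
    rw [hqv]
    simp [f, tau_zero]
  obtain ⟨_, ⟨t, rfl⟩, ht⟩ := hM 3 0 (by norm_num) le_rfl (8 * m) q hq ⟨s, hq0.symm⟩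
    ⟨_, hqL.symm⟩ (4 * m) (by omega)
  rw [wd_T] at ht
  have ht' : wd SS (q (4 * m) : GG) (γ t) < m := by
    have h1 := ht.trans (Nat.le_ceil _)
    have h2 : wd SS (q (4 * m) : GG) (γ t) ≤ ⌈N 3 0⌉₊ := by exact_mod_cast h1
    omega
  have hf : f (4 * m) = m := by simp only [f]; omega
  by_cases hts : s ≤ t ∧ t ≤ s + 8 * m
  · obtain ⟨j, rfl⟩ := Nat.exists_eq_add_of_le hts.1
    have h1 := ell_lip ha hb (q (4 * m)) (γ (s + j))
    rw [hql _ (by omega), hl _ (by omega)] at h1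
    have h2 := ell_lip ha hb' (q (4 * m)) (γ (s + j))
    have h3 := ell_lip ha hb' (γ (s + 4 * m)) (γ (s + j))
    have h4 := hγ (s + 4 * m) (s + j)
    have h5 : ell a (-b) (q (4 * m)) = ell a (-b) (γ (s + 4 * m)) + 2 * m := by
      rw [hqv, ell_tau, hf]
      simp only [Prod.smul_mk, smul_eq_mul]
      linear_combination (m : ℤ) * haa + (m : ℤ) * hbb
    simp only at h4
    rw [h5] at h2
    rw [h4] at h3
    push_cast at h1 h3
    rw [abs_le] at h1 h2 h3
    rcases abs_cases ((s : ℤ) + 4 * m - (s + j)) with h | h <;> omega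
  · have h1 := hγ (s + 4 * m) t
    have h2 := tri (γ (s + 4 * m)) (q (4 * m)) (γ t)
    have h3 : (wd SS (γ (s + 4 * m) : GG) (q (4 * m)) : ℤ) ≤ 2 * m := by
      rw [hqv, wd_eq SS_gen, inv_mul_cancel_left, hf]
      simpa using hw m
    simp only at h1
    push_cast at h1
    rcases abs_cases ((s : ℤ) + 4 * m - t) with h | h <;> omega

end Pool.Agent.H557Z.Mb
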