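import Mathlib
import Pool.Agent.H557Z.MbGaps

namespace Pool.Agent.H557Z.Mb

open Set Filter Topology

section general

variable {G : Type} [Group G] {S : Set G}

lemma isOpen_mray {N : ℝ → ℝ → ℝ} (U : Set (MRay S N)) :
    IsOpen U ↔ ∀ γ ∈ U, ∃ k, ∀ δ : MRay S N, (∀ i < k, δ.1 i = γ.1 i) → δ ∈ U := by
  let _ : TopologicalSpace G := ⊥
  have : DiscreteTopology G := ⟨rfl⟩
  constructor
  · intro hU γ hγ
    obtain ⟨V, hV, rfl⟩ := isOpen_induced_iff.1 hU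
    obtain ⟨v, ⟨x', n, rfl⟩, hxv, hv⟩ :=
      (PiNat.isTopologicalBasis_cylinders (fun _ : ℕ => G)).exists_subset_of_mem_open hγ hV
    refine ⟨n, fun δ hδ => hv ?_⟩
    intro i hi
    rw [hδ i hi]
    exact hxv i hi
  · intro h
    rw [isOpen_iff_forall_mem_open]
    intro γ hγ
    obtain ⟨k, hk⟩ := h γ hγ
    refine ⟨Subtype.val ⁻¹' PiNat.cylinder γ.1 k, fun δ hδ => hk δ hδ, ?_, fun _ _ => rfl⟩
    exact isOpen_induced_iff.2 ⟨_, PiNat.isOpen_cylinder (fun _ : ℕ => G) γ.1 k, rfl⟩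

def cls {N : ℝ → ℝ → ℝ} (γ : MRay S N) : Bdry S := toBdry S N (Quot.mk _ γ)

lemma isOpen_bdry (U : Set (Bdry S)) :
    IsOpen U ↔ ∀ N, ∀ γ : MRay S N, cls γ ∈ U →
      ∃ k, ∀ δ : MRay S N, (∀ i < k, δ.1 i = γ.1 i) → cls δ ∈ U := by
  refine isOpen_iSup_iff.trans (forall_congr' fun N => ?_)
  exact isOpen_coinduced.trans (isOpen_coinduced.trans (isOpen_mray _))

end general

def up (γ : ℕ → HH) : ℕ → GG := fun n => γ n

lemma ray_up {γ : ℕ → HH} (h : IsRay TT γ) : IsRay SS (up γ) :=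
  ⟨by simp [up, h.1], fun m n => by rw [up, up, ← wd_T]; exact h.2 m n⟩

lemma ray_down {γ : ℕ → HH} (h : IsRay SS (up γ)) : IsRay TT γ :=
  ⟨Subtype.ext h.1, fun m n => by rw [wd_T]; exact h.2 m n⟩

lemma morse_down {γ : ℕ → HH} {N : ℝ → ℝ → ℝ} (h : IsMorse SS N (range (up γ))) :
    IsMorse TT N (range γ) := by
  rintro l e hl he L q hq ⟨a, ha⟩ ⟨b, hb⟩ i hi
  have hq' : IsQG SS l e L (up q) := by
    intro x hx y hy
    have := hq x hx y hy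
    rwa [wd_T] at this
  obtain ⟨_, ⟨t, rfl⟩, ht⟩ := h l e hl he L (up q) hq' ⟨a, congrArg Subtype.val ha⟩
    ⟨b, congrArg Subtype.val hb⟩ i hi
  exact ⟨γ t, ⟨t, rfl⟩, by rwa [wd_T]⟩

lemma asy_up {γ δ : ℕ → HH} : Asy SS (up γ) (up δ) ↔ Asy TT γ δ := by
  simp only [Asy, wd_T, up]

noncomputable def upM {N : ℝ → ℝ → ℝ} (γ : MRay TT N) : MRay SS (NN (gapOf N)) :=
  ⟨up γ.1, ray_up γ.2.1, morse_ray (ray_up γ.2.1).2 (gaps_of_morse (ray_up γ.2.1).2 γ.2.2)⟩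

noncomputable def upA (γ : AllRay TT) : AllRay SS :=
  ⟨up γ.1, ray_up γ.2.1, γ.2.2.elim fun _ hN =>
    ⟨_, morse_ray (ray_up γ.2.1).2 (gaps_of_morse (ray_up γ.2.1).2 hN)⟩⟩

noncomputable def phi0 : Bdry TT → Bdry SS := Quot.map upA fun _ _ h => asy_up.2 h

lemma phi0_cls {N : ℝ → ℝ → ℝ} (γ : MRay TT N) : phi0 (cls γ) = cls (upM γ) := rfl

lemma phi0_inj : Function.Injective phi0 := by
  rintro ⟨γ⟩ ⟨δ⟩ h
  exact Quot.sound (asy_up.1 ((bdry_eq SS_gen).1 h))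

lemma phi0_cont : Continuous phi0 := by
  rw [continuous_def]
  intro U hU
  rw [isOpen_bdry] at hU ⊢
  intro N γ hγ
  obtain ⟨k, hk⟩ := hU _ (upM γ) hγ
  exact ⟨k, fun δ hδ => hk (upM δ) fun i hi => congrArg Subtype.val (hδ i hi)⟩

lemma ZE.mem {e x y : GG} (h : ZE e x y) (hx : x ∈ HH) (hy : y ∈ HH) : e ∈ HH := by
  rcases h with ⟨rfl, -⟩ | ⟨rfl, -⟩
  · exact hx
  · exact hy

/-- a ray at finite distance from a Morse ray of `H` lies in `H` -/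
lemma mem_of_asy {γ : ℕ → HH} (hγ : IsRay SS (up γ)) {D : ℕ} (hD : Gaps D (up γ)) {δ : ℕ → GG}
    (hδ : IsRay SS δ) (h : Asy SS (up γ) δ) (j : ℕ) : δ j ∈ HH := by
  have hγ' : Geo (up γ) := hγ.2
  have hδ' : Geo δ := hδ.2
  obtain ⟨B, hB, -⟩ := h
  obtain ⟨t, hjt, -, e, he⟩ := hD (j + 1)
  obtain ⟨m, hm⟩ := hB (t + B + 2)
  have h1 := hγ'.cross he (s := 0) (s' := t + B + 2) (by omega) (by omega)
  have h2 := he.dist
  have h3 : ce e (up γ (t + B + 2)) = ce e (δ m) := by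
    by_contra hne
    have h4 := near hne
    have h5 := hγ'.le (m := t) (n := t + B + 2) (by omega)
    have h6 := tri (up γ t) e (up γ (t + B + 2))
    rw [wd_comm (up γ t) e, wd_comm e (up γ (t + B + 2))] at h6
    omega
  rw [h3, hγ.1, ← hδ.1] at h1
  obtain ⟨k, -, -, hk⟩ := ivt (fun k => ce e (δ k)) (Nat.zero_le m) h1
  have heH : e ∈ HH := he.mem (γ t).2 (γ (t + 1)).2
  obtain ⟨k', hk'⟩ : ∃ k', δ k' = e := by
    rcases (ce_step (hδ'.step k) e).resolve_left hk with h | h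
    · exact ⟨k, h.1⟩
    · exact ⟨k + 1, h.1⟩
  have h7 := hδ'.le (Nat.zero_le k')
  have h8 := hγ'.le (Nat.zero_le t)
  have h9 := tri 1 e (up γ t)
  rw [hδ.1, hk'] at h7
  rw [hγ.1] at h8
  have h10 := hδ'.le (Nat.zero_le j)
  have h11 := hδ'.le (m := j) (n := k') (by omega)
  rw [hδ.1] at h10
  rw [hk'] at h11
  exact conv (one_mem _) heH (by omega)

/-- a Morse ray of `G` contained in `H` is a Morse ray of `H` -/
noncomputable def downM {N : ℝ → ℝ → ℝ} (δ : MRay SS N) (h : ∀ j, δ.1 j ∈ HH) : MRay TT N :=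
  ⟨fun j => ⟨δ.1 j, h j⟩, ray_down δ.2.1, morse_down δ.2.2⟩

lemma phi0_down {N : ℝ → ℝ → ℝ} (δ : MRay SS N) (h : ∀ j, δ.1 j ∈ HH) :
    phi0 (cls (downM δ h)) = cls δ := rfl

lemma mem_of_cls {N : ℝ → ℝ → ℝ} (δ : MRay SS N) (h : cls δ ∈ range phi0) (j : ℕ) :
    δ.1 j ∈ HH := by
  obtain ⟨⟨γ⟩, hγ⟩ := h
  obtain ⟨N', hN'⟩ := γ.2.2
  exact mem_of_asy (ray_up γ.2.1) (gaps_of_morse (ray_up γ.2.1).2 hN') δ.2.1
    ((bdry_eq SS_gen).1 hγ) j

lemma phi0_closed : IsClosedMap phi0 := by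
  intro F hF
  rw [← isOpen_compl_iff, isOpen_bdry] at hF ⊢
  intro N δ hδ
  by_cases h : ∀ j, δ.1 j ∈ HH
  · obtain ⟨k, hk⟩ := hF N (downM δ h) fun hc => hδ ⟨_, hc, phi0_down δ h⟩
    refine ⟨k, fun ε hε hc => ?_⟩
    have hε' := mem_of_cls ε (image_subset_range _ _ hc)
    obtain ⟨ξ, hξ, hξ'⟩ := hc
    refine hk (downM ε hε') (fun i hi => Subtype.ext (hε i hi)) ?_
    rwa [phi0_inj ((phi0_down ε hε').trans hξ'.symm)]
  · push Not at h
    obtain ⟨j, hj⟩ := h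
    refine ⟨j + 1, fun ε hε hc => hj ?_⟩
    rw [← hε j (by omega)]
    exact mem_of_cls ε (image_subset_range _ _ hc) j

lemma range_phi0 : range phi0 = limitSet SS HH := by
  ext ξ
  constructor
  · rintro ⟨⟨γ⟩, rfl⟩
    obtain ⟨N, hN⟩ := γ.2.2
    have hr := ray_up γ.2.1
    refine ⟨_, upM (N := N) ⟨γ.1, γ.2.1, hN⟩, fun _ => up γ.1, fun n => n, rfl, fun n =>
      ⟨⟨hr.1, fun a _ b _ => hr.2 a b⟩, (γ.1 n).2, morse_seg hr.2 (gaps_of_morse hr.2 hN) n⟩,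
      fun t => ?_⟩
    filter_upwards [eventually_ge_atTop t] with n hn
    exact ⟨hn, rfl⟩
  · rintro ⟨N, δ, σ, len, rfl, h1, h2⟩
    have h : ∀ j, δ.1 j ∈ HH := by
      intro j
      obtain ⟨n, hn, hn'⟩ := (h2 j).exists
      obtain ⟨⟨h3, h4⟩, h5, -⟩ := h1 n
      rw [← hn']
      refine conv (one_mem _) h5 ?_
      have e1 := h4 0 (by omega) j hn
      have e2 := h4 j hn (len n) le_rfl
      have e3 := h4 0 (by omega) (len n) le_rfl
      rw [h3] at e1 e3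
      rw [abs_of_nonpos (by omega)] at e1 e2 e3
      omega
    exact ⟨_, phi0_down δ h⟩

theorem limit_hyp : LimitSetIsBoundary SS HH TT := by
  have hE := (IsClosedEmbedding.of_continuous_injective_isClosedMap phi0_cont phi0_inj
    phi0_closed).isEmbedding
  refine ⟨hE.toHomeomorph.trans (Homeomorph.setCongr range_phi0), fun γ => ⟨upA γ, rfl, ?_⟩⟩
  exact (asy_equiv SS_gen).refl _

lemma zc_lip (x y : GG) : |zc x - zc y| ≤ wd SS x y := by
  refine lip_int SS_gen _ ?_ x y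
  have key : ∀ x s, s ∈ SS → |zc x - zc (x * s)| ≤ 1 := by
    intro x s hs
    rcases hs with rfl | rfl | rfl | rfl
    · simp [zc_mul, t1, zc_tau]
    · simp [zc_mul, t2, zc_tau]
    · simp [zc_mul, aa, zc_lam]
    · simp [zc_mul, zc_zz]
  intro x y h
  obtain ⟨s, hs, rfl | rfl⟩ := step_cases h
  · exact key _ _ hs
  · rw [abs_sub_comm]; exact key _ _ hs

theorem bdry_nonempty : Nonempty (Bdry TT) := by
  let γ : ℕ → HH := fun n => ⟨zz ^ n, pow_mem zz_mem n⟩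
  have hr : IsRay SS (up γ) := by
    refine ⟨by simp [up, γ], fun m n => le_antisymm ?_ ?_⟩
    · have h1 := wd_zpow SS_gen (s := zz)
        (by simpa using wd_le_one (step_mul (s := zz) (by simp [SS]) 1)) ((n : ℤ) - m)
      have h2 : (up γ m)⁻¹ * up γ n = zz ^ ((n : ℤ) - m) := by
        simp only [up, γ]
        group
      rw [wd_eq SS_gen, h2, abs_sub_comm]
      exact h1
    · have := zc_lip (zz ^ m) (zz ^ n)
      rwa [zc_zpow, zc_zpow] at this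
  have hg : Gaps 1 (up γ) := fun s =>
    ⟨s, le_rfl, by omega, zz ^ s, Or.inl ⟨rfl, pow_succ _ _⟩⟩
  exact ⟨Quot.mk _ ⟨γ, ray_down hr, _, morse_down (morse_ray hr.2 hg)⟩⟩

end Pool.Agent.H557Z.Mb
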