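import Mathlib
import Pool.Agent.H557Z.MbTop

namespace Pool.Agent.H557Z.Mb

open Set Filter Topology Monoid

lemma near' {e x y : GG} (h : ce e x ≠ ce e y) :
    wd SS x (e * zz) + wd SS (e * zz) y ≤ wd SS x y := by
  obtain ⟨n, hn⟩ : ∃ n, wd SS x y = n := ⟨_, rfl⟩
  induction n generalizing x with
  | zero => exact absurd (by rw [wd_eq_zero SS_gen hn]) h
  | succ n ih =>
    obtain ⟨w, hw, hwy⟩ := first_step SS_gen hn
    have h3 := wd_le_one hw
    rcases ce_step hw e with h1 | ⟨-, h1⟩ | ⟨-, h1⟩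
    · have h2 := ih (by rwa [← h1]) hwy
      have h4 := tri x w (e * zz)
      omega
    · rw [← h1]; omega
    · rw [← h1, wd_self]; omega

lemma ce_mul (g e x : GG) : ce (g * e) (g * x) = ce e x := by simp [ce, mul_assoc]

lemma ce_H {e x y : GG} (he : e ∉ HH) (hx : x ∈ HH) (hy : y ∈ HH) : ce e x = ce e y := by
  by_contra h
  have h1 := near h
  have h2 := tri x e y
  exact he (conv hx hy (by omega))

lemma finite_ball (n : ℕ) : {x : GG | wd SS x 1 ≤ n}.Finite := by
  induction n with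
  | zero => exact (finite_singleton 1).subset fun x hx => wd_eq_zero SS_gen (Nat.le_zero.1 hx)
  | succ n ih =>
    refine ((ih.union (ih.image2 (fun x s => x * s) SS_finite)).union
      (ih.image2 (fun x s => x * s⁻¹) SS_finite)).subset fun x hx => ?_
    by_cases h : wd SS x 1 ≤ n
    · exact Or.inl (Or.inl h)
    · obtain ⟨w, hw, hw1⟩ := first_step SS_gen (n := n) (le_antisymm hx (by omega))
      obtain ⟨s, hs, rfl | rfl⟩ := step_cases hw
      · exact Or.inr ⟨_, hw1.le, s, hs, by simp⟩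
      · exact Or.inl (Or.inr ⟨_, hw1.le, s, hs, rfl⟩)

lemma step_B {x y : GG} (h : Step SS x y) : (∃ e, ZE e x y) ∨ ∃ b, y = x * Coprod.inl b := by
  obtain ⟨s, hs, rfl | rfl⟩ := step_cases h
  · rcases hs with rfl | rfl | rfl | rfl
    · exact Or.inr ⟨_, rfl⟩
    · exact Or.inr ⟨_, rfl⟩
    · exact Or.inr ⟨_, rfl⟩
    · exact Or.inl ⟨x, Or.inl ⟨rfl, rfl⟩⟩
  · rcases hs with rfl | rfl | rfl | rfl
    · exact Or.inr ⟨(⟨0, (1, 0)⟩ : B)⁻¹, by rw [map_inv, t1, tau]; simp⟩
    · exact Or.inr ⟨(⟨0, (0, 1)⟩ : B)⁻¹, by rw [map_inv, t2, tau]; simp⟩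
    · exact Or.inr ⟨(⟨1, 0⟩ : B)⁻¹, by rw [map_inv, aa, lam]; simp⟩
    · exact Or.inl ⟨y, Or.inr ⟨rfl, rfl⟩⟩

lemma ce_inl (e x : GG) (b : B) : ce e (x * Coprod.inl b) = ce e x := by
  rw [ce, ce, ← mul_assoc, chi_inl]

lemma in_B {x y : GG} (h : ∀ e, ce e x = ce e y) : ∃ b, y = x * Coprod.inl b := by
  obtain ⟨n, hn⟩ : ∃ n, wd SS x y = n := ⟨_, rfl⟩
  induction n generalizing x with
  | zero => exact ⟨1, by rw [wd_eq_zero SS_gen hn]; simp⟩
  | succ n ih =>
    obtain ⟨w, hw, hwy⟩ := first_step SS_gen hn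
    rcases step_B hw with ⟨e, he⟩ | ⟨b, rfl⟩
    · have h1 : ce e w ≠ ce e y := by rw [← h e]; exact he.ne.symm
      have h2 := near h1
      have h3 := near' h1
      rcases he with ⟨h4, -⟩ | ⟨-, h4⟩
      · rw [← h4] at h2; omega
      · rw [← h4] at h3; omega
    · obtain ⟨b', hb'⟩ := ih (fun e => by rw [ce_inl, h e]) hwy
      exact ⟨b * b', by rw [hb', map_mul, mul_assoc]⟩

lemma zz_ne (e : GG) : e * zz ≠ e := by
  intro h
  have := congrArg zc h
  rw [zc_mul, zc_zz] at this
  omega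

theorem almost_malnormal : AlmostMalnormal HH := by
  intro g
  obtain ⟨n, hn⟩ : ∃ n, wd SS 1 g = n := ⟨_, rfl⟩
  induction n using Nat.strong_induction_on generalizing g with
  | _ n ih =>
  intro hg
  by_cases hmin : ∃ x ∈ HH, ∃ k ∈ HH, wd SS 1 (x * g * k) < n
  · obtain ⟨x, hx, k, hk, hlt⟩ := hmin
    have hg' : x * g * k ∉ HH := by
      rwa [HH.mul_mem_cancel_right hk, HH.mul_mem_cancel_left hx]
    refine ((ih _ hlt _ rfl hg').preimage (f := fun h => x * h * x⁻¹)
      (fun a _ b _ h => by simpa using h)).subset fun h hh => ⟨?_, ?_⟩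
    · exact mul_mem (mul_mem hx hh.1) (inv_mem hx)
    · have : (x * g * k)⁻¹ * (x * h * x⁻¹) * (x * g * k) = k⁻¹ * (g⁻¹ * h * g) * k := by group
      rw [this]
      exact mul_mem (mul_mem (inv_mem hk) hh.2) hk
  push Not at hmin
  by_cases hc : ∃ e, ce e 1 ≠ ce e g
  · obtain ⟨e, he⟩ := hc
    have h1 := near he
    have h2 := near' he
    have key1 : ∀ u ∈ HH, wd SS 1 u + wd SS u g ≤ n → u = 1 := by
      intro u hu h
      have h3 := hmin u⁻¹ (inv_mem hu) 1 (one_mem _)
      rw [mul_one, ← wd_eq SS_gen] at h3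
      exact (wd_eq_zero SS_gen (by omega)).symm
    have key2 : ∀ u, g⁻¹ * u ∈ HH → wd SS 1 u + wd SS u g ≤ n → u = g := by
      intro u hu h
      have h3 := hmin 1 (one_mem _) _ hu
      rw [one_mul, mul_inv_cancel_left] at h3
      exact wd_eq_zero SS_gen (by omega)
    have he1 : e ∉ HH := fun h =>
      zz_ne e ((key1 _ (mul_mem h zz_mem) (by omega)).trans (key1 _ h (by omega)).symm)
    have he2 : g⁻¹ * e ∉ HH := fun h =>
      zz_ne e ((key2 _ (by rw [← mul_assoc]; exact mul_mem h zz_mem) (by omega)).trans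
        (key2 _ h (by omega)).symm)
    refine ((finite_ball n).preimage (f := fun h => h * e)
      (fun a _ b _ h => by simpa using h)).subset fun h hh => ?_
    have h3 : ce (h * e) 1 = ce e 1 := by
      rw [← ce_mul h e 1]
      exact ce_H (by rwa [HH.mul_mem_cancel_left hh.1]) (one_mem _) (by simpa using hh.1)
    have h4 : ce (h * e) g = ce e g := by
      rw [← ce_mul h e g, ← ce_mul g⁻¹ (h * e) g, ← ce_mul g⁻¹ (h * e) (h * g)]
      refine ce_H ?_ (by simp) (by rw [← mul_assoc]; exact hh.2)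
      have : g⁻¹ * (h * e) = (g⁻¹ * h * g) * (g⁻¹ * e) := by group
      rwa [this, HH.mul_mem_cancel_left hh.2]
    have h5 := near (e := h * e) (x := 1) (y := g) (by rwa [h3, h4])
    simp only [mem_preimage, Set.mem_ofPred_eq]
    rw [wd_comm]
    omega
  · push Not at hc
    obtain ⟨b, hb⟩ := in_B hc
    rw [one_mul] at hb
    refine (finite_singleton 1).subset fun h hh => ?_
    have h1 : ∀ e, ce e 1 = ce e h := by
      intro e
      by_cases he : e ∈ HH
      · have h2 : g⁻¹ * e ∉ HH := by rwa [HH.mul_mem_cancel_right he, inv_mem_iff]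
        have h3 := ce_H h2 (one_mem _) hh.2
        rw [mul_assoc, ce_mul, ← inv_mul_cancel g, ce_mul] at h3
        rw [hc e, h3, hb, ce_inl]
      · exact ce_H he (one_mem _) hh.1
    obtain ⟨b', hb'⟩ := in_B h1
    rw [one_mul] at hb'
    have h2 := lamp_zero hh.1
    have h3 := lamp_zero hh.2
    rw [hb'] at h2 h3
    rw [hb] at h3
    simp only [map_mul, map_inv, piB_inl, mul_l, inv_l, mul_p, inv_p, Xp_add] at h2 h3
    rw [h2] at h3
    have h4 : Xp (-b.p) * ((Xp b'.p - 1) * b.l) = 0 := by linear_combination h3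
    have h5 : b.l ≠ 0 := by
      intro h0
      apply hg
      have : b = ⟨0, b.p⟩ := B.ext h0 rfl
      rw [hb, this]
      exact tau_mem _
    have h6 : Xp b'.p = Xp 0 := by
      rw [Xp_zero]
      exact sub_eq_zero.1 ((mul_eq_zero.1 ((mul_eq_zero.1 h4).resolve_left
        (Xp_ne_zero _))).resolve_right h5)
    have h7 : b' = 1 := B.ext h2 (Xp_inj h6)
    rw [mem_singleton_iff, hb', h7, map_one]

section rel

variable {G : Type} [Group G] {X : Set G} {H : Subgroup G}

lemma rel_edge {g k : G} (h : g⁻¹ * k ∈ X ∨ (g⁻¹ * k ∈ H ∧ g ∉ H)) :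
    (relGraph X H).edist g k ≤ 1 := by
  rw [SimpleGraph.edist_le_one_iff_adj_or_eq]
  by_cases hgk : g = k
  · exact Or.inr hgk
  · exact Or.inl ((SimpleGraph.fromRel_adj _ _ _).2 ⟨hgk, Or.inl h⟩)

lemma rel_inv {h : G} (hh : h ∈ H) (x y : G) :
    (relGraph X H).edist (h * x) (h * y) ≤ (relGraph X H).edist x y := by
  by_cases ht : (relGraph X H).edist x y = ⊤
  · rw [ht]; exact le_top
  obtain ⟨p, hp⟩ := SimpleGraph.exists_walk_of_edist_ne_top ht
  let f : relGraph X H →g relGraph X H := ⟨fun x => h * x, by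
    intro a b hab
    simp only [relGraph, SimpleGraph.fromRel_adj] at hab ⊢
    simpa [mul_assoc, H.mul_mem_cancel_left hh] using hab⟩
  have := SimpleGraph.edist_le (p.map f)
  rwa [SimpleGraph.Walk.length_map, hp] at this

lemma rel_generic (hX : Subgroup.closure (X ∪ H) = ⊤) (a : G) :
    ∃ M : ℕ, ∃ V : Set G, V.Finite ∧
      ∀ g, (∀ v ∈ V, g * v ∉ H) → (relGraph X H).edist g (g * a) ≤ M := by
  have ha : a ∈ Subgroup.closure (X ∪ H) := by rw [hX]; trivial
  induction ha using Subgroup.closure_induction with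
  | mem x hx =>
    refine ⟨1, {1}, finite_singleton 1, fun g hg => rel_edge ?_⟩
    rcases hx with hx | hx
    · left; simpa using hx
    · right; exact ⟨by simpa using hx, by simpa using hg 1 rfl⟩
  | one => exact ⟨0, ∅, finite_empty, fun g _ => by simp⟩
  | mul x y _ _ hx hy =>
    obtain ⟨M, V, hV, h⟩ := hx
    obtain ⟨M', V', hV', h'⟩ := hy
    refine ⟨M + M', V ∪ (fun v => x * v) '' V', hV.union (hV'.image _), fun g hg => ?_⟩
    have h1 := h g fun v hv => hg v (Or.inl hv)
    have h2 := h' (g * x) fun v hv => by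
      rw [mul_assoc]; exact hg _ (Or.inr ⟨v, hv, rfl⟩)
    rw [← mul_assoc]
    push_cast
    exact SimpleGraph.edist_triangle.trans (add_le_add h1 h2)
  | inv x _ hx =>
    obtain ⟨M, V, hV, h⟩ := hx
    refine ⟨M, (fun v => x⁻¹ * v) '' V, hV.image _, fun g hg => ?_⟩
    have h2 := h (g * x⁻¹) fun v hv => by
      rw [mul_assoc]; exact hg _ ⟨v, hv, rfl⟩
    rwa [inv_mul_cancel_right, SimpleGraph.edist_comm] at h2

lemma rel_reach (hX : Subgroup.closure (X ∪ H) = ⊤) (a : G) :
    ∃ M : ℕ, ∃ h ∈ H, (relGraph X H).edist h a ≤ M := by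
  have ha : a ∈ Subgroup.closure (X ∪ H) := by rw [hX]; trivial
  induction ha using Subgroup.closure_induction_right with
  | one => exact ⟨0, 1, one_mem _, by simp⟩
  | mul_right x _ y hy ih =>
    by_cases hxy : x * y ∈ H
    · exact ⟨0, _, hxy, by simp⟩
    obtain ⟨M, h, hh, hM⟩ := ih
    refine ⟨M + 1, h, hh, ?_⟩
    push_cast
    refine SimpleGraph.edist_triangle.trans (add_le_add hM (rel_edge ?_))
    rcases hy with hy | hy
    · left; simpa using hy
    · right; exact ⟨by simpa using hy, fun hx => hxy (mul_mem hx hy)⟩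
  | mul_inv_cancel x _ y hy ih =>
    by_cases hxy : x * y⁻¹ ∈ H
    · exact ⟨0, _, hxy, by simp⟩
    obtain ⟨M, h, hh, hM⟩ := ih
    refine ⟨M + 1, h, hh, ?_⟩
    push_cast
    refine SimpleGraph.edist_triangle.trans (add_le_add hM ?_)
    rw [SimpleGraph.edist_comm]
    apply rel_edge
    rcases hy with hy | hy
    · left; simpa using hy
    · right; exact ⟨by simpa using hy, hxy⟩

end rel

theorem not_hypEmbedded : ¬ HypEmbedded HH := by
  rintro ⟨X, hX, -, hfin⟩
  obtain ⟨M, V, hV, hM⟩ := rel_generic hX aa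
  obtain ⟨M', h0, hh0, hM'⟩ := rel_reach hX aa
  have bad1 : ∀ v, {p : K | aa * tau p * v ∈ HH}.Subsingleton := by
    intro v p hp q hq
    have h1 := lamp_zero (HH.mul_mem hp (HH.inv_mem hq))
    have h2 : aa * tau p * v * (aa * tau q * v)⁻¹ = aa * tau (p - q) * aa⁻¹ := by
      rw [sub_eq_add_neg, tau_add, tau_neg]; group
    rw [h2] at h1
    simp only [aa, map_mul, map_inv, piB_lam, piB_tau, mul_l, inv_l, mul_p, neg_zero, Xp_zero,
      zero_add] at h1
    have h3 : Xp (p - q) = Xp 0 := by rw [Xp_zero]; linear_combination -h1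
    exact sub_eq_zero.1 (Xp_inj h3)
  have bad2 : ∀ v, {p : K | lam (Xp p) * v ∈ HH}.Subsingleton := by
    intro v p hp q hq
    have h1 := lamp_zero (HH.mul_mem hp (HH.inv_mem hq))
    have h2 : lam (Xp p) * v * (lam (Xp q) * v)⁻¹ = lam (Xp p) * (lam (Xp q))⁻¹ := by group
    rw [h2] at h1
    simp only [map_mul, map_inv, piB_lam, mul_l, inv_l, neg_zero, Xp_zero] at h1
    exact Xp_inj (by linear_combination h1)
  have hbad : ((⋃ v ∈ V, {p : K | aa * tau p * v ∈ HH}) ∪
      ⋃ v ∈ V, {p : K | lam (Xp p) * v ∈ HH}).Finite :=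
    (hV.biUnion fun v _ => (bad1 v).finite).union (hV.biUnion fun v _ => (bad2 v).finite)
  have hinj : Function.Injective fun p : K => tau p * h0 := by
    intro p q h
    have := congrArg (fun g => (piB g).p) (mul_right_cancel h)
    simpa using this
  refine (hbad.infinite_compl.image hinj.injOn) ((hfin h0 hh0 (M' + 1 + M + 1 + M + 1 + M')).subset ?_)
  rintro _ ⟨p, hp, rfl⟩
  simp only [mem_compl_iff, mem_union, mem_iUnion, not_or, not_exists, Set.mem_ofPred_eq] at hp
  refine ⟨mul_mem (tau_mem p) hh0, ?_⟩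
  have e1 : (relGraph X HH).edist aa (aa * tau p) ≤ 1 :=
    rel_edge (Or.inr ⟨by simpa using tau_mem p, aa_notMem⟩)
  have e2 := hM (aa * tau p) hp.1
  have i1 : aa * tau p * aa = lam (Xp p) * aa * tau p := by
    rw [mul_assoc, aa, tau_mul_lam, mul_one, ← mul_assoc, ← lam_add, ← lam_add, add_comm]
  have e3 : (relGraph X HH).edist (aa * tau p * aa) (lam (Xp p) * aa) ≤ 1 := by
    rw [SimpleGraph.edist_comm, i1]
    refine rel_edge (Or.inr ⟨by rw [inv_mul_cancel_left]; exact tau_mem p, fun h => ?_⟩)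
    have := lamp_zero h
    rw [aa, ← lam_add, piB_lam] at this
    exact one_add_Xp_ne p (by rw [add_comm]; exact this)
  have e4 := hM (lam (Xp p)) hp.2
  rw [SimpleGraph.edist_comm] at e4
  have i2 : tau p * aa = lam (Xp p) * tau p := by rw [aa, tau_mul_lam, mul_one]
  have e5 : (relGraph X HH).edist (lam (Xp p)) (tau p * aa) ≤ 1 := by
    rw [i2]
    refine rel_edge (Or.inr ⟨by simpa using tau_mem p, fun h => ?_⟩)
    have := lamp_zero h
    rw [piB_lam] at this
    exact Xp_ne_zero p this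
  have e6 := (rel_inv (X := X) (tau_mem p) h0 aa).trans hM'
  rw [SimpleGraph.edist_comm] at e6
  push_cast
  exact SimpleGraph.edist_triangle.trans (add_le_add (SimpleGraph.edist_triangle.trans
    (add_le_add (SimpleGraph.edist_triangle.trans (add_le_add (SimpleGraph.edist_triangle.trans
    (add_le_add (SimpleGraph.edist_triangle.trans (add_le_add (SimpleGraph.edist_triangle.trans
    (add_le_add hM' e1)) e2)) e3)) e4)) e5)) e6)

end Pool.Agent.H557Z.Mb
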