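import Pool.Agent.H557Z.PottsDefs

namespace Pool.Agent.H557Z.Potts

open Finset

variable {n q : ℕ}

theorem step_eq (G : SimpleGraph (Fin n)) (β : ℝ) (μ : (Fin n → Fin q) → ℝ) (v : Fin n)
    (σ : Fin n → Fin q) :
    step G β μ v σ = (∑ c, μ (Function.update σ v c)) *
      (Real.exp (β * energy G σ) / ∑ c, Real.exp (β * energy G (Function.update σ v c))) := by
  unfold step
  rw [sum_mul]
  symm
  apply Fintype.sum_of_injective (Function.update σ v) (Function.update_injective σ v)
  · intro τ hτ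
    rw [kernel, if_neg, mul_zero]
    intro h
    apply hτ
    refine ⟨τ v, ?_⟩
    funext u
    by_cases hu : u = v
    · subst hu; simp
    · rw [Function.update_of_ne hu, h u hu]
  · intro c
    rw [kernel, if_pos (fun u hu => (Function.update_of_ne hu _ _).symm)]
    congr 1
    simp only [gibbs, Function.update_idem, ← sum_div]
    have : (0 : ℝ) < ∑ τ : Fin n → Fin q, Real.exp (β * energy G τ) :=
      sum_pos (fun _ _ => Real.exp_pos _) ⟨σ, mem_univ _⟩
    field_simp

theorem sum_step (G : SimpleGraph (Fin n)) (β : ℝ) (μ : (Fin n → Fin q) → ℝ) (v : Fin n) :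
    ∑ σ, step G β μ v σ = ∑ σ, μ σ := by
  unfold step
  rw [sum_comm]
  refine sum_congr rfl fun τ _ => ?_
  rw [← mul_sum]
  have hZ : (0 : ℝ) < ∑ τ : Fin n → Fin q, Real.exp (β * energy G τ) :=
    sum_pos (fun _ _ => Real.exp_pos _) ⟨τ, mem_univ _⟩
  have hp : (0 : ℝ) < ∑ c : Fin q, gibbs G β (Function.update τ v c) :=
    sum_pos (fun _ _ => div_pos (Real.exp_pos _) hZ) ⟨τ v, mem_univ _⟩
  have : ∑ σ, kernel G β v τ σ = ∑ c : Fin q, gibbs G β (Function.update τ v c) /
      ∑ c : Fin q, gibbs G β (Function.update τ v c) := by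
    symm
    apply Fintype.sum_of_injective (Function.update τ v) (Function.update_injective τ v)
    · intro σ hσ
      rw [kernel, if_neg]
      intro h
      apply hσ
      refine ⟨σ v, ?_⟩
      funext u
      by_cases hu : u = v
      · subst hu; simp
      · rw [Function.update_of_ne hu, h u hu]
    · intro c
      rw [kernel, if_pos (fun u hu => (Function.update_of_ne hu _ _))]
  rw [this, ← sum_div, div_self hp.ne', mul_one]

theorem sum_law (G : SimpleGraph (Fin n)) (β : ℝ) (g : Fin q) (l : List (Fin n)) :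
    ∑ σ, law G β g l σ = 1 := by
  have : ∀ (l : List (Fin n)) (μ : (Fin n → Fin q) → ℝ),
      ∑ σ, l.foldl (step G β) μ σ = ∑ σ, μ σ := by
    intro l
    induction l with
    | nil => intro μ; rfl
    | cons a l ih => intro μ; rw [List.foldl_cons, ih, sum_step]
  rw [law, this]; simp

theorem sum_gibbs (G : SimpleGraph (Fin n)) (β : ℝ) (g : Fin q) :
    ∑ σ : Fin n → Fin q, gibbs G β σ = 1 := by
  have hZ : (0 : ℝ) < ∑ τ : Fin n → Fin q, Real.exp (β * energy G τ) :=
    sum_pos (fun _ _ => Real.exp_pos _) ⟨fun _ => g, mem_univ _⟩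
  simp only [gibbs, ← sum_div]
  exact div_self hZ.ne'

/-- If `μ ≤ π` on `B` and `π ≤ μ` off `B`, and `ν(B) < μ(B)`, then `ν` is further from `π`. -/
theorem tv_lt {μ ν π : (Fin n → Fin q) → ℝ} (hμ : ∑ σ, μ σ = ∑ σ, π σ)
    (B : Finset (Fin n → Fin q)) (h1 : ∀ σ ∈ B, μ σ ≤ π σ) (h2 : ∀ σ ∉ B, π σ ≤ μ σ)
    (h3 : ∑ σ ∈ B, ν σ < ∑ σ ∈ B, μ σ) : tv μ π < tv ν π := by
  classical
  have key : ∀ A : Finset (Fin n → Fin q),
      ∑ σ ∈ A, π σ - ∑ σ ∈ A, μ σ ≤ ∑ σ ∈ B, π σ - ∑ σ ∈ B, μ σ := by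
    intro A
    rw [← sum_sub_distrib, ← sum_sub_distrib]
    calc ∑ σ ∈ A, (π σ - μ σ) ≤ ∑ σ ∈ A ∩ B, (π σ - μ σ) := by
          apply sum_le_sum_of_subset_of_nonpos' inter_subset_left
          intro σ hA hn
          have : σ ∉ B := fun h => hn (mem_inter.2 ⟨hA, h⟩)
          linarith [h2 σ this]
      _ ≤ _ := by
          apply sum_le_sum_of_subset_of_nonneg inter_subset_right
          intro σ hB _
          linarith [h1 σ hB]
  have hle : tv μ π ≤ ∑ σ ∈ B, π σ - ∑ σ ∈ B, μ σ := by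
    apply sup'_le
    intro A _
    rw [abs_le]
    constructor
    · linarith [key A]
    · have e1 := sum_add_sum_compl A μ
      have e2 := sum_add_sum_compl A π
      linarith [key Aᶜ]
  have hge : |∑ σ ∈ B, ν σ - ∑ σ ∈ B, π σ| ≤ tv ν π :=
    le_sup' (fun A => |∑ σ ∈ A, ν σ - ∑ σ ∈ A, π σ|) (mem_univ B)
  have := neg_abs_le (∑ σ ∈ B, ν σ - ∑ σ ∈ B, π σ)
  linarith

theorem sum_split1 (F : Fin q → ℝ) (a : Fin q) (k : ℝ) (h : ∀ t, t ≠ a → F t = k) :
    ∑ t, F t = F a + (q - 1) * k := by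
  have : ∀ t, F t = k + (if t = a then F a - k else 0) := by
    intro t; by_cases ht : t = a
    · subst ht; simp
    · simp [ht, h t ht]
  rw [sum_congr rfl fun t _ => this t]
  simp [sum_add_distrib]; ring

theorem sum_split2 (F : Fin q → ℝ) (a b : Fin q) (hab : a ≠ b) (k : ℝ)
    (h : ∀ t, t ≠ a → t ≠ b → F t = k) : ∑ t, F t = F a + F b + (q - 2) * k := by
  have : ∀ t, F t = k + (if t = a then F a - k else 0) + (if t = b then F b - k else 0) := by
    intro t; by_cases ht : t = a
    · subst ht; simp [hab]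
    · by_cases ht' : t = b
      · subst ht'; simp [ht]
      · simp [ht, ht', h t ht ht']
  rw [sum_congr rfl fun t _ => this t]
  simp [sum_add_distrib]; ring

theorem sum_split3 (F : Fin q → ℝ) (a b c : Fin q) (hab : a ≠ b) (hac : a ≠ c) (hbc : b ≠ c)
    (k : ℝ) (h : ∀ t, t ≠ a → t ≠ b → t ≠ c → F t = k) :
    ∑ t, F t = F a + F b + F c + (q - 3) * k := by
  have : ∀ t, F t = k + (if t = a then F a - k else 0) + (if t = b then F b - k else 0)
      + (if t = c then F c - k else 0) := by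
    intro t; by_cases ht : t = a
    · subst ht; simp [hab, hac]
    · by_cases ht' : t = b
      · subst ht'; simp [ht, hbc]
      · by_cases ht'' : t = c
        · subst ht''; simp [ht, ht']
        · simp [ht, ht', ht'', h t ht ht' ht'']
  rw [sum_congr rfl fun t _ => this t]
  simp [sum_add_distrib]; ring

end Pool.Agent.H557Z.Potts
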