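import Mathlib

/-!
The `q`-state Potts model on a finite graph, its heat-bath updates and total variation distance.
Measures on the finite set of configurations are given by their mass functions.
-/

namespace Pool.Agent.H557Z.Potts

open Finset

variable {n q : ℕ}

open Classical in
/-- The number of edges of `G` whose two ends have the same colour under `σ`. -/
noncomputable def energy (G : SimpleGraph (Fin n)) (σ : Fin n → Fin q) : ℝ :=
  ∑ e ∈ G.edgeFinset, if (e.map σ).IsDiag then 1 else 0

/-- The Potts measure `π(σ) ∝ exp (β · #monochromatic edges)`. -/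
noncomputable def gibbs (G : SimpleGraph (Fin n)) (β : ℝ) (σ : Fin n → Fin q) : ℝ :=
  Real.exp (β * energy G σ) / ∑ τ : Fin n → Fin q, Real.exp (β * energy G τ)

/-- The heat-bath kernel `P_v(τ, σ)`: keep all spins off `v`, resample the spin at `v` from its
conditional law under `π`. -/
noncomputable def kernel (G : SimpleGraph (Fin n)) (β : ℝ) (v : Fin n) (τ σ : Fin n → Fin q) : ℝ :=
  if ∀ u, u ≠ v → σ u = τ u then
    gibbs G β σ / ∑ c : Fin q, gibbs G β (Function.update τ v c)
  else 0

/-- The law `μ P_v`. -/
noncomputable def step (G : SimpleGraph (Fin n)) (β : ℝ) (μ : (Fin n → Fin q) → ℝ) (v : Fin n) :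
    (Fin n → Fin q) → ℝ :=
  fun σ => ∑ τ, μ τ * kernel G β v τ σ

/-- The law `δ_g P_{v_1} ⋯ P_{v_T}` after updating the sites of the list in order, starting from
the configuration in which every site has colour `g`. -/
noncomputable def law (G : SimpleGraph (Fin n)) (β : ℝ) (g : Fin q) (l : List (Fin n)) :
    (Fin n → Fin q) → ℝ :=
  l.foldl (step G β) (fun σ => if σ = fun _ => g then 1 else 0)

/-- Total variation distance `max_A |μ(A) - ν(A)|`. -/
noncomputable def tv (μ ν : (Fin n → Fin q) → ℝ) : ℝ :=
  (univ : Finset (Finset (Fin n → Fin q))).sup' ⟨∅, mem_univ _⟩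
    (fun A => |∑ σ ∈ A, μ σ - ∑ σ ∈ A, ν σ|)

end Pool.Agent.H557Z.Potts
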