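import Mathlib

namespace Pool.Agent.H557Z.Potts

theorem polyN (Q x A1 A2 B2 A3 B3 C3 Z : ℝ) (hQ : 3 ≤ Q) (hx : x = Q ^ 3) (h1 : A1 = x + (Q - 1))
    (h2 : A2 = x ^ 2 + (Q - 1)) (h3 : B2 = 2 * x + (Q - 2)) (h4 : A3 = x ^ 3 + (Q - 1))
    (h5 : B3 = x ^ 2 + x + (Q - 2)) (h6 : C3 = 3 * x + (Q - 3))
    (h7 : Z = Q ^ 5 * A1 ^ 2 * (x * A2 + (Q - 1) * B2)) :
    0 < 2 * x ^ 2 * A3 * B3 * C3 ^ 2 + (Q - 2) * A3 * B3 ^ 3 - x * ((x ^ 4 + x ^ 2) * B3 * C3 ^ 2 + (Q - 2) * x * B3 ^ 2 * C3) - ((x ^ 4 + (Q - 2) * x ^ 2) * A3 * C3 ^ 2 + x ^ 4 * B3 * C3 ^ 2) - (Q - 2) * ((x ^ 2 + (Q - 3)) * A3 * B3 ^ 2 + 2 * x * A3 * B3 * C3) := by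
  obtain ⟨p, hp, hQp⟩ : ∃ p : ℝ, 0 ≤ p ∧ Q = p + 3 := ⟨Q - 3, by linarith, by ring⟩
  have : 2 * x ^ 2 * A3 * B3 * C3 ^ 2 + (Q - 2) * A3 * B3 ^ 3 - x * ((x ^ 4 + x ^ 2) * B3 * C3 ^ 2 + (Q - 2) * x * B3 ^ 2 * C3) - ((x ^ 4 + (Q - 2) * x ^ 2) * A3 * C3 ^ 2 + x ^ 4 * B3 * C3 ^ 2) - (Q - 2) * ((x ^ 2 + (Q - 3)) * A3 * B3 ^ 2 + 2 * x * A3 * B3 * C3) = 28946448362 + 698996679469 * p ^ 1 + 4532863210884 * p ^ 2 + 15788138423276 * p ^ 3 + 36237950012678 * p ^ 4 + 60388781693605 * p ^ 5 + 77243266389120 * p ^ 6 + 78568562064596 * p ^ 7 + 65090132040694 * p ^ 8 + 44660706079258 * p ^ 9 + 25681120078123 * p ^ 10 + 12478291474726 * p ^ 11 + 5151159631758 * p ^ 12 + 1812172515164 * p ^ 13 + 543823657670 * p ^ 14 + 139063371505 * p ^ 15 + 30204301625 * p ^ 16 + 5541001034 * p ^ 17 + 851276918 * p ^ 18 + 108188062 * p ^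 19 + 11176325 * p ^ 20 + 914952 * p ^ 21 + 57126 * p ^ 22 + 2556 * p ^ 23 + 73 * p ^ 24 + 1 * p ^ 25 := by
    subst hx h1 h2 h3 h4 h5 h6 h7 hQp
    ring
  rw [this]
  positivity

theorem polyB (Q x A1 A2 B2 A3 B3 C3 Z : ℝ) (hQ : 3 ≤ Q) (hx : x = Q ^ 3) (h1 : A1 = x + (Q - 1))
    (h2 : A2 = x ^ 2 + (Q - 1)) (h3 : B2 = 2 * x + (Q - 2)) (h4 : A3 = x ^ 3 + (Q - 1))
    (h5 : B3 = x ^ 2 + x + (Q - 2)) (h6 : C3 = 3 * x + (Q - 3))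
    (h7 : Z = Q ^ 5 * A1 ^ 2 * (x * A2 + (Q - 1) * B2)) :
    0 < A1 * A2 ^ 2 * B3 ^ 2 * C3 ^ 2 - (2 * x ^ 2 * C3 ^ 2 + (Q - 2) * B3 ^ 2) * Z := by
  obtain ⟨p, hp, hQp⟩ : ∃ p : ℝ, 0 ≤ p ∧ Q = p + 3 := ⟨Q - 3, by linarith, by ring⟩
  have : A1 * A2 ^ 2 * B3 ^ 2 * C3 ^ 2 - (2 * x ^ 2 * C3 ^ 2 + (Q - 2) * B3 ^ 2) * Z = 17139573981602334 + 197119890282158001 * p ^ 1 + 1097684925613449155 * p ^ 2 + 3942436856248161901 * p ^ 3 + 10263671088136882994 * p ^ 4 + 20637169489369199992 * p ^ 5 + 33345181273942927198 * p ^ 6 + 44478179593095959786 * p ^ 7 + 49930605187913989695 * p ^ 8 + 47852660698551885052 * p ^ 9 + 39580570791369962747 * p ^ 10 + 28492008039783485871 * p ^ 11 + 17965117628543464022 * p ^ 12 + 9971263874663883114 * p ^ 13 + 4889834656701732963 * p ^ 14 + 2124299294465833634 * p ^ 15 + 818962739317374333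 * p ^ 16 + 280424822831111087 * p ^ 17 + 85288878083503436 * p ^ 18 + 23022608007046254 * p ^ 19 + 5506718590549682 * p ^ 20 + 1164107344583330 * p ^ 21 + 216712195185325 * p ^ 22 + 35355380650153 * p ^ 23 + 5022813060621 * p ^ 24 + 616264986006 * p ^ 25 + 64600681970 * p ^ 26 + 5703993435 * p ^ 27 + 416154047 * p ^ 28 + 24423153 * p ^ 29 + 1108228 * p ^ 30 + 36493 * p ^ 31 + 776 * p ^ 32 + 8 * p ^ 33 := by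
    subst hx h1 h2 h3 h4 h5 h6 h7 hQp
    ring
  rw [this]
  positivity

theorem polyA1 (Q x A1 A2 B2 A3 B3 C3 Z : ℝ) (hQ : 3 ≤ Q) (hx : x = Q ^ 3) (h1 : A1 = x + (Q - 1))
    (h2 : A2 = x ^ 2 + (Q - 1)) (h3 : B2 = 2 * x + (Q - 2)) (h4 : A3 = x ^ 3 + (Q - 1))
    (h5 : B3 = x ^ 2 + x + (Q - 2)) (h6 : C3 = 3 * x + (Q - 3))
    (h7 : Z = Q ^ 5 * A1 ^ 2 * (x * A2 + (Q - 1) * B2)) :
    0 < x ^ 2 * Z - A1 * A2 * B3 ^ 2 * B2 := by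
  obtain ⟨p, hp, hQp⟩ : ∃ p : ℝ, 0 ≤ p ∧ Q = p + 3 := ⟨Q - 3, by linarith, by ring⟩
  have : x ^ 2 * Z - A1 * A2 * B3 ^ 2 * B2 = 2288674887764 + 20115251901344 * p ^ 1 + 84866156717609 * p ^ 2 + 228833387205677 * p ^ 3 + 442930648883455 * p ^ 4 + 655303186926244 * p ^ 5 + 770399577469679 * p ^ 6 + 738664857327513 * p ^ 7 + 588223214579363 * p ^ 8 + 394157160990531 * p ^ 9 + 224343394412044 * p ^ 10 + 109184794092046 * p ^ 11 + 45640154858209 * p ^ 12 + 16428007769296 * p ^ 13 + 5096295901900 * p ^ 14 + 1361513814549 * p ^ 15 + 312475251419 * p ^ 16 + 61340927915 * p ^ 17 + 10232578496 * p ^ 18 + 1437092638 * p ^ 19 + 167737938 * p ^ 20 + 15979855 * p ^ 21 + 1210810 * p ^ 22 + 70198 * p ^ 23 + 2925 * p ^ 24 + 78 * p ^ 25 + 1 * p ^ 26 := by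
    subst hx h1 h2 h3 h4 h5 h6 h7 hQp
    ring
  rw [this]
  positivity

theorem polyA2 (Q x A1 A2 B2 A3 B3 C3 Z : ℝ) (hQ : 3 ≤ Q) (hx : x = Q ^ 3) (h1 : A1 = x + (Q - 1))
    (h2 : A2 = x ^ 2 + (Q - 1)) (h3 : B2 = 2 * x + (Q - 2)) (h4 : A3 = x ^ 3 + (Q - 1))
    (h5 : B3 = x ^ 2 + x + (Q - 2)) (h6 : C3 = 3 * x + (Q - 3))
    (h7 : Z = Q ^ 5 * A1 ^ 2 * (x * A2 + (Q - 1) * B2)) :
    0 < x ^ 2 * Z - A1 * A2 ^ 2 * B3 * C3 := by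
  obtain ⟨p, hp, hQp⟩ : ∃ p : ℝ, 0 ≤ p ∧ Q = p + 3 := ⟨Q - 3, by linarith, by ring⟩
  have : x ^ 2 * Z - A1 * A2 ^ 2 * B3 * C3 = 2006621514396 + 17847596432044 * p ^ 1 + 76138052052823 * p ^ 2 + 207428614361130 * p ^ 3 + 405378457223897 * p ^ 4 + 605142093543117 * p ^ 5 + 717387332821591 * p ^ 6 + 693195358938800 * p ^ 7 + 556009728972199 * p ^ 8 + 375072320819401 * p ^ 9 + 214806812449316 * p ^ 10 + 105142712481347 * p ^ 11 + 44182239805317 * p ^ 12 + 15980039759470 * p ^ 13 + 4979150819825 * p ^ 14 + 1335523929008 * p ^ 15 + 307610269017 * p ^ 16 + 60579053712 * p ^ 17 + 10133973228 * p ^ 18 + 1426728256 * p ^ 19 + 166875342 * p ^ 20 + 15925144 * p ^ 21 + 1208325 * p ^ 22 + 70126 * p ^ 23 + 2924 * p ^ 24 + 78 * p ^ 25 + 1 * p ^ 26 := by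
    subst hx h1 h2 h3 h4 h5 h6 h7 hQp
    ring
  rw [this]
  positivity

end Pool.Agent.H557Z.Potts
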