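import Pool.Agent.H557Z.PottsModel
import Pool.Agent.H557Z.PottsPoly

namespace Pool.Agent.H557Z.Potts

open Finset

variable {q : ℕ}

theorem Sw_eq (x : ℝ) {g r : Fin q} (h : r ≠ g) :
    ∑ s, K2 x s g g * K3 x r g s r * K3 x r r s g =
      x ^ 2 / (x ^ 2 + (q - 1)) * (x / (x ^ 2 + x + (q - 2))) * (x / (x ^ 2 + x + (q - 2))) +
      1 / (x ^ 2 + (q - 1)) * (x ^ 2 / (x ^ 2 + x + (q - 2))) * (x ^ 2 / (x ^ 2 + x + (q - 2))) +
      (q - 2) * (1 / (x ^ 2 + (q - 1)) * (x / (3 * x + (q - 3))) * (x / (3 * x + (q - 3)))) := by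
  rw [sum_split2 _ g r h.symm
    (1 / (x ^ 2 + (q - 1)) * (x / (3 * x + (q - 3))) * (x / (3 * x + (q - 3))))]
  · simp only [K2, K3, Z2_aa, Z3_aab x h.symm, Z3_baa x h.symm, Z3_baa x h, Z3_aab x h, e_self,
      e_ne x h]
    ring
  · intro t ht ht'
    simp only [K2, K3, Z2_aa, Z3_abc x ht.symm h.symm ht', Z3_abc x ht'.symm h ht, e_self,
      e_ne x h, e_ne x ht, e_ne x ht'.symm]
    ring

theorem Sv_eq (x : ℝ) {g r : Fin q} (h : r ≠ g) :
    ∑ s, K2 x s g g * (∑ t, K3 x t g s g * K3 x r t s r) * K3 x r r s g =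
      x ^ 2 / (x ^ 2 + (q - 1)) *
        (x ^ 3 / (x ^ 3 + (q - 1)) * (x / (x ^ 2 + x + (q - 2))) +
          1 / (x ^ 3 + (q - 1)) * (x ^ 2 / (x ^ 2 + x + (q - 2))) +
          (q - 2) * (1 / (x ^ 3 + (q - 1)) * (x / (3 * x + (q - 3))))) *
        (x / (x ^ 2 + x + (q - 2))) +
      1 / (x ^ 2 + (q - 1)) *
        (x ^ 2 / (x ^ 2 + x + (q - 2)) * (x ^ 2 / (x ^ 2 + x + (q - 2))) +
          x / (x ^ 2 + x + (q - 2)) * (x ^ 3 / (x ^ 3 + (q - 1))) +
          (q - 2) * (1 / (x ^ 2 + x + (q - 2)) * (x ^ 2 / (x ^ 2 + x + (q - 2))))) *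
        (x ^ 2 / (x ^ 2 + x + (q - 2))) +
      (q - 2) * (1 / (x ^ 2 + (q - 1)) *
        (x ^ 2 / (x ^ 2 + x + (q - 2)) * (x / (3 * x + (q - 3))) +
          1 / (x ^ 2 + x + (q - 2)) * (x ^ 2 / (x ^ 2 + x + (q - 2))) +
          x / (x ^ 2 + x + (q - 2)) * (x / (x ^ 2 + x + (q - 2))) +
          (q - 3) * (1 / (x ^ 2 + x + (q - 2)) * (x / (3 * x + (q - 3))))) *
        (x / (3 * x + (q - 3)))) := by
  have i1 : ∑ t, K3 x t g g g * K3 x r t g r =
      x ^ 3 / (x ^ 3 + (q - 1)) * (x / (x ^ 2 + x + (q - 2))) +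
          1 / (x ^ 3 + (q - 1)) * (x ^ 2 / (x ^ 2 + x + (q - 2))) +
          (q - 2) * (1 / (x ^ 3 + (q - 1)) * (x / (3 * x + (q - 3)))) := by
    rw [sum_split2 _ g r h.symm (1 / (x ^ 3 + (q - 1)) * (x / (3 * x + (q - 3))))]
    · simp only [K3, Z3_aaa, Z3_aab x h.symm, Z3_aba x h, e_self, e_ne x h]
      ring
    · intro t ht ht'
      simp only [K3, Z3_aaa, Z3_abc x ht ht' h.symm, e_self, e_ne x h, e_ne x ht,
        e_ne x ht'.symm]
      ring
  have i2 : ∑ t, K3 x t g r g * K3 x r t r r =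
      x ^ 2 / (x ^ 2 + x + (q - 2)) * (x ^ 2 / (x ^ 2 + x + (q - 2))) +
          x / (x ^ 2 + x + (q - 2)) * (x ^ 3 / (x ^ 3 + (q - 1))) +
          (q - 2) * (1 / (x ^ 2 + x + (q - 2)) * (x ^ 2 / (x ^ 2 + x + (q - 2)))) := by
    rw [sum_split2 _ g r h.symm (1 / (x ^ 2 + x + (q - 2)) * (x ^ 2 / (x ^ 2 + x + (q - 2))))]
    · simp only [K3, Z3_aaa, Z3_aba x h.symm, Z3_baa x h, e_self, e_ne x h, e_ne x h.symm]
      ring
    · intro t ht ht'
      simp only [K3, Z3_aba x h.symm, Z3_baa x ht'.symm, e_self, e_ne x ht, e_ne x ht',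
        e_ne x ht'.symm]
      ring
  have i3 : ∀ b, b ≠ g → b ≠ r → ∑ t, K3 x t g b g * K3 x r t b r =
      x ^ 2 / (x ^ 2 + x + (q - 2)) * (x / (3 * x + (q - 3))) +
          1 / (x ^ 2 + x + (q - 2)) * (x ^ 2 / (x ^ 2 + x + (q - 2))) +
          x / (x ^ 2 + x + (q - 2)) * (x / (x ^ 2 + x + (q - 2))) +
          (q - 3) * (1 / (x ^ 2 + x + (q - 2)) * (x / (3 * x + (q - 3)))) := by
    intro b hb hb'
    rw [sum_split3 _ g r b h.symm hb.symm hb'.symm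
      (1 / (x ^ 2 + x + (q - 2)) * (x / (3 * x + (q - 3))))]
    · simp only [K3, Z3_aba x hb.symm, Z3_abc x hb.symm h.symm hb', Z3_aba x hb'.symm,
        Z3_aab x hb', e_self, e_ne x h, e_ne x hb, e_ne x hb.symm, e_ne x hb'.symm]
      ring
    · intro t ht ht' ht''
      simp only [K3, Z3_aba x hb.symm, Z3_abc x ht'' ht' hb', e_self, e_ne x ht, e_ne x ht'',
        e_ne x ht'.symm, e_ne x hb'.symm]
      ring
  rw [sum_split2 _ g r h.symm (1 / (x ^ 2 + (q - 1)) *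
        (x ^ 2 / (x ^ 2 + x + (q - 2)) * (x / (3 * x + (q - 3))) +
          1 / (x ^ 2 + x + (q - 2)) * (x ^ 2 / (x ^ 2 + x + (q - 2))) +
          x / (x ^ 2 + x + (q - 2)) * (x / (x ^ 2 + x + (q - 2))) +
          (q - 3) * (1 / (x ^ 2 + x + (q - 2)) * (x / (3 * x + (q - 3))))) *
        (x / (3 * x + (q - 3))))]
  · rw [i1, i2]
    simp only [K2, K3, Z2_aa, Z3_baa x h.symm, Z3_aab x h, e_self, e_ne x h]
    ring
  · intro t ht ht'
    rw [i3 t ht ht']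
    simp only [K2, K3, Z2_aa, Z3_abc x ht'.symm h ht, e_self, e_ne x h, e_ne x ht,
      e_ne x ht'.symm]
    ring

section
variable (hq : 3 ≤ q) {x : ℝ} (hx : x = (q : ℝ) ^ 3)
include hq hx

theorem basic : (3 : ℝ) ≤ q ∧ (q : ℝ) ≤ x ∧ 0 < x := by
  have h : (3 : ℝ) ≤ q := by exact_mod_cast hq
  refine ⟨h, ?_, by rw [hx]; positivity⟩
  rw [hx]; nlinarith [mul_le_mul h h (by norm_num) (by linarith)]

theorem ineqC {g r : Fin q} (h : r ≠ g) :
    ∑ s, K2 x s g g * (∑ t, K3 x t g s g * K3 x r t s r) * K3 x r r s g <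
      ∑ s, K2 x s g g * K3 x r g s r * K3 x r r s g := by
  obtain ⟨hQ, hQx, hx0⟩ := basic hq hx
  rw [Sw_eq x h, Sv_eq x h]
  have key := polyN q x _ _ _ _ _ _ _ hQ hx rfl rfl rfl rfl rfl rfl rfl
  have p2 : 0 < x ^ 2 + ((q : ℝ) - 1) := by nlinarith
  have p4 : 0 < x ^ 3 + ((q : ℝ) - 1) := by nlinarith [pow_pos hx0 3]
  have p5 : 0 < x ^ 2 + x + ((q : ℝ) - 2) := by nlinarith
  have p6 : 0 < 3 * x + ((q : ℝ) - 3) := by nlinarith
  generalize x ^ 2 + ((q : ℝ) - 1) = A2 at *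
  generalize x ^ 3 + ((q : ℝ) - 1) = A3 at *
  generalize x ^ 2 + x + ((q : ℝ) - 2) = B3 at *
  generalize 3 * x + ((q : ℝ) - 3) = C3 at *
  rw [← sub_pos]
  have := div_pos (mul_pos (pow_pos hx0 2) key)
    (show 0 < A2 * A3 * B3 ^ 3 * C3 ^ 2 by positivity)
  refine this.trans_eq ?_
  field_simp
  ring

theorem ineqB {g r : Fin q} (h : r ≠ g) (c : Fin q) :
    K1 x r g * (∑ s, K2 x s g g * K3 x r g s r * K3 x r r s g) * K2 x c r r ≤
      e x r r * e x r c * e x r r * e x r c * e x r g /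
      ((q : ℝ) ^ 5 * (x + (q - 1)) ^ 2 *
        (x * (x ^ 2 + (q - 1)) + (q - 1) * (2 * x + (q - 2)))) := by
  obtain ⟨hQ, hQx, hx0⟩ := basic hq hx
  rw [Sw_eq x h, K1, K2, Z1_eq, Z2_aa, e_ne x h, e_self, e_comm x c r]
  have key := polyB q x _ _ _ _ _ _ _ hQ hx rfl rfl rfl rfl rfl rfl rfl
  have p1 : 0 < x + ((q : ℝ) - 1) := by nlinarith
  have p2 : 0 < x ^ 2 + ((q : ℝ) - 1) := by nlinarith
  have p3 : 0 < 2 * x + ((q : ℝ) - 2) := by nlinarith
  have p5 : 0 < x ^ 2 + x + ((q : ℝ) - 2) := by nlinarith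
  have p6 : 0 < 3 * x + ((q : ℝ) - 3) := by nlinarith
  have p7 : 0 < (q : ℝ) ^ 5 * (x + (q - 1)) ^ 2 *
        (x * (x ^ 2 + (q - 1)) + (q - 1) * (2 * x + (q - 2))) := by
    have : (0 : ℝ) < q - 1 := by linarith
    positivity
  have pe := e_pos hx0 r c
  generalize (q : ℝ) ^ 5 * (x + (q - 1)) ^ 2 *
        (x * (x ^ 2 + (q - 1)) + (q - 1) * (2 * x + (q - 2))) = Z at *
  generalize x + ((q : ℝ) - 1) = A1 at *
  generalize x ^ 2 + ((q : ℝ) - 1) = A2 at *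
  generalize x ^ 2 + x + ((q : ℝ) - 2) = B3 at *
  generalize 3 * x + ((q : ℝ) - 3) = C3 at *
  generalize e x r c = y at *
  rw [← sub_nonneg]
  have := div_pos (mul_pos (show 0 < x ^ 2 * y ^ 2 by positivity) key)
    (show 0 < Z * A1 * A2 ^ 2 * B3 ^ 2 * C3 ^ 2 by positivity)
  refine this.le.trans_eq ?_
  field_simp
  ring

theorem ineqA {g a b c d : Fin q} (h : ¬ (a = b ∧ a = d ∧ a ≠ g)) :
    e x a b * e x a c * e x a d * e x b c * e x b g /
      ((q : ℝ) ^ 5 * (x + (q - 1)) ^ 2 *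
        (x * (x ^ 2 + (q - 1)) + (q - 1) * (2 * x + (q - 2)))) ≤
    K1 x d g * (∑ s, K2 x s g g * K3 x a g s d * K3 x b a s g) * K2 x c a b := by
  obtain ⟨hQ, hQx, hx0⟩ := basic hq hx
  have hterm : ∀ s0, K1 x d g * (K2 x s0 g g * K3 x a g s0 d * K3 x b a s0 g) * K2 x c a b ≤
      K1 x d g * (∑ s, K2 x s g g * K3 x a g s d * K3 x b a s g) * K2 x c a b := by
    intro s0
    have := K1_pos hx0 d g
    have := K2_pos hx0 c a b
    gcongr
    exact single_le_sum (f := fun s => K2 x s g g * K3 x a g s d * K3 x b a s g)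
      (fun s _ => (mul_pos (mul_pos (K2_pos hx0 _ _ _) (K3_pos hx0 _ _ _ _))
        (K3_pos hx0 _ _ _ _)).le) (mem_univ s0)
  have key1 := polyA1 q x _ _ _ _ _ _ _ hQ hx rfl rfl rfl rfl rfl rfl rfl
  have key2 := polyA2 q x _ _ _ _ _ _ _ hQ hx rfl rfl rfl rfl rfl rfl rfl
  have p1 : 0 < x + ((q : ℝ) - 1) := by nlinarith
  have p2 : 0 < x ^ 2 + ((q : ℝ) - 1) := by nlinarith
  have p3 : 0 < 2 * x + ((q : ℝ) - 2) := by nlinarith
  have p4 : 0 < x ^ 3 + ((q : ℝ) - 1) := by nlinarith [pow_pos hx0 3]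
  have p5 : 0 < x ^ 2 + x + ((q : ℝ) - 2) := by nlinarith
  have p6 : 0 < 3 * x + ((q : ℝ) - 3) := by nlinarith
  have p7 : 0 < (q : ℝ) ^ 5 * (x + (q - 1)) ^ 2 *
        (x * (x ^ 2 + (q - 1)) + (q - 1) * (2 * x + (q - 2))) := by
    have : (0 : ℝ) < q - 1 := by linarith
    positivity
  have pab := e_pos hx0 a b
  have pac := e_pos hx0 a c
  have pad := e_pos hx0 a d
  have pbc := e_pos hx0 b c
  have pbg := e_pos hx0 b g
  by_cases hc : a = b ∧ a ≠ g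
  · obtain ⟨rfl, hag⟩ := hc
    have had : a ≠ d := fun h' => h ⟨rfl, h', hag⟩
    refine le_trans ?_ (hterm a)
    have b1 : 1 / (3 * x + ((q : ℝ) - 3)) ≤ e x d g / Z3 x g a d := by
      by_cases hd : d = g
      · subst hd
        rw [e_self, Z3_aba x hag.symm, div_le_div_iff₀ p6 p5]; nlinarith
      · rw [e_ne x hd, Z3_abc x hag.symm (fun h => hd h.symm) had]
    have p8 := Z3_pos hx0 g a d
    simp only [K1, K2, K3, Z1_eq, Z2_aa, Z3_aab x hag, e_self, e_ne x hag, e_ne x had,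
      e_comm x c a]
    generalize (q : ℝ) ^ 5 * (x + (q - 1)) ^ 2 *
        (x * (x ^ 2 + (q - 1)) + (q - 1) * (2 * x + (q - 2))) = Z at *
    generalize x + ((q : ℝ) - 1) = A1 at *
    generalize x ^ 2 + ((q : ℝ) - 1) = A2 at *
    generalize x ^ 2 + x + ((q : ℝ) - 2) = B3 at *
    generalize 3 * x + ((q : ℝ) - 3) = C3 at *
    generalize e x a c = y at *
    calc _ = x * y ^ 2 * (1 / Z) := by ring
      _ ≤ x * y ^ 2 * (x ^ 2 / (A1 * A2 ^ 2 * B3) * (1 / C3)) := by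
          gcongr
          rw [div_mul_div_comm, div_le_div_iff₀ p7 (by positivity)]; linarith
      _ ≤ x * y ^ 2 * (x ^ 2 / (A1 * A2 ^ 2 * B3) * (e x d g / Z3 x g a d)) := by gcongr
      _ = _ := by field_simp
  · refine le_trans ?_ (hterm g)
    have b1 : 1 / (x ^ 2 + x + ((q : ℝ) - 2)) ≤ e x d g / Z3 x g g d := by
      by_cases hd : d = g
      · subst hd
        rw [e_self, Z3_aaa, div_le_div_iff₀ p5 p4]; nlinarith
      · rw [e_ne x hd, Z3_aab x (fun h => hd h.symm)]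
    have b2 : 1 / ((x ^ 2 + x + ((q : ℝ) - 2)) * (2 * x + ((q : ℝ) - 2))) ≤
        e x a g ^ 2 * e x b g / (Z3 x a g g * Z2 x a b) := by
      have t1 : x ^ 3 + ((q : ℝ) - 1) ≤ x ^ 2 * (x ^ 2 + x + ((q : ℝ) - 2)) := by
        nlinarith [pow_pos hx0 3, pow_pos hx0 4, mul_pos (pow_pos hx0 2) (show (0:ℝ) < q - 2 by linarith)]
      have t2 : x ^ 2 + ((q : ℝ) - 1) ≤ x * (2 * x + ((q : ℝ) - 2)) := by nlinarith
      by_cases hag : a = g
      · subst hag
        by_cases hb : b = a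
        · subst hb
          rw [e_self, Z3_aaa, Z2_aa, div_le_div_iff₀ (by positivity) (by positivity)]
          nlinarith [mul_le_mul t1 t2 p2.le (by positivity)]
        · rw [e_self, Z3_aaa, Z2_ab x (fun h => hb h.symm), e_ne x hb,
            div_le_div_iff₀ (by positivity) (by positivity)]
          nlinarith [mul_le_mul_of_nonneg_right t1 p3.le]
      · have hab : a ≠ b := fun h' => hc ⟨h', hag⟩
        rw [e_ne x hag, Z3_baa x (fun h => hag h.symm), Z2_ab x hab]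
        have : 1 ≤ e x b g := by unfold e; split_ifs <;> linarith
        gcongr
        linarith
    have p8 := Z3_pos hx0 g g d
    have p9 := Z3_pos hx0 a g g
    have p10 := Z2_pos hx0 a b
    have pag := e_pos hx0 a g
    simp only [K1, K2, K3, Z1_eq, Z2_aa, e_self, e_comm x c a, e_comm x c b, e_comm x b a]
    generalize (q : ℝ) ^ 5 * (x + (q - 1)) ^ 2 *
        (x * (x ^ 2 + (q - 1)) + (q - 1) * (2 * x + (q - 2))) = Z at *
    generalize x + ((q : ℝ) - 1) = A1 at *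
    generalize x ^ 2 + ((q : ℝ) - 1) = A2 at *
    generalize x ^ 2 + x + ((q : ℝ) - 2) = B3 at *
    generalize 2 * x + ((q : ℝ) - 2) = B2 at *
    calc _ = e x a b * e x a c * e x a d * e x b c * e x b g * (1 / Z) := by ring
      _ ≤ e x a b * e x a c * e x a d * e x b c * e x b g *
            (x ^ 2 / (A1 * A2) * (1 / B3) * (1 / (B3 * B2))) := by
          gcongr
          rw [div_mul_div_comm, div_mul_div_comm, div_le_div_iff₀ p7 (by positivity)]; linarith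
      _ ≤ e x a b * e x a c * e x a d * e x b c * e x b g *
            (x ^ 2 / (A1 * A2) * (e x d g / Z3 x g g d) *
              (e x a g ^ 2 * e x b g / (Z3 x a g g * Z2 x a b))) := by
          have := e_pos hx0 d g
          gcongr
      _ = _ := by field_simp

end

theorem main (hq : 3 ≤ q) (g : Fin q) :
    tv (law G0 (Real.log ((q : ℝ) ^ 3)) g [2, 3, 0, 1, 2]) (gibbs G0 (Real.log ((q : ℝ) ^ 3))) <
    tv (law G0 (Real.log ((q : ℝ) ^ 3)) g [2, 3, 1, 0, 1, 2])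
      (gibbs G0 (Real.log ((q : ℝ) ^ 3))) := by
  classical
  have hQ : (3 : ℝ) ≤ q := by exact_mod_cast hq
  set β := Real.log ((q : ℝ) ^ 3) with hβ
  have hx : Real.exp β = (q : ℝ) ^ 3 := Real.exp_log (by positivity)
  have hx0 := Real.exp_pos β
  have hg : ∀ σ : Fin 9 → Fin q, gibbs G0 β σ = W (Real.exp β) σ /
      ((q : ℝ) ^ 5 * (Real.exp β + (q - 1)) ^ 2 * (Real.exp β * (Real.exp β ^ 2 + (q - 1)) +
        (q - 1) * (2 * Real.exp β + (q - 2)))) := by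
    intro σ
    simp only [gibbs, exp_energy, sum_W]
  refine tv_lt ((sum_law _ _ _ _).trans (sum_gibbs _ _ g).symm)
    (univ.filter fun σ => ¬ Fr g σ ∨ (σ 0 = σ 1 ∧ σ 0 = σ 3 ∧ σ 0 ≠ g)) ?_ ?_ ?_
  · intro σ hσ
    rw [lawW]
    split_ifs with hF
    · obtain ⟨h1, h3, h0⟩ := ((mem_filter.1 hσ).2).resolve_left (not_not.2 hF)
      rw [hg, W, ← h1, ← h3, hF.1]
      exact ineqB hq hx h0 _
    · exact div_nonneg (Real.exp_pos _).le (sum_nonneg fun _ _ => (Real.exp_pos _).le)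
  · intro σ hσ
    simp only [mem_filter, mem_univ, true_and, not_or, not_not] at hσ
    rw [lawW, if_pos hσ.1, hg, W, hσ.1.1]
    exact ineqA hq hx hσ.2
  · have hlt : ∀ σ : Fin 9 → Fin q, Fr g σ → (σ 0 = σ 1 ∧ σ 0 = σ 3 ∧ σ 0 ≠ g) →
        law G0 β g [2, 3, 1, 0, 1, 2] σ < law G0 β g [2, 3, 0, 1, 2] σ := by
      rintro σ hF ⟨h1, h3, h0⟩
      rw [lawV, lawW, if_pos hF, if_pos hF, ← h1, ← h3]
      have := K1_pos hx0 (σ 0) g
      have := K2_pos hx0 (σ 2) (σ 0) (σ 0)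
      have := ineqC hq hx h0
      gcongr
    apply sum_lt_sum
    · intro σ hσ
      by_cases hF : Fr g σ
      · exact (hlt σ hF (((mem_filter.1 hσ).2).resolve_left (not_not.2 hF))).le
      · rw [lawV, lawW, if_neg hF, if_neg hF]
    · haveI : Nontrivial (Fin q) := Fin.nontrivial_iff_two_le.2 (by omega)
      obtain ⟨r, hr⟩ := exists_ne g
      refine ⟨fun i => if i.val < 4 then r else g, ?_, hlt _ ?_ ?_⟩
      · simp [hr]
      · simp [Fr]
      · simp [hr]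

end Pool.Agent.H557Z.Potts
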