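import Pool.Agent.H557Z.PottsBasic

namespace Pool.Agent.H557Z.Potts

open Finset

variable {q : ℕ}

/-- triangle 0,1,2 with pendant edges 03 and 14, and four isolated vertices -/
def G0 : SimpleGraph (Fin 9) :=
  SimpleGraph.fromEdgeSet {s(0, 1), s(0, 2), s(0, 3), s(1, 2), s(1, 4)}

noncomputable def e (x : ℝ) (a b : Fin q) : ℝ := if a = b then x else 1

noncomputable def W (x : ℝ) (σ : Fin 9 → Fin q) : ℝ :=
  e x (σ 0) (σ 1) * e x (σ 0) (σ 2) * e x (σ 0) (σ 3) * e x (σ 1) (σ 2) * e x (σ 1) (σ 4)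

theorem e_comm (x : ℝ) (a b : Fin q) : e x a b = e x b a := by
  unfold e; simp only [eq_comm]

theorem e_pos {x : ℝ} (hx : 0 < x) (a b : Fin q) : 0 < e x a b := by
  unfold e; split_ifs <;> positivity

@[simp] theorem e_self (x : ℝ) (a : Fin q) : e x a a = x := by simp [e]

theorem e_ne (x : ℝ) {a b : Fin q} (h : a ≠ b) : e x a b = 1 := by simp [e, h]

theorem exp_energy (β : ℝ) (σ : Fin 9 → Fin q) :
    Real.exp (β * energy G0 σ) = W (Real.exp β) σ := by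
  classical
  have hE : ∀ inst : Fintype G0.edgeSet, @SimpleGraph.edgeFinset _ G0 inst =
      {s(0, 1), s(0, 2), s(0, 3), s(1, 2), s(1, 4)} := by
    intro inst
    ext z
    simp only [SimpleGraph.mem_edgeFinset, G0, SimpleGraph.edgeSet_fromEdgeSet, Set.mem_sdiff,
      Set.mem_insert_iff, Set.mem_singleton_iff, mem_insert, mem_singleton, Sym2.mem_diagSet]
    constructor
    · exact fun h => h.1
    · intro h
      refine ⟨h, ?_⟩
      rcases h with rfl | rfl | rfl | rfl | rfl <;> simp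
  have h1 : ∀ a b : Fin q, Real.exp (β * if a = b then 1 else 0) = e (Real.exp β) a b := by
    intro a b; unfold e; split_ifs <;> simp
  unfold energy
  rw [hE, sum_insert (by decide), sum_insert (by decide), sum_insert (by decide),
    sum_insert (by decide), sum_singleton]
  simp only [Sym2.map_mk, Sym2.mk_isDiag_iff, mul_add, Real.exp_add, W]
  simp only [← h1]
  ring_nf

noncomputable def Z1 (x : ℝ) (a : Fin q) : ℝ := ∑ d, e x d a
noncomputable def Z2 (x : ℝ) (a b : Fin q) : ℝ := ∑ d, e x d a * e x d b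
noncomputable def Z3 (x : ℝ) (a b c : Fin q) : ℝ := ∑ d, e x d a * e x d b * e x d c
noncomputable def K1 (x : ℝ) (t a : Fin q) : ℝ := e x t a / Z1 x a
noncomputable def K2 (x : ℝ) (t a b : Fin q) : ℝ := e x t a * e x t b / Z2 x a b
noncomputable def K3 (x : ℝ) (t a b c : Fin q) : ℝ := e x t a * e x t b * e x t c / Z3 x a b c

theorem Z1_pos {x : ℝ} (hx : 0 < x) (a : Fin q) : 0 < Z1 x a :=
  sum_pos (fun _ _ => e_pos hx _ _) ⟨a, mem_univ _⟩
theorem Z2_pos {x : ℝ} (hx : 0 < x) (a b : Fin q) : 0 < Z2 x a b :=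
  sum_pos (fun _ _ => mul_pos (e_pos hx _ _) (e_pos hx _ _)) ⟨a, mem_univ _⟩
theorem Z3_pos {x : ℝ} (hx : 0 < x) (a b c : Fin q) : 0 < Z3 x a b c :=
  sum_pos (fun _ _ => mul_pos (mul_pos (e_pos hx _ _) (e_pos hx _ _)) (e_pos hx _ _))
    ⟨a, mem_univ _⟩
theorem K1_pos {x : ℝ} (hx : 0 < x) (t a : Fin q) : 0 < K1 x t a :=
  div_pos (e_pos hx _ _) (Z1_pos hx _)
theorem K2_pos {x : ℝ} (hx : 0 < x) (t a b : Fin q) : 0 < K2 x t a b :=
  div_pos (mul_pos (e_pos hx _ _) (e_pos hx _ _)) (Z2_pos hx _ _)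
theorem K3_pos {x : ℝ} (hx : 0 < x) (t a b c : Fin q) : 0 < K3 x t a b c :=
  div_pos (mul_pos (mul_pos (e_pos hx _ _) (e_pos hx _ _)) (e_pos hx _ _)) (Z3_pos hx _ _ _)

theorem ratio0 {x : ℝ} (hx : 0 < x) (σ : Fin 9 → Fin q) :
    W x σ / ∑ c, W x (Function.update σ 0 c) = K3 x (σ 0) (σ 1) (σ 2) (σ 3) := by
  have : ∑ c, W x (Function.update σ 0 c) =
      Z3 x (σ 1) (σ 2) (σ 3) * (e x (σ 1) (σ 2) * e x (σ 1) (σ 4)) := by
    rw [Z3, sum_mul]; refine sum_congr rfl fun c _ => ?_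
    simp [W]; ring
  rw [this, W, K3]
  have := Z3_pos hx (σ 1) (σ 2) (σ 3)
  have := e_pos hx (σ 1) (σ 2)
  have := e_pos hx (σ 1) (σ 4)
  field_simp

theorem ratio1 {x : ℝ} (hx : 0 < x) (σ : Fin 9 → Fin q) :
    W x σ / ∑ c, W x (Function.update σ 1 c) = K3 x (σ 1) (σ 0) (σ 2) (σ 4) := by
  have : ∑ c, W x (Function.update σ 1 c) =
      Z3 x (σ 0) (σ 2) (σ 4) * (e x (σ 0) (σ 2) * e x (σ 0) (σ 3)) := by
    rw [Z3, sum_mul]; refine sum_congr rfl fun c _ => ?_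
    simp [W, e_comm x (σ 0) c]; ring
  rw [this, W, K3, e_comm x (σ 1) (σ 0)]
  have := Z3_pos hx (σ 0) (σ 2) (σ 4)
  have := e_pos hx (σ 0) (σ 2)
  have := e_pos hx (σ 0) (σ 3)
  field_simp

theorem ratio2 {x : ℝ} (hx : 0 < x) (σ : Fin 9 → Fin q) :
    W x σ / ∑ c, W x (Function.update σ 2 c) = K2 x (σ 2) (σ 0) (σ 1) := by
  have : ∑ c, W x (Function.update σ 2 c) =
      Z2 x (σ 0) (σ 1) * (e x (σ 0) (σ 1) * e x (σ 0) (σ 3) * e x (σ 1) (σ 4)) := by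
    rw [Z2, sum_mul]; refine sum_congr rfl fun c _ => ?_
    simp [W, e_comm x (σ 0) c, e_comm x (σ 1) c]; ring
  rw [this, W, K2, e_comm x (σ 2) (σ 0), e_comm x (σ 2) (σ 1)]
  have := Z2_pos hx (σ 0) (σ 1)
  have := e_pos hx (σ 0) (σ 1)
  have := e_pos hx (σ 0) (σ 3)
  have := e_pos hx (σ 1) (σ 4)
  field_simp

theorem ratio3 {x : ℝ} (hx : 0 < x) (σ : Fin 9 → Fin q) :
    W x σ / ∑ c, W x (Function.update σ 3 c) = K1 x (σ 3) (σ 0) := by
  have : ∑ c, W x (Function.update σ 3 c) =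
      Z1 x (σ 0) * (e x (σ 0) (σ 1) * e x (σ 0) (σ 2) * e x (σ 1) (σ 2) * e x (σ 1) (σ 4)) := by
    rw [Z1, sum_mul]; refine sum_congr rfl fun c _ => ?_
    simp [W, e_comm x (σ 0) c]; ring
  rw [this, W, K1, e_comm x (σ 3) (σ 0)]
  have := Z1_pos hx (σ 0)
  have := e_pos hx (σ 0) (σ 1)
  have := e_pos hx (σ 0) (σ 2)
  have := e_pos hx (σ 1) (σ 2)
  have := e_pos hx (σ 1) (σ 4)
  field_simp

/-- the five sites that are never updated still have colour `g` -/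
def Fr (g : Fin q) (σ : Fin 9 → Fin q) : Prop :=
  σ 4 = g ∧ σ 5 = g ∧ σ 6 = g ∧ σ 7 = g ∧ σ 8 = g

instance (g : Fin q) (σ : Fin 9 → Fin q) : Decidable (Fr g σ) := by unfold Fr; infer_instance

theorem Fr_update (g : Fin q) (σ : Fin 9 → Fin q) (c : Fin q) (v : Fin 9) (hv : v.val < 4) :
    Fr g (Function.update σ v c) ↔ Fr g σ := by
  have h : ∀ u : Fin 9, 4 ≤ u.val → Function.update σ v c u = σ u := fun u hu =>
    Function.update_of_ne (by intro h; subst h; omega) _ _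
  unfold Fr
  rw [h 4 (by decide), h 5 (by decide), h 6 (by decide), h 7 (by decide), h 8 (by decide)]

theorem law23 (β : ℝ) (g : Fin q) (σ : Fin 9 → Fin q) :
    law G0 β g [2, 3] σ = if Fr g σ ∧ σ 0 = g ∧ σ 1 = g then
      K2 (Real.exp β) (σ 2) g g * K1 (Real.exp β) (σ 3) g else 0 := by
  have hx := Real.exp_pos β
  have h0 : ∀ σ : Fin 9 → Fin q, (σ = fun _ => g) ↔
      ((Fr g σ ∧ σ 0 = g ∧ σ 1 = g) ∧ σ 3 = g) ∧ σ 2 = g := by
    intro σ
    constructor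
    · rintro rfl; simp [Fr]
    · rintro ⟨⟨⟨⟨h4, h5, h6, h7, h8⟩, h0, h1⟩, h3⟩, h2⟩
      funext i; fin_cases i <;> assumption
  have h1 : ∀ σ : Fin 9 → Fin q, step G0 β (fun σ => if σ = fun _ => g then 1 else 0) 2 σ =
      if (Fr g σ ∧ σ 0 = g ∧ σ 1 = g) ∧ σ 3 = g then K2 (Real.exp β) (σ 2) g g else 0 := by
    intro σ
    simp only [step_eq, exp_energy, ratio2 hx, h0, Fr_update g σ _ 2 (by decide)]
    by_cases h : (Fr g σ ∧ σ 0 = g ∧ σ 1 = g) ∧ σ 3 = g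
    · simp [h]
    · simp [h]
  change step G0 β (step G0 β _ 2) 3 σ = _
  rw [step_eq]
  simp only [h1, exp_energy, ratio3 hx, Fr_update g σ _ 3 (by decide)]
  by_cases h : (Fr g σ ∧ σ 0 = g ∧ σ 1 = g)
  · simp [h]
  · simp [h]

/-- common tail: updates at 0, 1, 2 -/
theorem tail012 (β : ℝ) (g : Fin q) (μ : (Fin 9 → Fin q) → ℝ) (T : Fin q → Fin q → ℝ)
    (hμ : ∀ σ, μ σ = if Fr g σ ∧ σ 0 = g then
      K2 (Real.exp β) (σ 2) g g * K1 (Real.exp β) (σ 3) g * T (σ 1) (σ 2) else 0)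
    (σ : Fin 9 → Fin q) :
    step G0 β (step G0 β (step G0 β μ 0) 1) 2 σ = if Fr g σ then
      K1 (Real.exp β) (σ 3) g * (∑ s, K2 (Real.exp β) s g g *
        (∑ t, T t s * K3 (Real.exp β) (σ 0) t s (σ 3)) * K3 (Real.exp β) (σ 1) (σ 0) s g) *
        K2 (Real.exp β) (σ 2) (σ 0) (σ 1) else 0 := by
  have hx := Real.exp_pos β
  have h1 : ∀ σ : Fin 9 → Fin q, step G0 β μ 0 σ = if Fr g σ then
      K2 (Real.exp β) (σ 2) g g * K1 (Real.exp β) (σ 3) g * (T (σ 1) (σ 2) *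
        K3 (Real.exp β) (σ 0) (σ 1) (σ 2) (σ 3)) else 0 := by
    intro σ
    simp only [step_eq, exp_energy, ratio0 hx, hμ, Fr_update g σ _ 0 (by decide)]
    by_cases h : Fr g σ
    · simp [h]; ring
    · simp [h]
  have h2 : ∀ σ : Fin 9 → Fin q, step G0 β (step G0 β μ 0) 1 σ = if Fr g σ then
      K1 (Real.exp β) (σ 3) g * (K2 (Real.exp β) (σ 2) g g * (∑ t, T t (σ 2) *
        K3 (Real.exp β) (σ 0) t (σ 2) (σ 3)) * K3 (Real.exp β) (σ 1) (σ 0) (σ 2) g) else 0 := by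
    intro σ
    rw [step_eq]
    simp only [exp_energy, ratio1 hx, h1, Fr_update g σ _ 1 (by decide)]
    by_cases h : Fr g σ
    · simp [h, h.1, ← mul_sum]; ring
    · simp [h]
  rw [step_eq]
  simp only [exp_energy, ratio2 hx, h2, Fr_update g σ _ 2 (by decide)]
  by_cases h : Fr g σ
  · simp [h, ← mul_sum]
  · simp [h]

theorem lawW (β : ℝ) (g : Fin q) (σ : Fin 9 → Fin q) :
    law G0 β g [2, 3, 0, 1, 2] σ = if Fr g σ then
      K1 (Real.exp β) (σ 3) g * (∑ s, K2 (Real.exp β) s g g *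
        K3 (Real.exp β) (σ 0) g s (σ 3) * K3 (Real.exp β) (σ 1) (σ 0) s g) *
        K2 (Real.exp β) (σ 2) (σ 0) (σ 1) else 0 := by
  have := tail012 β g (law G0 β g [2, 3]) (fun t _ => if t = g then 1 else 0) (by
    intro σ
    rw [law23]
    by_cases h1 : σ 1 = g <;> simp [h1]) σ
  change step G0 β (step G0 β (step G0 β (law G0 β g [2, 3]) 0) 1) 2 σ = _
  simpa using this

theorem lawV (β : ℝ) (g : Fin q) (σ : Fin 9 → Fin q) :
    law G0 β g [2, 3, 1, 0, 1, 2] σ = if Fr g σ then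
      K1 (Real.exp β) (σ 3) g * (∑ s, K2 (Real.exp β) s g g *
        (∑ t, K3 (Real.exp β) t g s g * K3 (Real.exp β) (σ 0) t s (σ 3)) *
          K3 (Real.exp β) (σ 1) (σ 0) s g) *
        K2 (Real.exp β) (σ 2) (σ 0) (σ 1) else 0 := by
  have hx := Real.exp_pos β
  refine tail012 β g (step G0 β (law G0 β g [2, 3]) 1) (fun t s => K3 (Real.exp β) t g s g) ?_ σ
  intro σ
  rw [step_eq]
  simp only [exp_energy, ratio1 hx, law23, Fr_update g σ _ 1 (by decide)]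
  by_cases h : Fr g σ ∧ σ 0 = g
  · simp [h, h.1.1]
  · rw [if_neg h]
    have : ∀ c, ¬ (Fr g σ ∧ σ 0 = g ∧ c = g) := fun c hc => h ⟨hc.1, hc.2.1⟩
    simp [this]

theorem Z1_eq (x : ℝ) (a : Fin q) : Z1 x a = x + (q - 1) := by
  rw [Z1, sum_split1 _ a 1 (fun t ht => e_ne x ht)]; simp

theorem Z2_aa (x : ℝ) (a : Fin q) : Z2 x a a = x ^ 2 + (q - 1) := by
  rw [Z2, sum_split1 _ a 1 (fun t ht => by simp [e_ne x ht])]; simp; ring

theorem Z2_ab (x : ℝ) {a b : Fin q} (h : a ≠ b) : Z2 x a b = 2 * x + (q - 2) := by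
  rw [Z2, sum_split2 _ a b h 1 (fun t ht ht' => by simp [e_ne x ht, e_ne x ht'])]
  simp [e_ne x h, e_ne x h.symm]; ring

theorem Z3_aaa (x : ℝ) (a : Fin q) : Z3 x a a a = x ^ 3 + (q - 1) := by
  rw [Z3, sum_split1 _ a 1 (fun t ht => by simp [e_ne x ht])]; simp; ring

theorem Z3_aab (x : ℝ) {a b : Fin q} (h : a ≠ b) : Z3 x a a b = x ^ 2 + x + (q - 2) := by
  rw [Z3, sum_split2 _ a b h 1 (fun t ht ht' => by simp [e_ne x ht, e_ne x ht'])]
  simp [e_ne x h, e_ne x h.symm]; ring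

theorem Z3_aba (x : ℝ) {a b : Fin q} (h : a ≠ b) : Z3 x a b a = x ^ 2 + x + (q - 2) := by
  rw [← Z3_aab x h, Z3, Z3]; exact sum_congr rfl fun _ _ => by ring

theorem Z3_baa (x : ℝ) {a b : Fin q} (h : a ≠ b) : Z3 x b a a = x ^ 2 + x + (q - 2) := by
  rw [← Z3_aab x h, Z3, Z3]; exact sum_congr rfl fun _ _ => by ring

theorem Z3_abc (x : ℝ) {a b c : Fin q} (h1 : a ≠ b) (h2 : a ≠ c) (h3 : b ≠ c) :
    Z3 x a b c = 3 * x + (q - 3) := by
  rw [Z3, sum_split3 _ a b c h1 h2 h3 1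
    (fun t ht ht' ht'' => by simp [e_ne x ht, e_ne x ht', e_ne x ht''])]
  simp [e_ne x h1, e_ne x h1.symm, e_ne x h2, e_ne x h2.symm, e_ne x h3, e_ne x h3.symm]; ring

theorem sum_cons {n : ℕ} (f : (Fin (n + 1) → Fin q) → ℝ) :
    ∑ σ, f σ = ∑ a : Fin q, ∑ τ : Fin n → Fin q, f (Matrix.vecCons a τ) := by
  rw [← Fintype.sum_prod_type']
  exact (Fintype.sum_equiv (Fin.consEquiv fun _ => Fin q) _ _ (fun _ => rfl)).symm

theorem sum_W (x : ℝ) : ∑ σ : Fin 9 → Fin q, W x σ =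
    (q : ℝ) ^ 5 * (x + (q - 1)) ^ 2 * (x * (x ^ 2 + (q - 1)) + (q - 1) * (2 * x + (q - 2))) := by
  have h1 : ∀ a b c d f : Fin q, ∀ τ : Fin 4 → Fin q,
      W x (Matrix.vecCons a (Matrix.vecCons b (Matrix.vecCons c (Matrix.vecCons d
        (Matrix.vecCons f τ))))) = e x a b * (e x c a * e x c b) * e x d a * e x f b := by
    intro a b c d f τ
    simp only [W, Matrix.cons_val, Matrix.cons_val_zero, Matrix.cons_val_one]
    rw [e_comm x c a, e_comm x c b, e_comm x d a, e_comm x f b]; ring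
  have h2 : ∀ a : Fin q, ∑ b, e x a b * Z2 x a b =
      x * (x ^ 2 + (q - 1)) + (q - 1) * (2 * x + (q - 2)) := by
    intro a
    rw [sum_split1 _ a (2 * x + (q - 2)) (fun t ht => by
      rw [e_ne x ht.symm, Z2_ab x ht.symm, one_mul])]
    simp [Z2_aa]
  rw [sum_cons]
  simp only [sum_cons (n := 7), sum_cons (n := 6), sum_cons (n := 5), sum_cons (n := 4), h1,
    sum_const, card_univ, Fintype.card_pi, Fintype.card_fin, prod_const, nsmul_eq_mul,
    ← mul_sum, ← sum_mul]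
  have e1 : ∀ a : Fin q, ∑ d, e x d a = x + (q - 1) := Z1_eq x
  have e2 : ∀ a b : Fin q, ∑ d, e x d a * e x d b = Z2 x a b := fun _ _ => rfl
  simp only [e1, e2, ← sum_mul, h2, sum_const, card_univ, Fintype.card_fin, nsmul_eq_mul]
  push_cast
  ring

end Pool.Agent.H557Z.Potts
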