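import Mathlib

namespace Pool.Agent.H557Z.Pt

open Set Filter Topology

abbrev P := ℕ → ℚ

/-- the corner of the level `n` cell of `x` -/
def cr (n : ℕ) (x : P) : P := fun i => if i < n then (⌊(n.factorial : ℚ) * x i⌋ : ℚ) / n.factorial else 0

def Fin0 (x : P) : Prop := ∃ N, ∀ i, N ≤ i → x i = 0

lemma cr_fin (n : ℕ) (x : P) : Fin0 (cr n x) := ⟨n, fun i hi => by simp [cr, not_lt.2 hi]⟩

lemma cr_zero (x : P) : cr 0 x = 0 := by funext i; simp [cr]

lemma cr_of_zero (n : ℕ) : cr n 0 = 0 := by funext i; simp [cr]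

lemma fpos (n : ℕ) : (0 : ℚ) < n.factorial := by exact_mod_cast n.factorial_pos

lemma cr_eq_iff {n : ℕ} {x y : P} :
    cr n x = cr n y ↔ ∀ i < n, ⌊(n.factorial : ℚ) * x i⌋ = ⌊(n.factorial : ℚ) * y i⌋ := by
  constructor
  · intro h i hi
    have := congrFun h i
    simp only [cr, if_pos hi] at this
    rw [div_left_inj' (fpos n).ne'] at this
    exact_mod_cast this
  · intro h
    funext i
    by_cases hi : i < n
    · simp [cr, hi, h i hi]
    · simp [cr, hi]

lemma cr_succ {n : ℕ} {x y : P} (h : cr (n + 1) x = cr (n + 1) y) : cr n x = cr n y := by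
  rw [cr_eq_iff] at h ⊢
  intro i hi
  have key : ∀ a : ℚ, ⌊(n.factorial : ℚ) * a⌋ = ⌊((n + 1).factorial : ℚ) * a⌋ / (n + 1 : ℕ) := by
    intro a
    rw [← Int.floor_div_natCast]
    congr 1
    rw [Nat.factorial_succ]
    push_cast
    field_simp
  rw [key, key, h i (by omega)]

lemma cr_mono {m n : ℕ} (hmn : m ≤ n) {x y : P} (h : cr n x = cr n y) : cr m x = cr m y := by
  induction n, hmn using Nat.le_induction with
  | base => exact h
  | succ n _ ih => exact ih (cr_succ h)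

lemma cr_add {m n : ℕ} (hmn : m ≤ n) (y z : P) : cr n (y + cr m z) = cr n y + cr m z := by
  funext i
  by_cases hi : i < n
  · by_cases hi' : i < m
    · obtain ⟨k, hk⟩ := Nat.factorial_dvd_factorial hmn
      have h1 : (n.factorial : ℚ) * (y i + (⌊(m.factorial : ℚ) * z i⌋ : ℚ) / m.factorial) =
          n.factorial * y i + ((k * ⌊(m.factorial : ℚ) * z i⌋ : ℤ) : ℚ) := by
        have := (fpos m).ne'
        rw [hk]
        push_cast
        field_simp
      simp only [cr, Pi.add_apply, if_pos hi, if_pos hi']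
      rw [h1, Int.floor_add_intCast]
      have := (fpos m).ne'
      have h2 := (fpos n).ne'
      have hk' : (n.factorial : ℚ) = m.factorial * k := by exact_mod_cast hk
      push_cast
      field_simp
      rw [hk']
      ring
    · simp [cr, hi, hi']
  · have hi' : ¬ i < m := by omega
    simp [cr, hi, hi']

lemma cr_sub {m n : ℕ} (hmn : m ≤ n) (y z : P) : cr n (y - cr m z) = cr n y - cr m z := by
  have := cr_add hmn (y - cr m z) z
  rw [sub_add_cancel] at this
  rw [this]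
  abel

lemma cr_cr {m n : ℕ} (hmn : m ≤ n) (z : P) : cr n (cr m z) = cr m z := by
  simpa [cr_of_zero] using cr_add hmn 0 z

lemma cr_cr' {m n : ℕ} (hmn : m ≤ n) (z : P) : cr m (cr n z) = cr m z :=
  cr_mono hmn (cr_cr le_rfl z)

/-- right continuity of the corners -/
lemma lemA (x : P) (n : ℕ) :
    ∃ ε : ℚ, 0 < ε ∧ ∀ y : P, (∀ i < n, x i ≤ y i ∧ y i < x i + ε) → cr n y = cr n x := by
  have h : ∀ i, ∃ ε : ℚ, 0 < ε ∧ ∀ b, x i ≤ b → b < x i + ε →
      ⌊(n.factorial : ℚ) * b⌋ = ⌊(n.factorial : ℚ) * x i⌋ := by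
    intro i
    have h1 := Int.lt_floor_add_one ((n.factorial : ℚ) * x i)
    have h2 := Int.floor_le ((n.factorial : ℚ) * x i)
    have h3 := fpos n
    refine ⟨(⌊(n.factorial : ℚ) * x i⌋ + 1 - n.factorial * x i) / n.factorial,
      div_pos (by linarith) h3, fun b hb hb' => ?_⟩
    rw [Int.floor_eq_iff]
    constructor
    · nlinarith
    · rw [← sub_lt_iff_lt_add', lt_div_iff₀ h3] at hb'
      nlinarith
  choose ε hε hε' using h
  obtain ⟨δ, hδ, hδ'⟩ : ∃ δ : ℚ, 0 < δ ∧ ∀ i < n, δ ≤ ε i := by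
    clear hε'
    induction n with
    | zero => exact ⟨1, one_pos, fun i hi => by omega⟩
    | succ n ih =>
      obtain ⟨δ, h1, h2⟩ := ih
      refine ⟨min δ (ε n), lt_min h1 (hε n), fun i hi => ?_⟩
      rcases Nat.lt_succ_iff_lt_or_eq.1 hi with h | rfl
      · exact (min_le_left _ _).trans (h2 i h)
      · exact min_le_right _ _
  refine ⟨δ, hδ, fun y hy => cr_eq_iff.2 fun i hi => hε' i _ (hy i hi).1 ?_⟩
  linarith [(hy i hi).2, hδ' i hi]

/-- the cells shrink to half-open boxes -/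
lemma lemB (x : P) (N : ℕ) {ε : ℚ} (hε : 0 < ε) :
    ∃ n, ∀ y : P, cr n y = cr n x → ∀ i < N, x i ≤ y i ∧ y i < x i + ε := by
  obtain ⟨k, hk⟩ := exists_nat_gt (1 / ε)
  refine ⟨N + k + (Finset.range N).sup fun i => (x i).den, fun y hy i hi => ?_⟩
  set n := N + k + (Finset.range N).sup fun i => (x i).den with hn
  have h1 : (x i).den ≤ n :=
    le_trans (Finset.le_sup (f := fun i => (x i).den) (Finset.mem_range.2 hi)) (by omega)
  obtain ⟨c, hc⟩ := Nat.dvd_factorial (x i).den_pos h1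
  have h2 : (n.factorial : ℚ) * x i = ((c * (x i).num : ℤ) : ℚ) := by
    rw [hc]
    push_cast
    rw [mul_right_comm, Rat.den_mul_eq_num]
    ring
  have h3 := cr_eq_iff.1 hy i (by omega)
  rw [h2, Int.floor_intCast, Int.floor_eq_iff, ← h2] at h3
  have h4 := fpos n
  have h5 : (k : ℚ) ≤ n.factorial := by
    have : k ≤ n.factorial := le_trans (by omega) (Nat.self_le_factorial n)
    exact_mod_cast this
  rw [div_lt_iff₀ hε] at hk
  constructor
  · nlinarith
  · nlinarith

lemma cr_sep {x y : P} (h : ∀ n, cr n y = cr n x) : y = x := by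
  funext i
  refine le_antisymm ?_ ?_
  · by_contra hlt
    obtain ⟨n, hn⟩ := lemB x (i + 1) (sub_pos.2 (not_le.1 hlt))
    have := (hn y (h n) i (by omega)).2
    linarith
  · obtain ⟨n, hn⟩ := lemB x (i + 1) one_pos
    exact (hn y (h n) i (by omega)).1

/-- A subspace of `ℚ^ω` with the topology of the product of Sorgenfrey lines. -/
def GS (G : Submodule ℚ P) : Type := G

variable {G : Submodule ℚ P}

instance : AddCommGroup (GS G) := inferInstanceAs (AddCommGroup G)

def GS.val (x : GS G) : P := Subtype.val x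

lemma GS.mem (x : GS G) : x.val ∈ G := Subtype.property x
lemma GS.ext {x y : GS G} (h : x.val = y.val) : x = y := Subtype.ext h
def GS.mk (x : P) (h : x ∈ G) : GS G := (⟨x, h⟩ : G)
@[simp] lemma GS.val_mk (x : P) (h : x ∈ G) : (GS.mk x h).val = x := rfl
@[simp] lemma GS.val_add (x y : GS G) : (x + y).val = x.val + y.val := rfl
@[simp] lemma GS.val_zero : (0 : GS G).val = 0 := rfl

instance : TopologicalSpace (GS G) where
  IsOpen U := ∀ x ∈ U, ∃ n, ∀ y : GS G, cr n y.val = cr n x.val → y ∈ U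
  isOpen_univ := fun _ _ => ⟨0, fun _ _ => trivial⟩
  isOpen_inter := by
    intro s t hs ht x hx
    obtain ⟨m, hm⟩ := hs x hx.1
    obtain ⟨n, hn⟩ := ht x hx.2
    exact ⟨max m n, fun y hy => ⟨hm y (cr_mono (le_max_left _ _) hy),
      hn y (cr_mono (le_max_right _ _) hy)⟩⟩
  isOpen_sUnion := by
    intro s hs x ⟨t, ht, hx⟩
    obtain ⟨n, hn⟩ := hs t ht x hx
    exact ⟨n, fun y hy => ⟨t, ht, hn y hy⟩⟩

def cell (n : ℕ) (x : GS G) : Set (GS G) := {y | cr n y.val = cr n x.val}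

lemma cell_open (n : ℕ) (x : GS G) : IsOpen (cell n x) :=
  fun _ hy => ⟨n, fun _ hz => hz.trans hy⟩

lemma cell_closed (n : ℕ) (x : GS G) : IsClosed (cell n x) :=
  ⟨fun _ hy => ⟨n, fun _ hz hz' => hy (hz.symm.trans hz')⟩⟩

lemma nhds_basis (x : GS G) : (𝓝 x).HasBasis (fun _ : ℕ => True) fun n => cell n x := by
  refine ⟨fun U => ⟨fun hU => ?_, fun ⟨n, _, hn⟩ =>
    mem_of_superset ((cell_open n x).mem_nhds rfl) hn⟩⟩
  obtain ⟨V, hVU, hV, hx⟩ := mem_nhds_iff.1 hU
  obtain ⟨n, hn⟩ := hV x hx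
  exact ⟨n, trivial, fun y hy => hVU (hn y hy)⟩

lemma cont2_iff {F : GS G × GS G → GS G} : Continuous F ↔
    ∀ x y n, ∃ m, ∀ x' y' : GS G, cr m x'.val = cr m x.val → cr m y'.val = cr m y.val →
      cr n (F (x', y')).val = cr n (F (x, y)).val := by
  rw [continuous_iff_continuousAt]
  constructor
  · intro h x y n
    obtain ⟨⟨a, b⟩, -, hab⟩ := (((nhds_basis x).prod_nhds (nhds_basis y)).tendsto_iff
      (nhds_basis _)).1 (h (x, y)) n trivial
    exact ⟨max a b, fun x' y' hx hy => hab (x', y')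
      ⟨cr_mono (le_max_left _ _) hx, cr_mono (le_max_right _ _) hy⟩⟩
  · rintro h ⟨x, y⟩
    refine (((nhds_basis x).prod_nhds (nhds_basis y)).tendsto_iff (nhds_basis _)).2 fun n _ => ?_
    obtain ⟨m, hm⟩ := h x y n
    exact ⟨(m, m), ⟨trivial, trivial⟩, fun p hp => hm p.1 p.2 hp.1 hp.2⟩

instance : ContinuousAdd (GS G) := ⟨cont2_iff.2 fun x y n => by
  obtain ⟨ε, hε, h⟩ := lemA (x.val + y.val) n
  obtain ⟨a, ha⟩ := lemB x.val n (half_pos hε)
  obtain ⟨b, hb⟩ := lemB y.val n (half_pos hε)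
  refine ⟨max a b, fun x' y' hx hy => h _ fun i hi => ?_⟩
  have h1 := ha _ (cr_mono (le_max_left _ _) hx) i hi
  have h2 := hb _ (cr_mono (le_max_right _ _) hy) i hi
  simp only [GS.val_add, Pi.add_apply]
  constructor <;> linarith [h1.1, h1.2, h2.1, h2.2]⟩

instance : T1Space (GS G) := ⟨fun x => ⟨fun y hy => by
  by_contra h
  push Not at h
  refine hy (GS.ext (cr_sep fun n => ?_))
  obtain ⟨z, hz, hz'⟩ := h n
  rw [mem_compl_iff, not_not, mem_singleton_iff] at hz'
  rw [← hz', hz]⟩⟩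

instance : CompletelyRegularSpace (GS G) := by
  refine CompletelyRegularSpace.of_isTopologicalBasis_clopens
    (TopologicalSpace.isTopologicalBasis_of_isOpen_of_nhds (fun u hu => hu.2) fun x U hx hU => ?_)
  obtain ⟨n, hn⟩ := hU x hx
  exact ⟨cell n x, ⟨cell_closed n x, cell_open n x⟩, rfl, hn⟩

instance : T35Space (GS G) := {}

end Pool.Agent.H557Z.Pt
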