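import Mathlib
import Pool.Agent.H557Z.PtTop

namespace Pool.Agent.H557Z.Pt

open Set Filter Topology Cardinal

abbrev Z := P × P
abbrev V := ℕ → ℝ

def Ag (n : ℕ) (z w : Z) : Prop := ∀ i < n, z.1 i = w.1 i ∧ z.2 i = w.2 i

lemma Ag.refl (n : ℕ) (z : Z) : Ag n z z := fun _ _ => ⟨rfl, rfl⟩
lemma Ag.symm {n : ℕ} {z w : Z} (h : Ag n z w) : Ag n w z :=
  fun i hi => ⟨(h i hi).1.symm, (h i hi).2.symm⟩
lemma Ag.trans {n : ℕ} {z w u : Z} (h : Ag n z w) (h' : Ag n w u) : Ag n z u :=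
  fun i hi => ⟨(h i hi).1.trans (h' i hi).1, (h i hi).2.trans (h' i hi).2⟩
lemma Ag.mono {n m : ℕ} {z w : Z} (h : Ag n z w) (hm : m ≤ n) : Ag m z w :=
  fun i hi => h i (lt_of_lt_of_le hi hm)

def ContOn (D : Z → Prop) (H : Z → V) : Prop :=
  ∀ z, D z → ∀ (j : ℕ) (ε : ℝ), 0 < ε → ∃ n, ∀ w, D w → Ag n w z → |H w j - H z j| ≤ ε

section cantor

variable {D : Z → Prop} {H : ℕ → Z → V} {z0 : Z} {n0 : ℕ}

lemma split_aux (hH : ∀ j, ContOn D (H j))
    (hnc : ∀ j z n, D z → Ag n0 z z0 → ∃ w, D w ∧ Ag n w z ∧ H j w ≠ H j z)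
    {z : Z} {n : ℕ} (hz : D z) (hz0 : Ag n0 z z0) (hn : n0 ≤ n) (r : ℕ) :
    ∃ a b m, n < m ∧ D a ∧ D b ∧ Ag n a z ∧ Ag n b z ∧
      ∀ j < r, ∀ u v, D u → D v → Ag m u a → Ag m v b → H j u ≠ H j v := by
  induction r with
  | zero => exact ⟨z, z, n + 1, by omega, hz, hz, Ag.refl _ _, Ag.refl _ _, fun j hj => by omega⟩
  | succ r ih =>
    obtain ⟨a, b, m, hm, ha, hb, haz, hbz, hsep⟩ := ih
    obtain ⟨a', ha', haa, hne⟩ : ∃ a', D a' ∧ Ag m a' a ∧ H r a' ≠ H r b := by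
      by_cases h : H r a = H r b
      · rw [← h]
        exact hnc r a m ha ((haz.mono hn).trans hz0)
      · exact ⟨a, ha, Ag.refl _ _, h⟩
    obtain ⟨i, hi⟩ := Function.ne_iff.1 hne
    have hpos : 0 < |H r a' i - H r b i| / 3 := by
      have := abs_pos.2 (sub_ne_zero.2 hi)
      positivity
    obtain ⟨m1, h1⟩ := hH r a' ha' i _ hpos
    obtain ⟨m2, h2⟩ := hH r b hb i _ hpos
    refine ⟨a', b, max m (max m1 m2), by omega, ha', hb, (haa.mono hm.le).trans haz, hbz, ?_⟩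
    intro j hj u v hu hv hua hvb
    rcases Nat.lt_succ_iff_lt_or_eq.1 hj with hj | rfl
    · exact hsep j hj u v hu hv ((hua.mono (by omega)).trans haa) (hvb.mono (by omega))
    · intro e
      have h3 := h1 u hu (hua.mono (by omega))
      have h4 := h2 v hv (hvb.mono (by omega))
      rw [e] at h3
      have h5 := abs_sub_le (H j a' i) (H j v i) (H j b i)
      rw [abs_sub_comm (H j a' i) (H j v i)] at h5
      linarith

theorem cantor {O : ℕ → Z → Prop} (hO : ∀ k z, D z → ∃ n, ∀ w, Ag n w z → O k w)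
    (hD : ∀ w, (∀ k, O k w) → D w) (hH : ∀ j, ContOn D (H j)) (h0 : D z0)
    (hnc : ∀ j z n, D z → Ag n0 z z0 → ∃ w, D w ∧ Ag n w z ∧ H j w ≠ H j z)
    (S : Set V) (hS : #S < 𝔠) : ∃ z, D z ∧ Ag n0 z z0 ∧ ∀ j, H j z ∉ S := by
  let St := {p : Z × ℕ // D p.1 ∧ Ag n0 p.1 z0 ∧ n0 ≤ p.2}
  have hsplit : ∀ (k : ℕ) (p : St), ∃ c : Bool → St, (∀ b, p.1.2 < (c b).1.2 ∧
      Ag p.1.2 (c b).1.1 p.1.1 ∧ ∀ w, Ag (c b).1.2 w (c b).1.1 → O k w) ∧
      ∀ j ≤ k, ∀ u v, D u → D v → Ag (c false).1.2 u (c false).1.1 →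
        Ag (c true).1.2 v (c true).1.1 → H j u ≠ H j v := by
    rintro k ⟨⟨z, n⟩, hz, hz0, hn⟩
    obtain ⟨a, b, m, hm, ha, hb, haz, hbz, hsep⟩ := split_aux hH hnc hz hz0 hn (k + 1)
    obtain ⟨m1, h1⟩ := hO k a ha
    obtain ⟨m2, h2⟩ := hO k b hb
    simp only at hn hm haz hbz
    refine ⟨fun t => Bool.rec ⟨(a, max m m1), ha, (haz.mono hn).trans hz0, by simp only; omega⟩
      ⟨(b, max m m2), hb, (hbz.mono hn).trans hz0, by simp only; omega⟩ t, ?_, ?_⟩
    · rintro (_ | _)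
      · exact ⟨by simp only; omega, haz, fun w hw => h1 w (hw.mono (le_max_right _ _))⟩
      · exact ⟨by simp only; omega, hbz, fun w hw => h2 w (hw.mono (le_max_right _ _))⟩
    · intro j hj u v hu hv hua hvb
      exact hsep j (by omega) u v hu hv (hua.mono (le_max_left _ _)) (hvb.mono (le_max_left _ _))
  choose c hc1 hc2 using hsplit
  let st : (ℕ → Bool) → ℕ → St := fun s k =>
    Nat.rec ⟨(z0, n0), h0, Ag.refl _ _, le_rfl⟩ (fun k p => c k p (s k)) k
  have hst : ∀ s k, st s (k + 1) = c k (st s k) (s k) := fun _ _ => rfl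
  have hlv : ∀ s k, k ≤ (st s k).1.2 := by
    intro s k
    induction k with
    | zero => omega
    | succ k ih => have := (hc1 k (st s k) (s k)).1; rw [hst]; omega
  have hag : ∀ s k l, k ≤ l → (st s k).1.2 ≤ (st s l).1.2 ∧
      Ag (st s k).1.2 (st s l).1.1 (st s k).1.1 := by
    intro s k l hkl
    induction l, hkl using Nat.le_induction with
    | base => exact ⟨le_rfl, Ag.refl _ _⟩
    | succ l _ ih =>
      have := hc1 l (st s l) (s l)
      rw [hst]
      exact ⟨ih.1.trans this.1.le, (this.2.1.mono ih.1).trans ih.2⟩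
  let lim : (ℕ → Bool) → Z := fun s =>
    (fun i => (st s (i + 1)).1.1.1 i, fun i => (st s (i + 1)).1.1.2 i)
  have hlim : ∀ s k, Ag (st s k).1.2 (lim s) (st s k).1.1 := by
    intro s k i hi
    rcases le_total (i + 1) k with h | h
    · exact (hag s _ _ h).2.symm i (hlv s (i + 1))
    · exact (hag s _ _ h).2 i hi
  have hDl : ∀ s, D (lim s) := fun s => hD _ fun k =>
    (hc1 k (st s k) (s k)).2.2 _ (hlim s (k + 1))
  by_contra hcon
  push Not at hcon
  choose j hj using fun s => hcon (lim s) (hDl s) (hlim s 0)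
  have hinj : Function.Injective fun s : ℕ → Bool =>
      ((j s, ⟨H (j s) (lim s), hj s⟩, PiNat.res s (j s)) : ℕ × S × List Bool) := by
    intro s t hst'
    simp only [Prod.mk.injEq, Subtype.mk.injEq] at hst'
    obtain ⟨e1, e2, e3⟩ := hst'
    rw [← e1] at e2 e3
    by_contra hne
    have hk := PiNat.apply_firstDiff_ne hne
    set k := PiNat.firstDiff s t
    have hjk : j s ≤ k := by
      by_contra h
      exact hk (PiNat.res_eq_res.1 e3 (not_le.1 h))
    have heq : ∀ l, l ≤ k → st s l = st t l := by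
      intro l
      induction l with
      | zero => intro _; rfl
      | succ l ih =>
        intro hl
        rw [hst, hst, ih (by omega), PiNat.apply_eq_of_lt_firstDiff (show l < k by omega)]
    have a1 := hlim s (k + 1)
    have a2 := hlim t (k + 1)
    rw [hst] at a1 a2
    rw [← heq k le_rfl] at a2
    cases hs : s k <;> cases ht : t k <;> rw [hs] at a1 hk <;> rw [ht] at a2 hk
    · exact hk rfl
    · exact hc2 k (st s k) _ hjk _ _ (hDl s) (hDl t) a1 a2 e2
    · exact hc2 k (st s k) _ hjk _ _ (hDl t) (hDl s) a2 a1 e2.symm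
    · exact hk rfl
  have h1 := mk_le_of_injective hinj
  have h2 : #(ℕ → Bool) = 𝔠 := by simp
  have h3 : #(ℕ × S × List Bool) < 𝔠 := by
    simp only [mk_prod, lift_id]
    exact mul_lt_of_lt aleph0_le_continuum (mk_le_aleph0.trans_lt aleph0_lt_continuum)
      (mul_lt_of_lt aleph0_le_continuum hS (mk_le_aleph0.trans_lt aleph0_lt_continuum))
  exact absurd (h2 ▸ h1) (not_le.2 h3)

end cantor

abbrev II : Type := (continuum.{0}).ord.ToType

lemma rec_exists {A : Type} (R : II → Set A → A → Prop)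
    (h : ∀ α (s : Set A), #s < 𝔠 → ∃ a, R α s a) :
    ∃ u : II → A, ∀ α, R α (u '' Iio α) (u α) := by
  have hb : ∀ (α : II) (t : ∀ β, β < α → A),
      ∃ a, R α (range fun β : Iio α => t β β.2) a := fun α t =>
    h α _ (mk_range_le.trans_lt (by simpa using mk_Iio_lt α))
  choose B hB using hb
  refine ⟨WellFoundedLT.fix B, fun α => ?_⟩
  have := hB α fun β _ => WellFoundedLT.fix B β
  rw [← WellFoundedLT.fix_eq B α] at this
  rwa [image_eq_range]

lemma mk_span_lt {s : Set V} (hs : #s < 𝔠) : #(Submodule.span ℚ s) < 𝔠 := by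
  rw [Finsupp.span_eq_range_linearCombination]
  refine (mk_range_le (f := Finsupp.linearCombination ℚ (Subtype.val : s → V))).trans_lt ?_
  rcases isEmpty_or_nonempty s with h | h
  · exact mk_le_aleph0.trans_lt aleph0_lt_continuum
  · rw [mk_finsupp_of_infinite']
    exact max_lt hs (mk_le_aleph0.trans_lt aleph0_lt_continuum)

end Pool.Agent.H557Z.Pt
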