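import Mathlib
import Pool.Agent.H557Z.PtTop

namespace Pool.Agent.H557Z.Pt

open Set Filter Topology

def Lv (n : ℕ) (x y : P) : Prop := cr n y = cr n x ∧ cr (n + 1) y ≠ cr (n + 1) x

lemma exists_lv {x y : P} (h : y ≠ x) : ∃ n, Lv n x y := by
  classical
  have h1 : ∃ n, cr n y ≠ cr n x := by
    by_contra hc
    push Not at hc
    exact h (cr_sep hc)
  have h2 := Nat.find_spec h1
  obtain ⟨n, hn⟩ : ∃ n, Nat.find h1 = n + 1 := by
    refine Nat.exists_eq_succ_of_ne_zero fun h0 => ?_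
    rw [h0, cr_zero, cr_zero] at h2
    exact h2 rfl
  refine ⟨n, ?_, by rwa [hn] at h2⟩
  have := Nat.find_min h1 (m := n) (by omega)
  simpa using this

lemma Lv.unique {m n : ℕ} {x y : P} (hm : Lv m x y) (hn : Lv n x y) : m = n := by
  rcases lt_trichotomy m n with h | h | h
  · exact absurd (cr_mono h hn.1) hm.2
  · exact h
  · exact absurd (cr_mono h hm.1) hn.2

lemma Lv.ne {n : ℕ} {x y : P} (h : Lv n x y) : y ≠ x := fun e => h.2 (by rw [e])

lemma Lv.le {n N : ℕ} {x y : P} (h : Lv n x y) (hN : cr N y = cr N x) : N ≤ n := by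
  by_contra hlt
  exact h.2 (cr_mono (by omega) hN)

open Classical in
noncomputable def lev (x y : P) : ℕ := if h : ∃ n, Lv n x y then h.choose else 0

lemma lev_eq {n : ℕ} {x y : P} (h : Lv n x y) : lev x y = n := by
  have h1 : ∃ n, Lv n x y := ⟨n, h⟩
  rw [lev, dif_pos h1]
  exact h1.choose_spec.unique h

open Classical in
noncomputable def fw (n : ℕ) (x y : P) : P :=
  if cr (n + 1) y = cr n x then y - cr n x + cr (n + 1) x - cr n x else y - cr n x

open Classical in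
noncomputable def bw (n : ℕ) (x v : P) : P :=
  if cr (n + 1) v = cr (n + 1) x - cr n x then v + cr n x - cr (n + 1) x + cr n x else v + cr n x

lemma fw_lv {n : ℕ} {x y : P} (h : Lv n x y) : Lv n 0 (fw n x y) ∧ bw n x (fw n x y) = y := by
  have hn : n ≤ n + 1 := by omega
  by_cases hc : cr (n + 1) y = cr n x
  · have h1 : cr (n + 1) (fw n x y) = cr (n + 1) x - cr n x := by
      rw [fw, if_pos hc, cr_sub hn, cr_add le_rfl, cr_sub hn, hc]
      abel
    refine ⟨⟨?_, ?_⟩, ?_⟩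
    · rw [← cr_cr' hn, h1, cr_sub le_rfl, cr_cr' hn, cr_of_zero, sub_self]
    · rw [h1, cr_of_zero, sub_ne_zero, ← hc]
      exact h.2.symm
    · rw [bw, if_pos h1, fw, if_pos hc]
      abel
  · have h1 : cr (n + 1) (fw n x y) = cr (n + 1) y - cr n x := by
      rw [fw, if_neg hc, cr_sub hn]
    refine ⟨⟨?_, ?_⟩, ?_⟩
    · rw [fw, if_neg hc, cr_sub le_rfl, h.1, cr_of_zero, sub_self]
    · rwa [h1, cr_of_zero, sub_ne_zero]
    · rw [bw, if_neg (by rw [h1, sub_left_inj]; exact h.2), fw, if_neg hc]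
      abel

lemma bw_lv {n : ℕ} {x v : P} (h : Lv n 0 v) : Lv n x (bw n x v) ∧ fw n x (bw n x v) = v := by
  have hn : n ≤ n + 1 := by omega
  have h0 := h.1
  have h0' := h.2
  rw [cr_of_zero] at h0 h0'
  by_cases hc : cr (n + 1) v = cr (n + 1) x - cr n x
  · have h1 : cr (n + 1) (bw n x v) = cr n x := by
      rw [bw, if_pos hc, cr_add hn, cr_sub le_rfl, cr_add hn, hc]
      abel
    refine ⟨⟨?_, ?_⟩, ?_⟩
    · rw [← cr_cr' hn, h1, cr_cr le_rfl]
    · rw [h1]
      intro e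
      rw [hc, e, sub_self] at h0'
      exact h0' rfl
    · rw [fw, if_pos h1, bw, if_pos hc]
      abel
  · have h1 : cr (n + 1) (bw n x v) = cr (n + 1) v + cr n x := by
      rw [bw, if_neg hc, cr_add hn]
    refine ⟨⟨?_, ?_⟩, ?_⟩
    · rw [bw, if_neg hc, cr_add le_rfl, h0, zero_add]
    · rw [h1]
      intro e
      exact hc (eq_sub_of_add_eq e)
    · rw [fw, if_neg (by rw [h1]; simpa using h0'), bw, if_neg hc]
      abel

open Classical in
noncomputable def psi (x y : P) : P := if y = x then 0 else fw (lev x y) x y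

open Classical in
noncomputable def psiI (x v : P) : P := if v = 0 then x else bw (lev 0 v) x v

lemma psi_lv {n : ℕ} {x y : P} (h : Lv n x y) : psi x y = fw n x y := by
  rw [psi, if_neg h.ne, lev_eq h]

lemma psiI_lv {n : ℕ} (x : P) {v : P} (h : Lv n 0 v) : psiI x v = bw n x v := by
  rw [psiI, if_neg h.ne, lev_eq h]

lemma psi_self (x : P) : psi x x = 0 := by simp [psi]
lemma psiI_zero (x : P) : psiI x 0 = x := by simp [psiI]

lemma psiI_psi (x y : P) : psiI x (psi x y) = y := by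
  by_cases h : y = x
  · rw [h, psi_self, psiI_zero]
  · obtain ⟨n, hn⟩ := exists_lv h
    rw [psi_lv hn, psiI_lv x (fw_lv hn).1, (fw_lv hn).2]

lemma psi_psiI (x v : P) : psi x (psiI x v) = v := by
  by_cases h : v = 0
  · rw [h, psiI_zero, psi_self]
  · obtain ⟨n, hn⟩ := exists_lv h
    rw [psiI_lv x hn, psi_lv (bw_lv hn).1, (bw_lv hn).2]

lemma psi_cont (x y : P) (N : ℕ) : ∃ m, ∀ x' y' : P, cr m x' = cr m x → cr m y' = cr m y →
    cr N (psi x' y') = cr N (psi x y) := by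
  by_cases h : y = x
  · refine ⟨N, fun x' y' hx hy => ?_⟩
    rw [h, psi_self]
    by_cases h' : y' = x'
    · rw [h', psi_self]
    · obtain ⟨n, hn⟩ := exists_lv h'
      rw [psi_lv hn]
      exact cr_mono (hn.le (by rw [hx, hy, h])) (fw_lv hn).1.1
  · obtain ⟨n, hn⟩ := exists_lv h
    refine ⟨max N (n + 1), fun x' y' hx hy => cr_mono (le_max_left N (n + 1)) ?_⟩
    have a1 : n + 1 ≤ max N (n + 1) := le_max_right _ _
    have a0 : n ≤ max N (n + 1) := by omega
    have hn' : Lv n x' y' := by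
      rw [Lv, cr_mono a0 hx, cr_mono a0 hy, cr_mono a1 hx, cr_mono a1 hy]
      exact hn
    rw [psi_lv hn, psi_lv hn', fw, fw, cr_mono a0 hx, cr_mono a1 hx, cr_mono a1 hy]
    split_ifs
    · simp only [cr_sub a0, cr_add a1, hy]
    · simp only [cr_sub a0, hy]

lemma psiI_cont (x v : P) (N : ℕ) : ∃ m, ∀ x' v' : P, cr m x' = cr m x → cr m v' = cr m v →
    cr N (psiI x' v') = cr N (psiI x v) := by
  by_cases h : v = 0
  · refine ⟨N, fun x' v' hx hv => ?_⟩
    rw [h, psiI_zero]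
    by_cases h' : v' = 0
    · rw [h', psiI_zero, hx]
    · obtain ⟨n, hn⟩ := exists_lv h'
      rw [psiI_lv x' hn, ← hx]
      exact cr_mono (hn.le (by rw [hv, h])) (bw_lv hn).1.1
  · obtain ⟨n, hn⟩ := exists_lv h
    refine ⟨max N (n + 1), fun x' v' hx hv => cr_mono (le_max_left N (n + 1)) ?_⟩
    have a1 : n + 1 ≤ max N (n + 1) := le_max_right _ _
    have a0 : n ≤ max N (n + 1) := by omega
    have hn' : Lv n 0 v' := by
      rw [Lv, cr_mono a0 hv, cr_mono a1 hv]
      exact hn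
    rw [psiI_lv x hn, psiI_lv x' hn', bw, bw, cr_mono a0 hx, cr_mono a1 hx, cr_mono a1 hv]
    split_ifs
    · simp only [cr_add a0, cr_sub a1, hv]
    · simp only [cr_add a0, hv]

variable {G : Submodule ℚ P} (hG : ∀ x, Fin0 x → x ∈ G)
include hG

lemma psi_mem (x : P) {y : P} (hy : y ∈ G) : psi x y ∈ G := by
  have h := fun n => hG _ (cr_fin n x)
  unfold psi fw
  split_ifs
  · exact zero_mem _
  · exact sub_mem (add_mem (sub_mem hy (h _)) (h _)) (h _)
  · exact sub_mem hy (h _)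

lemma psiI_mem {x : P} (hx : x ∈ G) {v : P} (hv : v ∈ G) : psiI x v ∈ G := by
  have h := fun n => hG _ (cr_fin n x)
  unfold psiI bw
  split_ifs
  · exact hx
  · exact add_mem (sub_mem (add_mem hv (h _)) (h _)) (h _)
  · exact add_mem hv (h _)

theorem rectifiable : ∃ (φ : (GS G × GS G) ≃ₜ (GS G × GS G)) (e : GS G),
    (∀ p, (φ p).1 = p.1) ∧ ∀ x, φ (x, x) = (x, e) := by
  refine ⟨⟨⟨fun p => (p.1, GS.mk (psi p.1.val p.2.val) (psi_mem hG _ p.2.mem)),
    fun p => (p.1, GS.mk (psiI p.1.val p.2.val) (psiI_mem hG p.1.mem p.2.mem)),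
    fun p => Prod.ext rfl (GS.ext (psiI_psi _ _)), fun p => Prod.ext rfl (GS.ext (psi_psiI _ _))⟩,
    continuous_fst.prodMk (cont2_iff.2 fun x y n => ?_),
    continuous_fst.prodMk (cont2_iff.2 fun x y n => ?_)⟩, 0, fun p => rfl,
    fun x => Prod.ext rfl (GS.ext (psi_self _))⟩
  · obtain ⟨m, hm⟩ := psi_cont x.val y.val n
    exact ⟨m, fun x' y' => hm _ _⟩
  · obtain ⟨m, hm⟩ := psiI_cont x.val y.val n
    exact ⟨m, fun x' y' => hm _ _⟩

end Pool.Agent.H557Z.Pt
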