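import Mathlib
import Pool.Agent.H557Z.PtCantor

namespace Pool.Agent.H557Z.Pt

open Set Filter Topology Cardinal

def tr (n : ℕ) (x : P) : P := fun i => if i < n then x i else 0

lemma tr_fin (n : ℕ) (x : P) : Fin0 (tr n x) := ⟨n, fun i hi => by simp [tr, not_lt.2 hi]⟩

abbrev Z0 := {z : Z // Fin0 z.1 ∧ Fin0 z.2}

lemma fin0_countable : {x : P | Fin0 x}.Countable := by
  refine (countable_range fun f : ℕ →₀ ℚ => (f : P)).mono ?_
  rintro x ⟨N, hN⟩
  refine ⟨Finsupp.onFinset (Finset.range N) x fun i hi => ?_, rfl⟩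
  by_contra h
  exact hi (hN i (by simpa using h))

instance : Countable Z0 := (fin0_countable.prod fin0_countable).to_subtype

def t2 (n : ℕ) (z : Z) : Z0 := ⟨(tr n z.1, tr n z.2), tr_fin _ _, tr_fin _ _⟩

lemma t2_ag {n m : ℕ} (h : n ≤ m) (z : Z) : Ag n (t2 m z).1 z := fun i hi => by
  simp [t2, tr, lt_of_lt_of_le hi h]

def Osc (φ : Z0 → V) (j : ℕ) (ε : ℝ) (z : Z) : Prop :=
  ∃ n, ∀ a b : Z0, Ag n a.1 z → Ag n b.1 z → |φ a j - φ b j| ≤ ε

def Dom (φ : Z0 → V) (z : Z) : Prop := ∀ (j : ℕ) (ε : ℝ), 0 < ε → Osc φ j ε z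

noncomputable def FF (φ : Z0 → V) (z : Z) : V := fun j => limUnder atTop fun n => φ (t2 n z) j

lemma Dom.tendsto {φ : Z0 → V} {z : Z} (h : Dom φ z) (j : ℕ) :
    Tendsto (fun n => φ (t2 n z) j) atTop (𝓝 (FF φ z j)) := by
  apply CauchySeq.tendsto_limUnder
  rw [Metric.cauchySeq_iff]
  intro ε hε
  obtain ⟨n, hn⟩ := h j (ε / 2) (half_pos hε)
  refine ⟨n, fun a ha b hb => ?_⟩
  have := hn _ _ (t2_ag ha z) (t2_ag hb z)
  rw [Real.dist_eq]
  linarith

lemma FF_cont (φ : Z0 → V) : ContOn (Dom φ) (FF φ) := by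
  intro z hz j ε hε
  obtain ⟨n, hn⟩ := hz j ε hε
  refine ⟨n, fun w hw hwz => ?_⟩
  refine le_of_tendsto ((hw.tendsto j).sub (hz.tendsto j)).abs ?_
  filter_upwards [eventually_ge_atTop n] with m hm
  exact hn _ _ ((t2_ag hm w).trans hwz) (t2_ag hm z)

/-- the coordinatewise embedding of rational sequences in real sequences -/
def io : P →ₗ[ℚ] V where
  toFun x := fun i => (x i : ℝ)
  map_add' x y := by funext i; simp
  map_smul' q x := by funext i; simp [Rat.smul_def]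

lemma io_apply (x : P) (i : ℕ) : io x i = (x i : ℝ) := rfl

lemma io_inj : Function.Injective io := fun x y h => by
  funext i
  have := congrFun h i
  simpa [io_apply] using this

noncomputable def HH (φ : Z0 → V) (t : ℚ × ℚ × ℚ) (z : Z) : V :=
  t.1 • io z.1 + t.2.1 • io z.2 + t.2.2 • FF φ z

lemma HH_cont (φ : Z0 → V) (t : ℚ × ℚ × ℚ) : ContOn (Dom φ) (HH φ t) := by
  intro z hz j ε hε
  have hp : (0 : ℝ) < |(t.2.2 : ℝ)| + 1 := by positivity
  obtain ⟨n, hn⟩ := FF_cont φ z hz j (ε / (|(t.2.2 : ℝ)| + 1)) (div_pos hε hp)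
  refine ⟨max n (j + 1), fun w hw hwz => ?_⟩
  have h1 := hn w hw (hwz.mono (le_max_left _ _))
  have h2 := hwz j (by omega)
  have h3 : HH φ t w j - HH φ t z j = t.2.2 * (FF φ w j - FF φ z j) := by
    simp only [HH, Pi.add_apply, Pi.smul_apply, io_apply, h2.1, h2.2, Rat.smul_def]
    ring
  rw [h3, abs_mul]
  rw [le_div_iff₀ hp] at h1
  nlinarith [abs_nonneg (FF φ w j - FF φ z j), abs_nonneg (t.2.2 : ℝ)]

abbrev Task := (Z0 → V) × Z0 × ℕ

def Good (τ : Task) : Prop :=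
  Dom τ.1 τ.2.1.1 ∧ ∀ t : ℚ × ℚ × ℚ, t ≠ 0 → ∀ z n, Dom τ.1 z → Ag τ.2.2 z τ.2.1.1 →
    ∃ w, Dom τ.1 w ∧ Ag n w z ∧ HH τ.1 t w ≠ HH τ.1 t z

lemma Good.exists {τ : Task} (h : Good τ) (S : Set V) (hS : #S < 𝔠) :
    ∃ z, ∀ t : ℚ × ℚ × ℚ, t ≠ 0 → HH τ.1 t z ∉ S := by
  have : Nonempty {t : ℚ × ℚ × ℚ // t ≠ 0} := ⟨⟨(1, 0, 0), by simp⟩⟩
  obtain ⟨e, he⟩ := exists_surjective_nat {t : ℚ × ℚ × ℚ // t ≠ 0}
  obtain ⟨z, -, -, hz⟩ := cantor (D := Dom τ.1) (H := fun j => HH τ.1 (e j).1) (z0 := τ.2.1.1)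
    (n0 := τ.2.2) (O := fun k w => Osc τ.1 k.unpair.1 (1 / (k.unpair.2 + 1)) w)
    (fun k z hz => by
      obtain ⟨n, hn⟩ := hz k.unpair.1 (1 / (k.unpair.2 + 1)) Nat.one_div_pos_of_nat
      exact ⟨n, fun w hw => ⟨n, fun a b ha hb => hn a b (ha.trans hw) (hb.trans hw)⟩⟩)
    (fun w hw j ε hε => by
      obtain ⟨r, hr⟩ := exists_nat_one_div_lt hε
      obtain ⟨n, hn⟩ := hw (Nat.pair j r)
      simp only [Nat.unpair_pair] at hn
      exact ⟨n, fun a b ha hb => (hn a b ha hb).trans hr.le⟩)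
    (fun j => HH_cont _ _) h.1 (fun j => h.2 _ (e j).2) S hS
  refine ⟨z, fun t ht => ?_⟩
  obtain ⟨j, hj⟩ := he ⟨t, ht⟩
  have := hz j
  rwa [hj] at this

lemma exists_task : ∃ f : II → Task, Function.Surjective f := by
  have h1 : #Task ≤ #II := by
    have h2 : #(Z0 → V) ≤ 𝔠 := by
      rw [mk_arrow]
      simp only [lift_id, mk_arrow, mk_real, mk_nat, continuum_power_aleph0]
      calc 𝔠 ^ #Z0 ≤ 𝔠 ^ ℵ₀ := power_le_power_left continuum_ne_zero mk_le_aleph0
        _ = 𝔠 := continuum_power_aleph0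
    rw [mk_ord_toType, mk_prod, lift_id, lift_id]
    calc #(Z0 → V) * #(Z0 × ℕ) ≤ 𝔠 * ℵ₀ := mul_le_mul' h2 mk_le_aleph0
      _ = 𝔠 := continuum_mul_aleph0
  obtain ⟨g⟩ := (Cardinal.le_def _ _).1 h1
  have : Nonempty Task := ⟨fun _ => 0, t2 0 0, 0⟩
  exact ⟨Function.invFun g, Function.invFun_surjective g.injective⟩

def gens (s : Set (Z × V)) : Set V :=
  io '' {x | Fin0 x} ∪ (fun a => io a.1.1) '' s ∪ (fun a => io a.1.2) '' s ∪ (fun a => a.2) '' s

lemma mk_gens {s : Set (Z × V)} (hs : #s < 𝔠) : #(gens s) < 𝔠 := by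
  have h := aleph0_le_continuum
  refine (mk_union_le _ _).trans_lt (add_lt_of_lt h ((mk_union_le _ _).trans_lt (add_lt_of_lt h
    ((mk_union_le _ _).trans_lt (add_lt_of_lt h ?_ (mk_image_le.trans_lt hs)))
    (mk_image_le.trans_lt hs))) (mk_image_le.trans_lt hs))
  exact (fin0_countable.image _).le_aleph0.trans_lt aleph0_lt_continuum

theorem exists_G : ∃ G : Submodule ℚ P, (∀ x, Fin0 x → x ∈ G) ∧
    ∀ τ : Task, Good τ → ∃ z : Z, z.1 ∈ G ∧ z.2 ∈ G ∧ ∀ x ∈ G, io x ≠ FF τ.1 z := by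
  classical
  obtain ⟨f, hf⟩ := exists_task
  obtain ⟨u, hu⟩ := rec_exists (A := Z × V) (fun α s a =>
    (Good (f α) ∧ a.2 = FF (f α).1 a.1 ∧
      ∀ t : ℚ × ℚ × ℚ, t ≠ 0 → HH (f α).1 t a.1 ∉ Submodule.span ℚ (gens s)) ∨
    (¬ Good (f α) ∧ a = 0)) (by
      intro α s hs
      by_cases h : Good (f α)
      · obtain ⟨z, hz⟩ := h.exists _ (mk_span_lt (mk_gens hs))
        exact ⟨(z, FF (f α).1 z), Or.inl ⟨h, rfl, hz⟩⟩
      · exact ⟨0, Or.inr ⟨h, rfl⟩⟩)
  refine ⟨Submodule.span ℚ ({x | Fin0 x} ∪ range (fun α => (u α).1.1) ∪ range fun α => (u α).1.2),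
    fun x hx => Submodule.subset_span (Or.inl (Or.inl hx)), fun τ hτ => ?_⟩
  obtain ⟨α, rfl⟩ := hf τ
  obtain ⟨-, he, hα⟩ := (hu α).resolve_right fun h => h.1 hτ
  refine ⟨(u α).1, Submodule.subset_span (Or.inl (Or.inr ⟨α, rfl⟩)),
    Submodule.subset_span (Or.inr ⟨α, rfl⟩), ?_⟩
  let U : Finset II → Submodule ℚ V := fun s => Submodule.span ℚ
    (io '' {x | Fin0 x} ∪ (fun β => io (u β).1.1) '' s ∪ (fun β => io (u β).1.2) '' s)
  have hUmono : ∀ s t, s ⊆ t → U s ≤ U t := fun s t h => Submodule.span_mono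
    (union_subset_union (union_subset_union_right _ (image_mono h)) (image_mono h))
  have hUle : ∀ (s : Finset II) γ, (∀ β ∈ s, β < γ) →
      U s ≤ Submodule.span ℚ (gens (u '' Iio γ)) := by
    intro s γ h
    refine Submodule.span_mono ?_
    rintro _ ((hx | ⟨β, hβ, rfl⟩) | ⟨β, hβ, rfl⟩)
    · exact Or.inl (Or.inl (Or.inl hx))
    · exact Or.inl (Or.inl (Or.inr ⟨_, ⟨β, h β hβ, rfl⟩, rfl⟩))
    · exact Or.inl (Or.inr ⟨_, ⟨β, h β hβ, rfl⟩, rfl⟩)
  have hlow : ∀ s : Finset II, (∀ β ∈ s, β < α) → (u α).2 ∉ U s := by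
    intro s hs h
    refine hα (0, 0, 1) (by simp) ?_
    simpa [HH, ← he] using hUle s α hs h
  have hnot : ∀ s : Finset II, (u α).2 ∉ U s := by
    intro s
    induction s using Finset.induction_on_max with
    | empty => exact hlow _ (by simp)
    | insert γ s hs ih =>
      intro h
      obtain ⟨a, ha, k, l, hkl⟩ : ∃ a ∈ U s, ∃ k l : ℚ,
          (u α).2 = a + k • io (u γ).1.1 + l • io (u γ).1.2 := by
        have h1 : U (insert γ s) ≤ U s ⊔ Submodule.span ℚ {io (u γ).1.1} ⊔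
            Submodule.span ℚ {io (u γ).1.2} := by
          refine Submodule.span_le.2 ?_
          rintro _ ((hx | ⟨β, hβ, rfl⟩) | ⟨β, hβ, rfl⟩)
          · exact Submodule.mem_sup_left (Submodule.mem_sup_left
              (Submodule.subset_span (Or.inl (Or.inl hx))))
          · rcases Finset.mem_insert.1 hβ with rfl | hβ
            · exact Submodule.mem_sup_left (Submodule.mem_sup_right (Submodule.subset_span rfl))
            · exact Submodule.mem_sup_left (Submodule.mem_sup_left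
                (Submodule.subset_span (Or.inl (Or.inr ⟨β, hβ, rfl⟩))))
          · rcases Finset.mem_insert.1 hβ with rfl | hβ
            · exact Submodule.mem_sup_right (Submodule.subset_span rfl)
            · exact Submodule.mem_sup_left (Submodule.mem_sup_left
                (Submodule.subset_span (Or.inr ⟨β, hβ, rfl⟩)))
        obtain ⟨b, hb, c, hc, e1⟩ := Submodule.mem_sup.1 (h1 h)
        obtain ⟨a, ha, d, hd, e2⟩ := Submodule.mem_sup.1 hb
        obtain ⟨k, rfl⟩ := Submodule.mem_span_singleton.1 hd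
        obtain ⟨l, rfl⟩ := Submodule.mem_span_singleton.1 hc
        exact ⟨a, ha, k, l, by rw [← e1, ← e2]⟩
      rcases lt_trichotomy γ α with hγ | rfl | hγ
      · refine hlow _ (fun β hβ => ?_) h
        rcases Finset.mem_insert.1 hβ with rfl | hβ
        · exact hγ
        · exact (hs β hβ).trans hγ
      · refine hα (-k, -l, 1) (by simp) ?_
        have : HH (f γ).1 (-k, -l, 1) (u γ).1 = a := by
          simp only [HH, ← he, hkl]
          module
        rw [this]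
        exact hUle s γ hs ha
      · rcases hu γ with ⟨-, -, h2⟩ | ⟨-, h2⟩
        · by_cases hz : ((k, l, 0) : ℚ × ℚ × ℚ) = 0
          · simp only [Prod.mk_eq_zero] at hz
            rw [hz.1, hz.2.1, zero_smul, zero_smul, add_zero, add_zero] at hkl
            exact ih (hkl ▸ ha)
          · refine h2 (k, l, 0) hz ?_
            have : HH (f γ).1 (k, l, 0) (u γ).1 = (u α).2 - a := by
              simp only [HH, hkl]
              module
            rw [this]
            exact sub_mem (Submodule.subset_span (Or.inr ⟨_, ⟨α, hγ, rfl⟩, rfl⟩)) (hUle s γ hs ha)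
        · rw [h2] at hkl
          simp only [Prod.fst_zero, Prod.snd_zero, map_zero, smul_zero, add_zero] at hkl
          exact ih (hkl ▸ ha)
  intro x hx hxe
  have hfin : ∃ s, io x ∈ U s := by
    clear hxe
    induction hx using Submodule.span_induction with
    | mem y hy =>
      rcases hy with (hy | ⟨β, rfl⟩) | ⟨β, rfl⟩
      · exact ⟨∅, Submodule.subset_span (Or.inl (Or.inl ⟨y, hy, rfl⟩))⟩
      · exact ⟨{β}, Submodule.subset_span (Or.inl (Or.inr ⟨β, by simp, rfl⟩))⟩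
      · exact ⟨{β}, Submodule.subset_span (Or.inr ⟨β, by simp, rfl⟩)⟩
    | zero => exact ⟨∅, by simp⟩
    | add y w _ _ hy hw =>
      obtain ⟨s, hs⟩ := hy
      obtain ⟨t, ht⟩ := hw
      exact ⟨s ∪ t, by
        rw [map_add]
        exact add_mem (hUmono _ _ Finset.subset_union_left hs)
          (hUmono _ _ Finset.subset_union_right ht)⟩
    | smul q y _ hy =>
      obtain ⟨s, hs⟩ := hy
      exact ⟨s, by rw [map_smul]; exact Submodule.smul_mem _ _ hs⟩
  obtain ⟨s, hs⟩ := hfin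
  exact hnot s (by rwa [he, ← hxe])

end Pool.Agent.H557Z.Pt
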