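import Mathlib
import Pool.Agent.H557Z.PtRigid
import Pool.Agent.H557Z.PtRect

namespace Pool.Agent.H557Z.Pt

open Set Filter Topology

variable {G : Submodule ℚ P}

lemma cr_of_agree {n : ℕ} {x y : P} (h : ∀ i < n, x i = y i) : cr n x = cr n y :=
  cr_eq_iff.2 fun i hi => by rw [h i hi]

def ee (n : ℕ) : P := Pi.single n 1

lemma ee_fin (n : ℕ) : Fin0 (ee n) :=
  ⟨n + 1, fun i hi => by simp [ee, Pi.single_eq_of_ne (show i ≠ n by omega)]⟩

lemma ee_lt {n i : ℕ} (h : i < n) : ee n i = 0 := by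
  simp [ee, Pi.single_eq_of_ne h.ne]

lemma ee_self (n : ℕ) : ee n n = 1 := by simp [ee]

lemma ee_nonneg (n i : ℕ) : 0 ≤ ee n i ∧ ee n i ≤ 1 := by
  by_cases h : i = n
  · subst h
    simp [ee]
  · simp [ee, Pi.single_eq_of_ne h]

/-- `F` is affine with slopes `k`, `l` on the level `n` cylinder of `(a, b)` -/
def Aff (F : GS G × GS G → GS G) (a b : GS G) (n : ℕ) (k l : ℚ) : Prop :=
  ∀ x y : GS G, Ag n (x.val, y.val) (a.val, b.val) →
    (F (x, y)).val = (F (a, b)).val + k • (x.val - a.val) + l • (y.val - b.val)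

lemma near {F : GS G × GS G → GS G} (hF : Continuous F) (x y : GS G) (j : ℕ) {ε : ℚ}
    (hε : 0 < ε) : ∃ m, ∀ x' y' : GS G, cr m x'.val = cr m x.val → cr m y'.val = cr m y.val →
      (F (x, y)).val j ≤ (F (x', y')).val j ∧ (F (x', y')).val j < (F (x, y)).val j + ε := by
  obtain ⟨n, hn⟩ := lemB (F (x, y)).val (j + 1) hε
  obtain ⟨m, hm⟩ := cont2_iff.1 hF x y n
  exact ⟨m, fun x' y' hx hy => hn _ (hm x' y' hx hy) j (by omega)⟩

lemma Aff.nonneg (hG : ∀ x, Fin0 x → x ∈ G) {F : GS G × GS G → GS G} (hF : Continuous F)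
    {a b : GS G} {n : ℕ} {k l : ℚ} (h : Aff F a b n k l) : 0 ≤ k ∧ 0 ≤ l := by
  obtain ⟨m, hm⟩ := near hF a b n one_pos
  have key : ∀ c : GS G, ∃ (ε : ℚ) (c' : GS G), 0 < ε ∧ c'.val = c.val + ε • ee n ∧
      cr m c'.val = cr m c.val := by
    intro c
    obtain ⟨ε, hε, h⟩ := lemA c.val m
    refine ⟨ε / 2, GS.mk (c.val + (ε / 2) • ee n)
      (add_mem c.mem (G.smul_mem _ (hG _ (ee_fin n)))), half_pos hε, rfl, h _ fun i _ => ?_⟩
    have := ee_nonneg n i
    simp only [GS.val_mk, Pi.add_apply, Pi.smul_apply, smul_eq_mul]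
    constructor <;> nlinarith [this.1, this.2]
  constructor
  · obtain ⟨ε, c, hε, hc, hc'⟩ := key a
    have h1 := (hm c b hc' rfl).1
    rw [h c b (fun i hi => ⟨by simp [hc, ee_lt hi], rfl⟩), hc] at h1
    simp only [add_sub_cancel_left, sub_self, smul_zero, add_zero, Pi.add_apply, Pi.smul_apply,
      ee_self, smul_eq_mul, mul_one, Pi.zero_apply] at h1
    by_contra hk
    nlinarith [not_le.1 hk]
  · obtain ⟨ε, c, hε, hc, hc'⟩ := key b
    have h1 := (hm a c rfl hc').1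
    rw [h a c (fun i hi => ⟨rfl, by simp [hc, ee_lt hi]⟩), hc] at h1
    simp only [add_sub_cancel_left, sub_self, smul_zero, add_zero, Pi.add_apply, Pi.smul_apply,
      ee_self, smul_eq_mul, mul_one] at h1
    by_contra hk
    nlinarith [not_le.1 hk]

lemma exists_aff (hG : ∀ x, Fin0 x → x ∈ G)
    (hR : ∀ τ : Task, Good τ → ∃ z : Z, z.1 ∈ G ∧ z.2 ∈ G ∧ ∀ x ∈ G, io x ≠ FF τ.1 z)
    {F : GS G × GS G → GS G} (hF : Continuous F) (z0 : Z) (n0 : ℕ) :
    ∃ (a b : GS G) (n : ℕ) (k l : ℚ), n0 ≤ n ∧ Ag n0 (a.val, b.val) z0 ∧ Aff F a b n k l := by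
  let φ : Z0 → V := fun a => io (F (GS.mk a.1.1 (hG _ a.2.1), GS.mk a.1.2 (hG _ a.2.2))).val
  have hnear : ∀ (x y : GS G) (j : ℕ) (ε : ℝ), 0 < ε → ∃ m, ∀ a : Z0, Ag m a.1 (x.val, y.val) →
      io (F (x, y)).val j ≤ φ a j ∧ φ a j < io (F (x, y)).val j + ε := by
    intro x y j ε hε
    obtain ⟨q, hq, hq'⟩ := exists_rat_btwn hε
    obtain ⟨m, hm⟩ := near hF x y j (show (0 : ℚ) < q by exact_mod_cast hq)
    refine ⟨m, fun a ha => ?_⟩
    have := hm (GS.mk a.1.1 (hG _ a.2.1)) (GS.mk a.1.2 (hG _ a.2.2))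
      (cr_of_agree fun i hi => (ha i hi).1) (cr_of_agree fun i hi => (ha i hi).2)
    simp only [φ, io_apply]
    refine ⟨by exact_mod_cast this.1, lt_trans ?_ (add_lt_add_right hq' _)⟩
    exact_mod_cast this.2
  have hD : ∀ x y : GS G, Dom φ (x.val, y.val) := by
    intro x y j ε hε
    obtain ⟨m, hm⟩ := hnear x y j ε hε
    refine ⟨m, fun a b ha hb => ?_⟩
    have h1 := hm a ha
    have h2 := hm b hb
    rw [abs_le]
    constructor <;> linarith [h1.1, h1.2, h2.1, h2.2]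
  have hFF : ∀ x y : GS G, FF φ (x.val, y.val) = io (F (x, y)).val := by
    intro x y
    funext j
    refine tendsto_nhds_unique ((hD x y).tendsto j) (Metric.tendsto_atTop.2 fun ε hε => ?_)
    obtain ⟨m, hm⟩ := hnear x y j ε hε
    refine ⟨m, fun n hn => ?_⟩
    have h1 := hm _ (t2_ag hn _)
    rw [Real.dist_eq, abs_lt]
    constructor <;> linarith [h1.1, h1.2]
  have hng : ¬ Good (φ, t2 n0 z0, n0) := by
    intro h
    obtain ⟨z, h1, h2, h3⟩ := hR _ h
    exact h3 _ (F (GS.mk _ h1, GS.mk _ h2)).mem (hFF (GS.mk _ h1) (GS.mk _ h2)).symm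
  have hD0 : Dom φ (t2 n0 z0).1 :=
    hD (GS.mk _ (hG _ (t2 n0 z0).2.1)) (GS.mk _ (hG _ (t2 n0 z0).2.2))
  simp only [Good, hD0, true_and] at hng
  push Not at hng
  obtain ⟨⟨t1, t2', t3⟩, ht, z, n, hz, hz0, hc⟩ := hng
  let a : GS G := GS.mk _ (hG _ (t2 (max n n0) z).2.1)
  let b : GS G := GS.mk _ (hG _ (t2 (max n n0) z).2.2)
  have hab : Ag (max n n0) (a.val, b.val) z := t2_ag le_rfl z
  have hlin : ∀ x y : GS G, Ag (max n n0) (x.val, y.val) (a.val, b.val) →
      t1 • x.val + t2' • y.val + t3 • (F (x, y)).val =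
        t1 • a.val + t2' • b.val + t3 • (F (a, b)).val := by
    intro x y h
    have h1 := hc _ (hD x y) ((h.trans hab).mono (le_max_left _ _))
    have h2 := hc _ (hD a b) (hab.mono (le_max_left _ _))
    apply io_inj
    simp only [HH, hFF] at h1 h2
    simp only [map_add, map_smul]
    rw [h1, h2]
  have h3 : t3 ≠ 0 := by
    rintro rfl
    have e1 := congrFun (hlin (a + GS.mk _ (hG _ (ee_fin (max n n0)))) b
      (fun i hi => ⟨by simp [ee_lt hi], rfl⟩)) (max n n0)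
    have e2 := congrFun (hlin a (b + GS.mk _ (hG _ (ee_fin (max n n0))))
      (fun i hi => ⟨rfl, by simp [ee_lt hi]⟩)) (max n n0)
    simp only [GS.val_add, GS.val_mk, Pi.add_apply, Pi.smul_apply, smul_eq_mul, ee_self] at e1 e2
    apply ht
    rw [show t1 = 0 by linarith, show t2' = 0 by linarith]
    rfl
  refine ⟨a, b, max n n0, -t1 / t3, -t2' / t3, le_max_right _ _,
    ((hab.mono (le_max_right _ _)).trans hz0).trans (t2_ag le_rfl z0), fun x y h => ?_⟩
  funext i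
  have e := congrFun (hlin x y h) i
  simp only [Pi.add_apply, Pi.smul_apply, smul_eq_mul, Pi.sub_apply] at e ⊢
  field_simp
  linarith

theorem not_homeo (hG : ∀ x, Fin0 x → x ∈ G)
    (hR : ∀ τ : Task, Good τ → ∃ z : Z, z.1 ∈ G ∧ z.2 ∈ G ∧ ∀ x ∈ G, io x ≠ FF τ.1 z)
    (H : Type) [Group H] [TopologicalSpace H] [IsTopologicalGroup H] (h : GS G ≃ₜ H) : False := by
  let m : GS G × GS G → GS G := fun p => h.symm (h p.1 * h p.2)
  let d : GS G × GS G → GS G := fun p => h.symm ((h p.1)⁻¹ * h p.2)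
  have hm : Continuous m := by fun_prop
  have hd : Continuous d := by fun_prop
  have hmd : ∀ x y, m (x, d (x, y)) = y := fun x y => by simp [m, d]
  obtain ⟨a1, b1, n1, a, l, -, -, h1⟩ := exists_aff hG hR hd 0 0
  obtain ⟨a2, b2, n2, k2, l2, hn, h12, h2⟩ := exists_aff hG hR hm (a1.val, (d (a1, b1)).val) n1
  have ha := (h1.nonneg hG hd).1
  have hk := h2.nonneg hG hm
  have hone : ∀ (c : GS G) (n : ℕ), c + GS.mk _ (hG _ (ee_fin n)) ≠ c := by
    intro c n e
    have := congrFun (congrArg GS.val e) n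
    simp [ee_self] at this
  have hl : l ≠ 0 := by
    rintro rfl
    have e := h1 a1 (b1 + GS.mk _ (hG _ (ee_fin n1))) fun i hi => ⟨rfl, by simp [ee_lt hi]⟩
    simp only [sub_self, smul_zero, add_zero, zero_smul] at e
    have e' := GS.ext e
    simp only [d, EmbeddingLike.apply_eq_iff_eq, mul_right_inj] at e'
    exact hone _ _ e'
  have hk2 : k2 ≠ 0 := by
    rintro rfl
    have e := h2 (a2 + GS.mk _ (hG _ (ee_fin n2))) b2 fun i hi => ⟨by simp [ee_lt hi], rfl⟩
    simp only [sub_self, smul_zero, add_zero, zero_smul] at e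
    have e' := GS.ext e
    simp only [m, EmbeddingLike.apply_eq_iff_eq, mul_left_inj] at e'
    exact hone _ _ e'
  let y : GS G := GS.mk (b1.val + l⁻¹ • (b2.val - (d (a1, b1)).val - a • (a2.val - a1.val)))
    (add_mem b1.mem (G.smul_mem _ (sub_mem (sub_mem b2.mem (d (a1, b1)).mem)
      (G.smul_mem _ (sub_mem a2.mem a1.mem)))))
  have hy : ∀ i < n1, y.val i = b1.val i := by
    intro i hi
    have := h12 i hi
    simp only at this
    simp [y, this.1, this.2]
  have e1 : (d (a2, y)).val = b2.val := by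
    rw [h1 a2 y fun i hi => ⟨(h12 i hi).1, hy i hi⟩]
    simp only [y, GS.val_mk, add_sub_cancel_left, smul_inv_smul₀ hl]
    abel
  let x' : GS G := a2 + GS.mk _ (hG _ (ee_fin n2))
  have e2 : (d (x', y)).val = b2.val + a • ee n2 := by
    rw [h1 x' y fun i hi => ⟨by
      simp only [x', GS.val_add, GS.val_mk, Pi.add_apply, ee_lt (lt_of_lt_of_le hi hn), add_zero]
      exact (h12 i hi).1, hy i hi⟩]
    simp only [y, x', GS.val_add, GS.val_mk, add_sub_cancel_left, smul_inv_smul₀ hl]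
    module
  have e3 := h2 x' (d (x', y)) fun i hi => ⟨by simp [x', ee_lt hi], by simp [e2, ee_lt hi]⟩
  have e4 : m (a2, b2) = y := by rw [← GS.ext e1, hmd]
  rw [hmd, e4, e2] at e3
  have e5 := congrFun e3 n2
  simp only [x', GS.val_add, GS.val_mk, add_sub_cancel_left, Pi.add_apply, Pi.smul_apply, ee_self,
    smul_eq_mul, mul_one] at e5
  have := lt_of_le_of_ne hk.1 hk2.symm
  nlinarith [mul_nonneg hk.2 ha]

theorem main : ∃ (G : Type) (_ : CommGroup G) (_ : TopologicalSpace G), ContinuousMul G ∧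
    T35Space G ∧ (∃ (φ : (G × G) ≃ₜ (G × G)) (e : G),
      (∀ p : G × G, (φ p).1 = p.1) ∧ ∀ x : G, φ (x, x) = (x, e)) ∧
    ∀ (H : Type) [Group H] [TopologicalSpace H] [IsTopologicalGroup H], IsEmpty (G ≃ₜ H) := by
  obtain ⟨G, hG, hR⟩ := exists_G
  exact ⟨Multiplicative (GS G), inferInstance, inferInstance, inferInstance,
    inferInstanceAs (T35Space (GS G)), rectifiable hG,
    fun H _ _ _ => ⟨fun h => not_homeo hG hR H h⟩⟩

end Pool.Agent.H557Z.Pt
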