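import Mathlib

namespace Pool.Agent.H557Z.Shm

/-- A subset `A` of an abelian topological group `G` is strongly Haar meager if there are a Borel
set `B ⊇ A` and a nonempty compact set `C ⊆ G` such that for every `g`, the set `(B + g) ∩ C` is
meager in the subspace `C`. -/
def StronglyHaarMeager {G : Type} [AddCommGroup G] [TopologicalSpace G] (A : Set G) : Prop :=
  ∃ B : Set G, A ⊆ B ∧ @MeasurableSet G (borel G) B ∧
    ∃ C : Set G, C.Nonempty ∧ IsCompact C ∧
      ∀ g : G, IsMeagre {x : C | (x : G) ∈ (fun b => b + g) '' B}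

end Pool.Agent.H557Z.Shm
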