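import Mathlib

namespace Pool.Agent.H557Z.Shm

open Set Topology

abbrev X := ℕ → ℤ

/-- agreement below `k` -/
def Ag (k : ℕ) (x y : X) : Prop := ∀ i < k, x i = y i

lemma Ag.refl (k : ℕ) (x : X) : Ag k x x := fun _ _ => rfl
lemma Ag.symm {k : ℕ} {x y : X} (h : Ag k x y) : Ag k y x := fun i hi => (h i hi).symm
lemma Ag.trans {k : ℕ} {x y z : X} (h : Ag k x y) (h' : Ag k y z) : Ag k x z :=
  fun i hi => (h i hi).trans (h' i hi)
lemma Ag.mono {k l : ℕ} {x y : X} (h : Ag k x y) (hl : l ≤ k) : Ag l x y :=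
  fun i hi => h i (lt_of_lt_of_le hi hl)
lemma Ag.add {k : ℕ} {x y : X} (h : Ag k x y) (v : X) : Ag k (x + v) (y + v) :=
  fun i hi => by simp [h i hi]
lemma Ag.sub {k : ℕ} {x y : X} (h : Ag k x y) (v : X) : Ag k (x - v) (y - v) :=
  fun i hi => by simp [h i hi]

/-- combinatorial nowhere density -/
def CND (C S : Set X) : Prop :=
  ∀ x ∈ C, ∀ k, ∃ y ∈ C, Ag k y x ∧ ∃ l, ∀ w ∈ C, Ag l w y → w ∉ S

lemma cyl_sub {U : Set X} (hU : IsOpen U) {x : X} (hx : x ∈ U) :
    ∃ k, ∀ y, Ag k y x → y ∈ U := by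
  obtain ⟨v, ⟨x', n, rfl⟩, hxv, hv⟩ :=
    (PiNat.isTopologicalBasis_cylinders (fun _ : ℕ => ℤ)).exists_subset_of_mem_open hx hU
  refine ⟨n, fun y hy => hv ?_⟩
  intro i hi
  rw [hy i hi]
  exact hxv i hi

lemma isOpen_ag (k : ℕ) (x : X) : IsOpen {y : X | Ag k y x} :=
  PiNat.isOpen_cylinder (fun _ : ℕ => ℤ) x k

lemma CND.meagre {C S : Set X} (h : CND C S) : IsMeagre {x : C | (x : X) ∈ S} := by
  apply IsNowhereDense.isMeagre
  rw [isNowhereDense_iff_forall_notMem_nhds]
  intro x _ hx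
  rw [mem_nhds_subtype] at hx
  obtain ⟨U, hU, hUs⟩ := hx
  obtain ⟨V, hVU, hV, hxV⟩ := mem_nhds_iff.1 hU
  obtain ⟨k, hk⟩ := cyl_sub hV hxV
  obtain ⟨y, hyC, hyx, l, hl⟩ := h x x.2 k
  have hy : (⟨y, hyC⟩ : C) ∈ closure {x : C | (x : X) ∈ S} := hUs (hVU (hk y hyx))
  rw [mem_closure_iff] at hy
  obtain ⟨w, hw1, hw2⟩ := hy (Subtype.val ⁻¹' {w : X | Ag l w y})
    ((isOpen_ag l y).preimage continuous_subtype_val) (Ag.refl l y)
  exact hl w w.2 hw1 hw2

lemma portion_not_meagre {C : Set X} (hC : IsCompact C) {x : X} (hx : x ∈ C) (k : ℕ) :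
    ¬ IsMeagre {w : C | Ag k (w : X) x} := by
  have : CompactSpace C := isCompact_iff_compactSpace.1 hC
  exact not_isMeagre_of_isOpen ((isOpen_ag k x).preimage continuous_subtype_val)
    ⟨⟨x, hx⟩, Ag.refl k x⟩

abbrev Tr := ℕ → Finset (List ℤ)

def Mem (T : Tr) (m : ℕ) (d : X) : Prop := PiNat.res d (m + 1) ∈ T m

lemma Mem.congr {T : Tr} {m : ℕ} {d d' : X} (h : Mem T m d) (hd : Ag (m + 1) d d') :
    Mem T m d' := by
  unfold Mem at *
  have : PiNat.res d (m + 1) = PiNat.res d' (m + 1) := PiNat.res_eq_res.2 fun i hi => hd i hi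
  rwa [← this]

def e (n : ℕ) : X := Pi.single n 1

lemma e_self (n : ℕ) : e n n = 1 := by simp [e]
lemma e_ne {n i : ℕ} (h : i ≠ n) : e n i = 0 := by simp [e, h]
lemma e_apply (n i : ℕ) : e n i = if i = n then 1 else 0 := by simp [e, Pi.single_apply]

def Br (T : Tr) (d : X) : Prop := ∀ m, Mem T m d

def B1 (T : Tr) (c : X) : Prop :=
  Br T c ∧ ∀ k, ∃ n, k ≤ n ∧ (∃ m, ¬ Mem T m (c + e n)) ∧ ∃ m, ¬ Mem T m (c - e n)

def IsTree (T : Tr) : Prop := ∀ n m, n ≤ m → ∀ d, Mem T m d → Mem T n d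

def QAt (T : Tr) (k n m : ℕ) (c : X) : Prop :=
  ∀ d, Mem T m d → Ag k d c → Mem T m (d + e n) ∨ Mem T m (d - e n)

def MinAt (T : Tr) (n : ℕ) (c : X) : Prop := ∀ d, Mem T n d → Ag n d c → c n ≤ d n
def MaxAt (T : Tr) (n : ℕ) (c : X) : Prop := ∀ d, Mem T n d → Ag n d c → d n ≤ c n

def B0k (T : Tr) (k : ℕ) (c : X) : Prop :=
  Br T c ∧ IsTree T ∧ (∀ n m, k ≤ n → n ≤ m → QAt T k n m c) ∧
    (∀ j, ∃ n, j ≤ n ∧ MinAt T n c) ∧ ∀ j, ∃ n, j ≤ n ∧ MaxAt T n c

def C1 : Set X := {x | ∀ i, x i = 0 ∨ x i = 1}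

def C0 : Set X := {x | (∀ i, 0 ≤ x i) ∧ ∀ m, ∑ i ∈ Finset.range m, x i ≤ m}

/-- if a set inside the branches is dense in a portion, then the portion is inside the branches -/
lemma br_of_dense {T : Tr} {h y : X} {C S : Set X} (hS : ∀ w ∈ S, Br T (w + h))
    (hy : ∀ l, ∃ w ∈ C, Ag l w y ∧ w ∈ S) : Br T (y + h) := by
  intro m
  obtain ⟨w, -, hw, hwS⟩ := hy (m + 1)
  exact (hS w hwS m).congr (hw.add h)

lemma cnd_B1 (T : Tr) (h : X) : CND C1 {x | B1 T (x + h)} := by
  intro x hx k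
  by_contra hcon
  push Not at hcon
  have hbr : ∀ y ∈ C1, Ag k y x → Br T (y + h) := fun y hy hyx =>
    br_of_dense (S := {x | B1 T (x + h)}) (fun w hw => hw.1) (hcon y hy hyx)
  obtain ⟨w, hwC, hwx, hw⟩ := hcon x hx (Ag.refl k x) k
  obtain ⟨n, hkn, ⟨m1, hm1⟩, m2, hm2⟩ := hw.2 k
  rcases hwC n with h0 | h1
  · apply hm1
    have : w + h + e n = (w + e n) + h := by abel
    rw [this]
    refine hbr (w + e n) ?_ ?_ m1
    · intro i
      by_cases hi : i = n
      · subst hi; simp [e_self, h0]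
      · simpa [e_ne hi] using hwC i
    · intro i hi
      have : i ≠ n := by omega
      simp [e_ne this, hwx i hi]
  · apply hm2
    have : w + h - e n = (w - e n) + h := by abel
    rw [this]
    refine hbr (w - e n) ?_ ?_ m2
    · intro i
      by_cases hi : i = n
      · subst hi; simp [e_self, h1]
      · simpa [e_ne hi] using hwC i
    · intro i hi
      have : i ≠ n := by omega
      simp [e_ne this, hwx i hi]

lemma sum_e (n m : ℕ) : ∑ i ∈ Finset.range m, e n i = if n < m then 1 else 0 := by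
  simp [e_apply]

lemma cnd_B0k (T : Tr) (h : X) (k0 : ℕ) : CND C0 {x | B0k T k0 (x + h)} := by
  intro x0 hx0 k1
  by_contra hcon
  push Not at hcon
  have hbr : ∀ y ∈ C0, Ag k1 y x0 → Br T (y + h) := fun y hy hyx =>
    br_of_dense (S := {x | B0k T k0 (x + h)}) (fun w hw => hw.1) (hcon y hy hyx)
  obtain ⟨x, hxC, hxx, hx⟩ := hcon x0 hx0 (Ag.refl k1 x0) k1
  obtain ⟨n, hkn, hmin⟩ := hx.2.2.2.1 (max k0 k1)
  have hk0 : k0 ≤ n := le_trans (le_max_left _ _) hkn
  have hk1 : k1 ≤ n := le_trans (le_max_right _ _) hkn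
  have htree : IsTree T := hx.2.1
  -- the value of `x` at `n` is zero
  have hxn : x n = 0 := by
    by_contra hne
    have hpos : 1 ≤ x n := by have := hxC.1 n; omega
    have h1 : x - e n ∈ C0 := by
      refine ⟨fun i => ?_, fun m => ?_⟩
      · by_cases hi : i = n
        · subst hi; simp [e_self]; omega
        · simpa [e_ne hi] using hxC.1 i
      · have := hxC.2 m
        simp only [Pi.sub_apply, Finset.sum_sub_distrib, sum_e]
        split_ifs <;> omega
    have h2 : Ag k1 (x - e n) x0 := by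
      intro i hi
      have : i ≠ n := by omega
      simp [e_ne this, hxx i hi]
    have h3 := hmin (x - e n + h) (hbr _ h1 h2 n) (by
      intro i hi
      have : i ≠ n := by omega
      simp [e_ne this])
    simp [e_self] at h3
  -- the point with value one at `n`
  let y0 : X := fun i => if i < n then x i else if i = n then 1 else 0
  have hy0 : y0 ∈ C0 := by
    refine ⟨fun i => ?_, fun m => ?_⟩
    · simp only [y0]
      split_ifs
      · exact hxC.1 i
      · omega
      · omega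
    · induction m with
      | zero => simp
      | succ m ih =>
        by_cases hm : m < n
        · have : ∑ i ∈ Finset.range (m + 1), y0 i = ∑ i ∈ Finset.range (m + 1), x i := by
            apply Finset.sum_congr rfl
            intro i hi
            have : i < n := by simp at hi; omega
            simp [y0, this]
          rw [this]
          exact hxC.2 (m + 1)
        · rw [Finset.sum_range_succ]
          have : y0 m ≤ 1 := by
            simp only [y0]
            split_ifs <;> omega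
          push_cast
          omega
  have hy0x : Ag k1 y0 x0 := by
    intro i hi
    have : i < n := by omega
    simp [y0, this, hxx i hi]
  obtain ⟨y, hyC, hyy, hy⟩ := hcon y0 hy0 hy0x (n + 1)
  have hyn : y n = 1 := by rw [hyy n (by omega)]; simp [y0]
  have hyx : Ag n y x := by
    intro i hi
    rw [hyy i (by omega)]
    simp [y0, hi]
  obtain ⟨m, hm, hmax⟩ := hy.2.2.2.2 (n + 1)
  have hd : y - e n + e m ∈ C0 := by
    refine ⟨fun i => ?_, fun l => ?_⟩
    · have := hyC.1 i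
      simp only [Pi.add_apply, Pi.sub_apply, e_apply]
      split_ifs with h1 h2 h2
      · omega
      · subst h1; omega
      · omega
      · omega
    · have := hyC.2 l
      simp only [Pi.add_apply, Pi.sub_apply, Finset.sum_add_distrib, Finset.sum_sub_distrib, sum_e]
      split_ifs <;> omega
  have hdx : Ag k1 (y - e n + e m) x0 := by
    intro i hi
    have h1 : i ≠ n := by omega
    have h2 : i ≠ m := by omega
    simp [e_ne h1, e_ne h2, hyx i (by omega), hxx i hi]
  have hdbr := hbr _ hd hdx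
  have hQ := hy.2.2.1 n m hk0 (by omega) (y - e n + e m + h) (hdbr m) (by
    intro i hi
    have h1 : i ≠ n := by omega
    have h2 : i ≠ m := by omega
    simp [e_ne h1, e_ne h2])
  rcases hQ with hQ | hQ
  · have h3 := hmax _ hQ (by
      intro i hi
      have h2 : i ≠ m := by omega
      simp [e_ne h2]
      ring)
    have h4 : m ≠ n := by omega
    simp [e_self, e_ne h4] at h3
  · have h3 := hmin _ (htree n m (by omega) _ hQ) (by
      intro i hi
      have h1 : i ≠ n := by omega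
      have h2 : i ≠ m := by omega
      simp [e_ne h1, e_ne h2, hyx i hi])
    have h4 : n ≠ m := by omega
    simp [e_self, e_ne h4, hyn, hxn] at h3

lemma C1_nonempty : C1.Nonempty := ⟨0, fun _ => Or.inl rfl⟩
lemma C0_nonempty : C0.Nonempty := ⟨0, fun _ => le_rfl, fun m => by simp⟩

lemma C1_bound {x : X} (hx : x ∈ C1) (i : ℕ) : 0 ≤ x i ∧ x i ≤ i + 1 := by
  rcases hx i with h | h <;> omega

lemma C0_bound {x : X} (hx : x ∈ C0) (i : ℕ) : 0 ≤ x i ∧ x i ≤ i + 1 := by
  refine ⟨hx.1 i, ?_⟩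
  have h1 := hx.2 (i + 1)
  rw [Finset.sum_range_succ] at h1
  have h2 : 0 ≤ ∑ j ∈ Finset.range i, x j := Finset.sum_nonneg fun j _ => hx.1 j
  push_cast at h1
  omega

lemma compact_of_bound {C : Set X} (hC : IsClosed C) (hb : ∀ x ∈ C, ∀ i, 0 ≤ x i ∧ x i ≤ i + 1) :
    IsCompact C := by
  have : IsCompact (Set.pi univ fun i : ℕ => Set.Icc (0 : ℤ) (i + 1)) :=
    isCompact_univ_pi fun i => (Set.finite_Icc _ _).isCompact
  exact this.of_isClosed_subset hC fun x hx i _ => hb x hx i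

lemma C1_compact : IsCompact C1 := by
  apply compact_of_bound _ fun x hx => C1_bound hx
  have : C1 = ⋂ i, (fun x : X => x i) ⁻¹' {a | a = 0 ∨ a = 1} := by
    ext x; simp [C1]
  rw [this]
  exact isClosed_iInter fun i => (isClosed_discrete _).preimage (continuous_apply i)

lemma C0_compact : IsCompact C0 := by
  apply compact_of_bound _ fun x hx => C0_bound hx
  have : C0 = (⋂ i, (fun x : X => x i) ⁻¹' {a | 0 ≤ a}) ∩
      ⋂ m : ℕ, (fun x : X => ∑ i ∈ Finset.range m, x i) ⁻¹' {a | a ≤ m} := by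
    ext x; simp [C0]
  rw [this]
  refine IsClosed.inter (isClosed_iInter fun i => (isClosed_discrete _).preimage
    (continuous_apply i)) (isClosed_iInter fun m => (isClosed_discrete _).preimage ?_)
  fun_prop

end Pool.Agent.H557Z.Shm
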