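import Mathlib
import Pool.Agent.H557Z.ShmTree

namespace Pool.Agent.H557Z.Shm

open Set Topology

lemma finite_res {C : Set X} (hC : IsCompact C) (m : ℕ) :
    ((fun d : X => PiNat.res d m) '' C).Finite := by
  obtain ⟨t, htC, ht⟩ := hC.elim_nhds_subcover (fun x => {y : X | Ag m y x})
    (fun x _ => (isOpen_ag m x).mem_nhds (Ag.refl m x))
  refine (t.finite_toSet.image fun d : X => PiNat.res d m).subset ?_
  rintro _ ⟨d, hd, rfl⟩
  obtain ⟨x, hx, hdx⟩ := mem_iUnion₂.1 (ht hd)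
  exact ⟨x, hx, (PiNat.res_eq_res.2 fun i hi => hdx i hi).symm⟩

/-- the tree of a compact set -/
noncomputable def treeOf {C : Set X} (hC : IsCompact C) : Tr :=
  fun m => (finite_res hC (m + 1)).toFinset

lemma mem_treeOf {C : Set X} (hC : IsCompact C) {m : ℕ} {d : X} :
    Mem (treeOf hC) m d ↔ ∃ c ∈ C, Ag (m + 1) c d := by
  simp only [Mem, treeOf, Set.Finite.mem_toFinset, mem_image, PiNat.res_eq_res]
  constructor
  · rintro ⟨c, hc, h⟩
    exact ⟨c, hc, fun i hi => h hi⟩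
  · rintro ⟨c, hc, h⟩
    exact ⟨c, hc, fun i hi => h i hi⟩

lemma br_treeOf {C : Set X} (hC : IsCompact C) {d : X} : Br (treeOf hC) d ↔ d ∈ C := by
  constructor
  · intro h
    by_contra hd
    obtain ⟨k, hk⟩ := cyl_sub hC.isClosed.isOpen_compl hd
    obtain ⟨c, hc, hcd⟩ := (mem_treeOf hC).1 (h k)
    exact hk c (hcd.mono (by omega)) hc
  · intro h m
    exact (mem_treeOf hC).2 ⟨d, h, Ag.refl _ _⟩

lemma isTree_treeOf {C : Set X} (hC : IsCompact C) : IsTree (treeOf hC) := by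
  intro n m hnm d hd
  obtain ⟨c, hc, hcd⟩ := (mem_treeOf hC).1 hd
  exact (mem_treeOf hC).2 ⟨c, hc, hcd.mono (by omega)⟩

lemma finite_vals {C : Set X} (hC : IsCompact C) (n : ℕ) : ((fun d : X => d n) '' C).Finite :=
  (hC.image (continuous_apply n)).finite_of_discrete

lemma cnd_min {C : Set X} (hC : IsCompact C) (j : ℕ) :
    CND C {c | ∀ n, j ≤ n → ¬ MinAt (treeOf hC) n c} := by
  intro x hx k
  set n := max j k
  have hfin : ((fun d : X => d n) '' {d | d ∈ C ∧ Ag n d x}).Finite :=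
    (finite_vals hC n).subset (image_mono fun d hd => hd.1)
  obtain ⟨y, ⟨hyC, hyx⟩, hy⟩ := Set.exists_min_image _ (fun a : ℤ => a) hfin
    ⟨x n, x, ⟨hx, Ag.refl _ _⟩, rfl⟩ |>.imp (fun a ha => ha) |> fun ⟨a, ⟨y, hy, hya⟩, ha⟩ =>
      (⟨y, hy, fun d hd => by
        have := ha (d n) ⟨d, hd, rfl⟩
        simp only at hya
        omega⟩ : ∃ y ∈ {d | d ∈ C ∧ Ag n d x}, ∀ d ∈ {d | d ∈ C ∧ Ag n d x}, y n ≤ d n)
  refine ⟨y, hyC, hyx.mono (le_max_right _ _), n + 1, fun w _ hwy hw => ?_⟩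
  apply hw n (le_max_left _ _)
  intro d hd hdw
  obtain ⟨c, hc, hcd⟩ := (mem_treeOf hC).1 hd
  have := hy c ⟨hc, ((hcd.mono (by omega)).trans hdw).trans ((hwy.mono (by omega)).trans hyx)⟩
  rw [hwy n (by omega), ← hcd n (by omega)]
  exact this

lemma cnd_max {C : Set X} (hC : IsCompact C) (j : ℕ) :
    CND C {c | ∀ n, j ≤ n → ¬ MaxAt (treeOf hC) n c} := by
  intro x hx k
  set n := max j k
  have hfin : ((fun d : X => d n) '' {d | d ∈ C ∧ Ag n d x}).Finite :=
    (finite_vals hC n).subset (image_mono fun d hd => hd.1)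
  obtain ⟨y, ⟨hyC, hyx⟩, hy⟩ := Set.exists_max_image _ (fun a : ℤ => a) hfin
    ⟨x n, x, ⟨hx, Ag.refl _ _⟩, rfl⟩ |>.imp (fun a ha => ha) |> fun ⟨a, ⟨y, hy, hya⟩, ha⟩ =>
      (⟨y, hy, fun d hd => by
        have := ha (d n) ⟨d, hd, rfl⟩
        simp only at hya
        omega⟩ : ∃ y ∈ {d | d ∈ C ∧ Ag n d x}, ∀ d ∈ {d | d ∈ C ∧ Ag n d x}, d n ≤ y n)
  refine ⟨y, hyC, hyx.mono (le_max_right _ _), n + 1, fun w _ hwy hw => ?_⟩
  apply hw n (le_max_left _ _)
  intro d hd hdw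
  obtain ⟨c, hc, hcd⟩ := (mem_treeOf hC).1 hd
  have := hy c ⟨hc, ((hcd.mono (by omega)).trans hdw).trans ((hwy.mono (by omega)).trans hyx)⟩
  rw [hwy n (by omega), ← hcd n (by omega)]
  exact this

/-- the closed sets `F k` -/
def FF (C : Set X) (k : ℕ) : Set X := {c | ∀ n, k ≤ n → c + e n ∈ C ∨ c - e n ∈ C}

lemma mem_of_approx {C : Set X} (hC : IsCompact C) {k : ℕ} {y : X}
    (h : ∀ l, ∃ w ∈ C, Ag l w y ∧ w ∈ FF C k) : y ∈ FF C k := by
  intro n hn
  by_contra hcon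
  push Not at hcon
  obtain ⟨k1, hk1⟩ := cyl_sub hC.isClosed.isOpen_compl hcon.1
  obtain ⟨k2, hk2⟩ := cyl_sub hC.isClosed.isOpen_compl hcon.2
  obtain ⟨w, -, hwy, hw⟩ := h (max k1 k2)
  rcases hw n hn with h1 | h1
  · exact hk1 _ ((hwy.mono (le_max_left _ _)).add _) h1
  · exact hk2 _ ((hwy.mono (le_max_right _ _)).sub _) h1

theorem union_not_meagre {C : Set X} (hC : IsCompact C) (hne : C.Nonempty) :
    ¬ IsMeagre {c : C | (∃ k, B0k (treeOf hC) k c) ∨ B1 (treeOf hC) c} := by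
  intro hM
  by_cases hF : ∀ k, CND C (FF C k)
  · obtain ⟨x, hx⟩ := hne
    apply portion_not_meagre hC hx 0
    refine IsMeagre.mono ?_ (hM.union (isMeagre_iUnion fun k => (hF k).meagre))
    intro c _
    by_cases hc : ∃ k, (c : X) ∈ FF C k
    · right
      exact mem_iUnion.2 hc
    · left
      right
      refine ⟨(br_treeOf hC).2 c.2, fun k => ?_⟩
      push Not at hc
      have := hc k
      simp only [FF, Set.mem_ofPred_eq] at this
      push Not at this
      obtain ⟨n, hn, h1, h2⟩ := this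
      rw [← br_treeOf hC] at h1 h2
      simp only [Br] at h1 h2
      push Not at h1 h2
      exact ⟨n, hn, h1, h2⟩
  · push Not at hF
    obtain ⟨k, hk⟩ := hF
    unfold CND at hk
    push Not at hk
    obtain ⟨x, hx, k1, hk1⟩ := hk
    have hport : ∀ y ∈ C, Ag k1 y x → y ∈ FF C k := fun y hy hyx =>
      mem_of_approx hC (hk1 y hy hyx)
    apply portion_not_meagre hC hx k1
    refine IsMeagre.mono ?_ ((hM.union (isMeagre_iUnion fun j => (cnd_min hC j).meagre)).union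
      (isMeagre_iUnion fun j => (cnd_max hC j).meagre))
    intro c hc
    by_cases h1 : ∃ j, ∀ n, j ≤ n → ¬ MinAt (treeOf hC) n c
    · left; right
      exact mem_iUnion.2 h1
    by_cases h2 : ∃ j, ∀ n, j ≤ n → ¬ MaxAt (treeOf hC) n c
    · right
      exact mem_iUnion.2 h2
    left; left; left
    push Not at h1 h2
    refine ⟨max k k1, (br_treeOf hC).2 c.2, isTree_treeOf hC, ?_, h1, h2⟩
    intro n m hn hnm d hd hdc
    obtain ⟨d', hd', hdd⟩ := (mem_treeOf hC).1 hd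
    have hk1n : k1 ≤ n := le_trans (le_max_right _ _) hn
    have hd'x : Ag k1 d' x :=
      ((hdd.mono (by omega)).trans (hdc.mono (le_max_right _ _))).trans hc
    rcases hport d' hd' hd'x n (le_trans (le_max_left _ _) hn) with h | h
    · left
      exact (mem_treeOf hC).2 ⟨_, h, hdd.add _⟩
    · right
      exact (mem_treeOf hC).2 ⟨_, h, hdd.sub _⟩

end Pool.Agent.H557Z.Shm
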