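import Mathlib
import Pool.Agent.H557Z.ShmUnion
import Pool.Agent.H557Z.ShmDefs

namespace Pool.Agent.H557Z.Shm

open Set Topology

def bd (τ : Finset (List ℤ)) : ℕ := τ.sup fun l => (l.headD 0).natAbs

noncomputable def jj (τ : Finset (List ℤ)) : ℕ := Nat.pair (Encodable.encode τ) (bd τ)

lemma bd_le_jj (τ : Finset (List ℤ)) : bd τ ≤ jj τ := Nat.right_le_pair _ _

lemma jj_inj {τ σ : Finset (List ℤ)} (h : jj τ = jj σ) : τ = σ :=
  Encodable.encode_injective (Nat.pair_eq_pair.1 h).1

noncomputable def phi (m : ℕ) (τ : Finset (List ℤ)) : ℤ := (m + 3) * (jj τ : ℤ) ^ 2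

lemma sep_aux (m a b : ℕ) (h : a < b) :
    (a : ℤ) + b + (m + 1) < (m + 3) * (b : ℤ) ^ 2 - (m + 3) * (a : ℤ) ^ 2 := by
  obtain ⟨t, rfl⟩ := Nat.exists_eq_add_of_lt h
  push_cast
  have h1 : (0 : ℤ) ≤ m := Int.natCast_nonneg m
  have h2 : (0 : ℤ) ≤ a := Int.natCast_nonneg a
  have h3 : (0 : ℤ) ≤ t := Int.natCast_nonneg t
  nlinarith [mul_nonneg h1 h2, mul_nonneg h1 h3, mul_nonneg h2 h3, mul_nonneg (mul_nonneg h1 h2) h3,
    mul_nonneg (mul_nonneg h1 h3) h3, mul_nonneg h3 h3]

lemma sep {m : ℕ} {τ σ : Finset (List ℤ)}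
    (h : |phi m τ - phi m σ| ≤ bd τ + bd σ + (m + 1)) : τ = σ := by
  apply jj_inj
  have h1 : (bd τ : ℤ) ≤ jj τ := by exact_mod_cast bd_le_jj τ
  have h2 : (bd σ : ℤ) ≤ jj σ := by exact_mod_cast bd_le_jj σ
  rw [abs_le] at h
  unfold phi at h
  rcases lt_trichotomy (jj τ) (jj σ) with hlt | heq | hlt
  · have := sep_aux m _ _ hlt
    omega
  · exact heq
  · have := sep_aux m _ _ hlt
    omega

open Classical in
noncomputable def psi (m : ℕ) (v : ℤ) : Finset (List ℤ) :=
  if h : ∃ τ, |v - phi m τ| ≤ bd τ then h.choose else ∅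

lemma psi_eq {m : ℕ} {v : ℤ} {τ : Finset (List ℤ)} (h : |v - phi m τ| ≤ bd τ) : psi m v = τ := by
  have hex : ∃ τ, |v - phi m τ| ≤ bd τ := ⟨τ, h⟩
  have h1 : psi m v = hex.choose := by simp [psi, hex]
  have h2 := hex.choose_spec
  rw [h1]
  apply sep (m := m)
  rw [abs_le] at *
  constructor <;> omega

noncomputable def Tz (z : X) : Tr := fun m => psi m (z m)

noncomputable def gam (T : Tr) : X := fun m => phi m (T m)

noncomputable def cz (z : X) : X := z - gam (Tz z)

lemma abs_le_bd {T : Tr} {m : ℕ} {d : X} (h : Mem T m d) : |d m| ≤ bd (T m) := by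
  have : (fun l : List ℤ => (l.headD 0).natAbs) (PiNat.res d (m + 1)) ≤ bd (T m) :=
    Finset.le_sup (f := fun l : List ℤ => (l.headD 0).natAbs) h
  simp only [PiNat.res_succ, List.headD_cons] at this
  rw [Int.abs_eq_natAbs]
  exact_mod_cast this

lemma Tz_code {T : Tr} {d : X} (h : Br T d) : Tz (d + gam T) = T := by
  funext m
  apply psi_eq
  simpa [gam] using abs_le_bd (h m)

lemma cz_code {T : Tr} {d : X} (h : Br T d) : cz (d + gam T) = d := by
  simp [cz, Tz_code h]

lemma Tz_eq {z z' : X} (h : Br (Tz z) (cz z)) (h' : Br (Tz z') (cz z'))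
    (hd : ∀ m, |z m - z' m| ≤ m + 1) : Tz z = Tz z' := by
  funext m
  apply sep (m := m)
  have h1 := abs_le_bd (h m)
  have h2 := abs_le_bd (h' m)
  have h3 := hd m
  simp only [cz, gam, Pi.sub_apply] at h1 h2
  rw [abs_le] at *
  constructor <;> omega

/-- the coded set -/
def Coded (P : Tr → X → Prop) : Set X := {z | P (Tz z) (cz z)}

lemma meagre_coded {C : Set X} (hb : ∀ x ∈ C, ∀ i, 0 ≤ x i ∧ x i ≤ i + 1)
    {P : Tr → X → Prop} (hP : ∀ T c, P T c → Br T c)
    (hM : ∀ T h, IsMeagre {x : C | P T (x + h)}) (g : X) :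
    IsMeagre {x : C | (x : X) ∈ (fun b => b + g) '' Coded P} := by
  by_cases hne : ∃ x0 : C, (x0 : X) ∈ (fun b => b + g) '' Coded P
  · obtain ⟨x0, z0, hz0, hz0x⟩ := hne
    refine IsMeagre.mono ?_ (hM (Tz z0) (-g - gam (Tz z0)))
    rintro x ⟨z, hz, hzx⟩
    have hT : Tz z = Tz z0 := by
      apply Tz_eq (hP _ _ hz) (hP _ _ hz0)
      intro m
      have h1 := congrFun hzx m
      have h2 := congrFun hz0x m
      have h3 := hb x x.2 m
      have h4 := hb x0 x0.2 m
      simp only [Pi.add_apply] at h1 h2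
      rw [abs_le]
      constructor <;> omega
    have hc : cz z = x + (-g - gam (Tz z0)) := by
      rw [← hzx, cz, hT]
      simp only
      abel
    simp only [Set.mem_ofPred_eq]
    rw [← hc, ← hT]
    exact hz
  · refine IsMeagre.mono ?_ IsMeagre.empty
    intro x hx
    exact hne ⟨x, hx⟩

lemma meas_of (m : ℕ) (P : Tr → X → Prop)
    (h : ∀ T T' c c', (∀ i ≤ m, T i = T' i) → Ag (m + 1) c c' → P T c → P T' c') :
    Measurable fun z => P (Tz z) (cz z) := by
  rw [← measurableSet_setOfPred]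
  apply IsOpen.measurableSet
  rw [isOpen_iff_forall_mem_open]
  intro z hz
  refine ⟨{y | Ag (m + 1) y z}, fun y hy => ?_, isOpen_ag _ _, Ag.refl _ _⟩
  refine h (Tz z) (Tz y) (cz z) (cz y) ?_ ?_ hz
  · intro i hi
    simp [Tz, hy i (by omega)]
  · intro i hi
    simp [cz, gam, Tz, hy i hi]

lemma Mem.tr {T T' : Tr} {m : ℕ} {d : X} (h : Mem T m d) (hT : T m = T' m) : Mem T' m d := by
  unfold Mem at *
  rwa [← hT]

lemma meas_mem (m : ℕ) (v : X) : Measurable fun z => Mem (Tz z) m (cz z + v) :=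
  meas_of m (fun T c => Mem T m (c + v)) fun _ _ _ _ hT hc h =>
    (h.congr (hc.add v)).tr (hT m le_rfl)

lemma meas_br : Measurable fun z => Br (Tz z) (cz z) :=
  Measurable.forall fun m => by simpa using meas_mem m 0

lemma meas_B1 : Measurable fun z => B1 (Tz z) (cz z) := by
  refine meas_br.and (Measurable.forall fun k => Measurable.exists fun n =>
    measurable_const.and (Measurable.and (Measurable.exists fun m => (meas_mem m _).not)
      (Measurable.exists fun m => Measurable.not ?_)))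
  simpa [sub_eq_add_neg] using meas_mem m (-e n)

lemma meas_B0k (k : ℕ) : Measurable fun z => B0k (Tz z) k (cz z) := by
  refine meas_br.and (Measurable.and ?_ (Measurable.and ?_ (Measurable.and ?_ ?_)))
  · refine Measurable.forall fun n => Measurable.forall fun m => ?_
    refine meas_of m (fun T _ => n ≤ m → ∀ d, Mem T m d → Mem T n d) ?_
    intro T T' c c' hT _ h hnm d hd
    exact (h hnm d (hd.tr (hT m le_rfl).symm)).tr (hT n hnm)
  · refine Measurable.forall fun n => Measurable.forall fun m => ?_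
    refine meas_of m (fun T c => k ≤ n → n ≤ m → QAt T k n m c) ?_
    intro T T' c c' hT hc h hkn hnm d hd hdc
    rcases h hkn hnm d (hd.tr (hT m le_rfl).symm) (hdc.trans (hc.symm.mono (by omega))) with h1 | h1
    · exact Or.inl (h1.tr (hT m le_rfl))
    · exact Or.inr (h1.tr (hT m le_rfl))
  · refine Measurable.forall fun j => Measurable.exists fun n => measurable_const.and ?_
    refine meas_of n (fun T c => MinAt T n c) ?_
    intro T T' c c' hT hc h d hd hdc
    rw [← hc n (by omega)]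
    exact h d (hd.tr (hT n le_rfl).symm) (hdc.trans (hc.symm.mono (by omega)))
  · refine Measurable.forall fun j => Measurable.exists fun n => measurable_const.and ?_
    refine meas_of n (fun T c => MaxAt T n c) ?_
    intro T T' c c' hT hc h d hd hdc
    rw [← hc n (by omega)]
    exact h d (hd.tr (hT n le_rfl).symm) (hdc.trans (hc.symm.mono (by omega)))

lemma borel_of {S : Set X} (h : MeasurableSet S) : @MeasurableSet X (borel X) S := by
  rw [← BorelSpace.measurable_eq (α := X)]
  exact h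

def A0 : Set X := Coded fun T c => ∃ k, B0k T k c
def A1 : Set X := Coded B1

theorem shm_A0 : StronglyHaarMeager A0 := by
  refine ⟨A0, Subset.rfl, borel_of (Measurable.exists meas_B0k).setOf, C0, C0_nonempty, C0_compact,
    meagre_coded (fun x hx => C0_bound hx) (fun T c ⟨k, hk⟩ => hk.1) fun T h => ?_⟩
  refine IsMeagre.mono ?_ (isMeagre_iUnion fun k => (cnd_B0k T h k).meagre)
  intro x hx
  exact mem_iUnion.2 hx

theorem shm_A1 : StronglyHaarMeager A1 :=
  ⟨A1, Subset.rfl, borel_of meas_B1.setOf, C1, C1_nonempty, C1_compact,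
    meagre_coded (fun _ hx => C1_bound hx) (fun _ _ hk => hk.1) fun T h => (cnd_B1 T h).meagre⟩

theorem not_shm_union : ¬ StronglyHaarMeager (A0 ∪ A1) := by
  rintro ⟨B, hB, -, C, hne, hC, hM⟩
  apply union_not_meagre hC hne
  refine IsMeagre.mono ?_ (hM (-gam (treeOf hC)))
  intro c hc
  have hbr : Br (treeOf hC) c := (br_treeOf hC).2 c.2
  refine ⟨c + gam (treeOf hC), hB ?_, by simp⟩
  rcases hc with hc | hc
  · left
    simpa [A0, Coded, Tz_code hbr, cz_code hbr] using hc
  · right
    simpa [A1, Coded, Tz_code hbr, cz_code hbr] using hc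

end Pool.Agent.H557Z.Shm
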